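import Pool.Agent.Lib.MP_5e7226_co.CM.Defs

/-! Row R7: rim points are lit. -/

set_option autoImplicit false

open Set Filter Topology

namespace Pool.Agent.Lib.MP_5e7226_co.CM

open PS

theorem r7_mem {x : E} (h1 : |x.1| ≤ 1) (h2 : |x.2| ≤ 1) : x ∈ SQ := ⟨h1, h2⟩

theorem r7_abs {p : ℝ} (hp : p = 1 ∨ p = -1) : |p| = 1 := by
  rcases hp with rfl | rfl <;> simp

theorem r7_sq {p : ℝ} (hp : p = 1 ∨ p = -1) : p * p = 1 := by
  rcases hp with rfl | rfl <;> norm_num

/-- a landing point on the open diagonal from `0` to the vertex `c` -/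
theorem r7_land {f : E → ℝ} (H : EF SQ f) {c : E} (hc1 : |c.1| = 1) (hc2 : |c.2| = 1) {t : ℝ}
    (ht0 : 0 < t) (ht1 : t ≤ 1) {x v : E} (hx : x + t • v = (1 - t) • c) (hf : f x = 0) {τ : ℝ}
    (hτ0 : 0 ≤ τ) (hτ : τ < f 0) : Full SQ f f x v τ := by
  have hcS : c ∈ SQ := ⟨hc1.le, hc2.le⟩
  have h0S : (0 : E) ∈ SQ := interior_subset H.zero
  have hint : x + t • v ∈ interior SQ := by
    rw [hx]
    refine int_SQ ?_ ?_
    · simp only [Prod.smul_fst, smul_eq_mul, abs_mul, hc1, mul_one]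
      rw [abs_of_nonneg (by linarith)]
      linarith
    · simp only [Prod.smul_snd, smul_eq_mul, abs_mul, hc2, mul_one]
      rw [abs_of_nonneg (by linarith)]
      linarith
  have hlow : t * f 0 ≤ f (x + t • v) := by
    have h1 := H.fconc.2 h0S hcS ht0.le (show (0 : ℝ) ≤ 1 - t by linarith) (by ring)
    have h2 := H.f0 c hcS
    rw [smul_zero, zero_add] at h1
    simp only [smul_eq_mul] at h1
    rw [hx]
    have h3 : 0 ≤ (1 - t) * f c := mul_nonneg (by linarith) h2
    linarith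
  have hf0 := H.pos
  have h4 : t * τ < t * f 0 := mul_lt_mul_of_pos_left hτ ht0
  refine ⟨⟨t, ht0, hint⟩, ⟨t, ht0, interior_subset hint, ?_⟩, ⟨t, ht0, interior_subset hint, ?_⟩⟩
  · rw [hf]
    linarith
  · rw [hf]
    have h5 : 0 ≤ t * τ := mul_nonneg ht0.le hτ0
    have h6 : 0 < t * f 0 := mul_pos ht0 hf0
    linarith

/-- R7: `p, q ∈ {1, -1}`; the direction `(p, q)` with slope `τ` lights the fibre over the rim point
`x`, unless `x` lies on one of the sides `s = p`, `t = q`. If `x` is on the side `s = -p` it lands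
after the time `(1 - q * x.2) / 2` on the diagonal from `0` to `(-p, q)`. -/
theorem rimFull {f : E → ℝ} (H : EF SQ f) {x : E} (hx : x ∈ SQ) (hf : f x = 0)
    {τ : ℝ} (hτ0 : 0 ≤ τ) (hτ : τ < f 0) {p q : ℝ} (hp : p = 1 ∨ p = -1) (hq : q = 1 ∨ q = -1)
    (h1 : p * x.1 < 1) (h2 : q * x.2 < 1) : Full SQ f f x (p, q) τ := by
  have hpp := r7_sq hp
  have hqq := r7_sq hq
  have hx1 : |p * x.1| ≤ 1 := by rw [abs_mul, r7_abs hp, one_mul]; exact hx.1
  have hx2 : |q * x.2| ≤ 1 := by rw [abs_mul, r7_abs hq, one_mul]; exact hx.2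
  have hbd : ¬ (|x.1| < 1 ∧ |x.2| < 1) := fun h => by
    have := H.fpos x (int_SQ h.1 h.2)
    linarith
  rw [abs_le] at hx1 hx2
  have hcase : p * x.1 = -1 ∨ q * x.2 = -1 := by
    by_contra hcon
    push Not at hcon
    have h3 : -1 < p * x.1 := lt_of_le_of_ne hx1.1 (Ne.symm hcon.1)
    have h4 : -1 < q * x.2 := lt_of_le_of_ne hx2.1 (Ne.symm hcon.2)
    apply hbd
    have h5 : |p * x.1| < 1 := abs_lt.2 ⟨h3, h1⟩
    have h6 : |q * x.2| < 1 := abs_lt.2 ⟨h4, h2⟩
    rw [abs_mul, r7_abs hp, one_mul] at h5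
    rw [abs_mul, r7_abs hq, one_mul] at h6
    exact ⟨h5, h6⟩
  rcases hcase with hc | hc
  · have e1 : x.1 = -p := by
      have : p * (p * x.1) = p * (-1) := by rw [hc]
      rw [← mul_assoc, hpp] at this
      linarith
    have e2 : x.2 = q * (q * x.2) := by rw [← mul_assoc, hqq, one_mul]
    refine r7_land H (c := (-p, q)) (by simp [r7_abs hp]) (by simp [r7_abs hq])
      (t := (1 - q * x.2) / 2) (by linarith) (by linarith) ?_ hf hτ0 hτ
    refine Prod.ext ?_ ?_
    · simp only [Prod.fst_add, Prod.smul_fst, smul_eq_mul]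
      rw [e1]; ring
    · simp only [Prod.snd_add, Prod.smul_snd, smul_eq_mul]
      linear_combination (1 : ℝ) * e2 + (0 : ℝ) * hqq
  · have e1 : x.2 = -q := by
      have : q * (q * x.2) = q * (-1) := by rw [hc]
      rw [← mul_assoc, hqq] at this
      linarith
    have e2 : x.1 = p * (p * x.1) := by rw [← mul_assoc, hpp, one_mul]
    refine r7_land H (c := (p, -q)) (by simp [r7_abs hp]) (by simp [r7_abs hq])
      (t := (1 - p * x.1) / 2) (by linarith) (by linarith) ?_ hf hτ0 hτ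
    refine Prod.ext ?_ ?_
    · simp only [Prod.fst_add, Prod.smul_fst, smul_eq_mul]
      linear_combination (1 : ℝ) * e2 + (0 : ℝ) * hpp
    · simp only [Prod.snd_add, Prod.smul_snd, smul_eq_mul]
      rw [e1]; ring

end Pool.Agent.Lib.MP_5e7226_co.CM
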