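import Pool.Agent.Lib.MP_5e7226_co.CM.Defs

/-! Row R6. The assembly on the square, all vertices rim points. The list is `a 0, .., a 3`,
`((-1,-1), -1/ε)`, `((1,1), -1/ε)`, `((1,-1), 1/ε)`. -/

set_option autoImplicit false

open Set Filter Topology

namespace Pool.Agent.Lib.MP_5e7226_co.CM

open PS

/-- from a point off the sides `s = p`, `t = q` the direction `(p, q)` leads inside -/
lemma r6_IN {x : E} (hx : x ∈ SQ) {p q : ℝ} (hp : p = 1 ∨ p = -1) (hq : q = 1 ∨ q = -1)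
    (h1 : p * x.1 < 1) (h2 : q * x.2 < 1) : IN SQ x (p, q) := by
  obtain ⟨a1, a2⟩ := hx
  rw [abs_le] at a1 a2
  obtain ⟨t, ht, h3, h4, h5⟩ : ∃ t : ℝ, 0 < t ∧ t ≤ 1 ∧ t < 1 - p * x.1 ∧ t < 1 - q * x.2 := by
    refine ⟨min 1 (min ((1 - p * x.1) / 2) ((1 - q * x.2) / 2)), ?_, min_le_left _ _, ?_, ?_⟩
    · apply lt_min one_pos (lt_min _ _) <;> linarith
    · refine ((min_le_right _ _).trans (min_le_left _ _)).trans_lt ?_
      linarith
    · refine ((min_le_right _ _).trans (min_le_right _ _)).trans_lt ?_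
      linarith
  refine IN_SQ ht ?_ ?_
  · rw [abs_lt]
    rcases hp with rfl | rfl <;> constructor <;> simp only <;> linarith
  · rw [abs_lt]
    rcases hq with rfl | rfl <;> constructor <;> simp only <;> linarith

/-- R6 -/
theorem asm {f : E → ℝ} (H : EF SQ f) (hv1 : f (1, 1) = 0) (hv2 : f (1, -1) = 0)
    (a : Fin 4 → E × ℝ)
    (hrim : ∀ x ∈ SQ, f x = 0 → ∃ i, Full SQ f f x (a i).1 (a i).2)
    (h1 : ∀ t : ℝ, |t| < 1 → 0 < f (1, t) →
      ∃ i, IN SQ (1, t) (a i).1 ∧ UP SQ f (1, t) (a i).1 (-(a i).2))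
    (h4 : ∀ s : ℝ, |s| < 1 → 0 < f (s, -1) →
      ∃ i, IN SQ (s, -1) (a i).1 ∧ UP SQ f (s, -1) (a i).1 (-(a i).2)) : Good7 SQ f := by
  have hv3 : f (-1, -1) = 0 := by
    have h := H.even (1, 1) ⟨by simp, by simp⟩
    rw [hv1] at h
    have e : (-(1, 1) : E) = (-1, -1) := by simp
    rwa [e] at h
  have hv4 : f (-1, 1) = 0 := by
    have h := H.even (1, -1) ⟨by simp, by simp⟩
    rw [hv2] at h
    have e : (-(1, -1) : E) = (-1, 1) := by simp
    rwa [e] at h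
  set D : ℝ → List (E × ℝ) := fun ε => [a 0, a 1, a 2, a 3, ((-1, -1), -(1 / ε)),
    ((1, 1), -(1 / ε)), ((1, -1), 1 / ε)] with hD
  have hmem : ∀ ε, ∀ i : Fin 4, a i ∈ D ε := by
    intro ε i
    fin_cases i <;> simp [hD]
  refine good7_of_loc H D (fun ε => by simp [hD]) ?_
  intro x hx
  by_cases h0 : f x = 0
  · obtain ⟨i, hi⟩ := hrim x hx h0
    obtain ⟨r, hr, hh⟩ := loc1 H.toPF hx hi
    refine ⟨r, hr, fun y hy hyx ε _ _ => ?_⟩
    exact Or.inl ⟨a i, hmem ε i, hh y hy hyx _ (by rw [sub_self, abs_zero]; exact hr)⟩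
  have hpos : 0 < f x := lt_of_le_of_ne (H.f0 x hx) (Ne.symm h0)
  obtain ⟨x1, x2⟩ := x
  have hx' := hx
  obtain ⟨b1, b2⟩ := hx'
  simp only [abs_le] at b1 b2
  -- the tops
  obtain ⟨r1, hr1, ht⟩ : ∃ r : ℝ, 0 < r ∧ ∀ z ∈ SQ, ‖z - (x1, x2)‖ < r → ∀ ε : ℝ, 0 < ε → ε < r →
      ∃ d ∈ D ε, IN SQ z d.1 ∧ UP SQ f z d.1 d.2 := by
    by_cases hc : -1 < x1 ∧ -1 < x2
    · have hin : IN SQ (x1, x2) (-1, -1) := r6_IN hx (Or.inr rfl) (Or.inr rfl)
        (by simp only; linarith [hc.1]) (by simp only; linarith [hc.2])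
      obtain ⟨r, hr, hh⟩ := steep_fixed H.toPF hx hin
      refine ⟨r, hr, fun z hz hzx ε hε hεr => ?_⟩
      obtain ⟨c1, c2, c3⟩ := hh z hz hzx ε hε hεr
      exact ⟨((-1, -1), -(1 / ε)), by simp [hD], c1, c2⟩
    · have hc' : x1 < 1 ∧ x2 < 1 := by
        by_contra hcon
        have key : (x1 = -1 ∨ x2 = -1) ∧ (x1 = 1 ∨ x2 = 1) := by
          constructor
          · by_contra h
            push Not at h
            exact hc ⟨lt_of_le_of_ne b1.1 (Ne.symm h.1), lt_of_le_of_ne b2.1 (Ne.symm h.2)⟩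
          · by_contra h
            push Not at h
            exact hcon ⟨lt_of_le_of_ne b1.2 h.1, lt_of_le_of_ne b2.2 h.2⟩
        rcases key with ⟨rfl | rfl, h | h⟩
        · norm_num at h
        · subst h; exact h0 hv4
        · subst h; exact h0 hv2
        · norm_num at h
      have hin : IN SQ (x1, x2) (1, 1) := r6_IN hx (Or.inl rfl) (Or.inl rfl)
        (by simp only; linarith [hc'.1]) (by simp only; linarith [hc'.2])
      obtain ⟨r, hr, hh⟩ := steep_fixed H.toPF hx hin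
      refine ⟨r, hr, fun z hz hzx ε hε hεr => ?_⟩
      obtain ⟨c1, c2, c3⟩ := hh z hz hzx ε hε hεr
      exact ⟨((1, 1), -(1 / ε)), by simp [hD], c1, c2⟩
  -- the bottoms
  have key : ∀ i : Fin 4, IN SQ (x1, x2) (a i).1 → UP SQ f (x1, x2) (a i).1 (-(a i).2) →
      ∃ r : ℝ, 0 < r ∧ ∀ z ∈ SQ, ‖z - (x1, x2)‖ < r → ∀ ε : ℝ, 0 < ε → ε < r →
      ∃ d ∈ D ε, IN SQ z d.1 ∧ UP SQ f z d.1 (-d.2) := by
    intro i c1 c2
    obtain ⟨r, hr, hh⟩ := loc0 H.toPF hx c1 c2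
    refine ⟨r, hr, fun z hz hzx ε _ _ => ?_⟩
    obtain ⟨c3, c4⟩ := hh z hz hzx _ (by rw [sub_self, abs_zero]; exact hr)
    exact ⟨a i, hmem ε i, c3, c4⟩
  obtain ⟨r2, hr2, hb⟩ : ∃ r : ℝ, 0 < r ∧ ∀ z ∈ SQ, ‖z - (x1, x2)‖ < r → ∀ ε : ℝ, 0 < ε → ε < r →
      ∃ d ∈ D ε, IN SQ z d.1 ∧ UP SQ f z d.1 (-d.2) := by
    by_cases hc : x1 < 1 ∧ -1 < x2
    · have hin : IN SQ (x1, x2) (1, -1) := r6_IN hx (Or.inl rfl) (Or.inr rfl)
        (by simp only; linarith [hc.1]) (by simp only; linarith [hc.2])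
      obtain ⟨r, hr, hh⟩ := steep_fixed H.toPF hx hin
      refine ⟨r, hr, fun z hz hzx ε hε hεr => ?_⟩
      obtain ⟨c1, c2, c3⟩ := hh z hz hzx ε hε hεr
      exact ⟨((1, -1), 1 / ε), by simp [hD], c1, c3⟩
    · by_cases hx1 : x1 = 1
      · subst hx1
        have ht2 : |x2| < 1 := by
          rw [abs_lt]
          constructor
          · refine lt_of_le_of_ne b2.1 ?_
            rintro rfl
            exact h0 hv2
          · refine lt_of_le_of_ne b2.2 ?_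
            rintro rfl
            exact h0 hv1
        obtain ⟨i, c1, c2⟩ := h1 x2 ht2 hpos
        exact key i c1 c2
      · have hx2 : x2 = -1 := by
          by_contra h
          exact hc ⟨lt_of_le_of_ne b1.2 hx1, lt_of_le_of_ne b2.1 (Ne.symm h)⟩
        subst hx2
        have ht1 : |x1| < 1 := by
          rw [abs_lt]
          constructor
          · refine lt_of_le_of_ne b1.1 ?_
            rintro rfl
            exact h0 hv3
          · exact lt_of_le_of_ne b1.2 hx1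
        obtain ⟨i, c1, c2⟩ := h4 x1 ht1 hpos
        exact key i c1 c2
  refine ⟨min r1 r2, lt_min hr1 hr2, fun z hz hzx ε hε hεr => ?_⟩
  apply cov_of H.toPF hz
  · intro hr
    obtain ⟨i, hi⟩ := hrim z hz hr.1
    exact ⟨a i, hmem ε i, hi⟩
  · intro _
    exact ⟨ht z hz (hzx.trans_le (min_le_left _ _)) ε hε (hεr.trans_le (min_le_left _ _)),
      hb z hz (hzx.trans_le (min_le_right _ _)) ε hε (hεr.trans_le (min_le_right _ _))⟩

end Pool.Agent.Lib.MP_5e7226_co.CM
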