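import Pool.Agent.Lib.MP_5e7226_co.CM.Defs

/-! Row R5. Lemma G: the bottoms over a side which is not a full rhombus. -/

set_option autoImplicit false

open Set Filter Topology

namespace Pool.Agent.Lib.MP_5e7226_co.CM

open PS

theorem r5_mem {s t : ℝ} : ((s, t) : E) ∈ SQ ↔ (-1 ≤ s ∧ s ≤ 1) ∧ (-1 ≤ t ∧ t ≤ 1) := by
  show (|s| ≤ 1 ∧ |t| ≤ 1) ↔ _
  rw [abs_le, abs_le]

/-- concavity on the square in coordinates -/
theorem r5_conc {f : E → ℝ} (H : ConcaveOn ℝ SQ f) {a b c d l : ℝ} (h1 : ((a, b) : E) ∈ SQ)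
    (h2 : ((c, d) : E) ∈ SQ) (hl0 : 0 ≤ l) (hl1 : l ≤ 1) :
    (1 - l) * f (a, b) + l * f (c, d) ≤ f ((1 - l) * a + l * c, (1 - l) * b + l * d) := by
  have := H.2 h1 h2 (show 0 ≤ 1 - l by linarith) hl0 (by ring)
  simpa using this

theorem r5_e1 (t l : ℝ) : ((1, t) + l • ((-1 : ℝ), (-1 : ℝ)) : E) = (1 - l, t - l) := by
  refine Prod.ext ?_ ?_
  · simp; ring
  · simp; ring

theorem r5_e2 (t l : ℝ) : ((1, t) + l • ((-1 : ℝ), (1 : ℝ)) : E) = (1 - l, t + l) := by
  refine Prod.ext ?_ ?_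
  · simp; ring
  · simp

/-- the long jump to the diagonal, first direction -/
theorem r5_key1 {f : E → ℝ} (hc : ConcaveOn ℝ SQ f) (h2 : f (1, -1) = 0) (hm : 0 < f 0)
    {τ t : ℝ} (ht1 : -1 < t) (ht2 : t < 1)
    (hh : f (1, t) < (1 + t) * (f 0 + τ) / 2) : UP SQ f (1, t) (-1, -1) (-τ) := by
  have hO : ((0, 0) : E) ∈ SQ := r5_mem.2 ⟨⟨by norm_num, by norm_num⟩, by norm_num, by norm_num⟩
  have hB : ((1, -1) : E) ∈ SQ := r5_mem.2 ⟨⟨by norm_num, by norm_num⟩, by norm_num, by norm_num⟩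
  refine ⟨(1 + t) / 2, by linarith, ?_, ?_⟩
  · rw [r5_e1, r5_mem]; exact ⟨⟨by linarith, by linarith⟩, by linarith, by linarith⟩
  · rw [r5_e1]
    have hc := r5_conc hc hO hB (l := (1 - t) / 2) (by linarith) (by linarith)
    rw [h2] at hc
    have e3 : ((1 - (1 - t) / 2) * 0 + (1 - t) / 2 * 1, (1 - (1 - t) / 2) * 0 + (1 - t) / 2 * -1)
        = ((1 - (1 + t) / 2, t - (1 + t) / 2) : E) := by
      refine Prod.ext ?_ ?_
      · simp; ring
      · simp; ring
    rw [e3] at hc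
    have e0 : f ((0 : ℝ), (0 : ℝ)) = f 0 := rfl
    rw [e0] at hc
    linarith

/-- the long jump to the diagonal, second direction -/
theorem r5_key2 {f : E → ℝ} (hc : ConcaveOn ℝ SQ f) (h1 : f (1, 1) = 0) (hm : 0 < f 0)
    {τ t : ℝ} (ht1 : -1 < t) (ht2 : t < 1)
    (hh : f (1, t) < (1 - t) * (f 0 + τ) / 2) : UP SQ f (1, t) (-1, 1) (-τ) := by
  have hO : ((0, 0) : E) ∈ SQ := r5_mem.2 ⟨⟨by norm_num, by norm_num⟩, by norm_num, by norm_num⟩
  have hA : ((1, 1) : E) ∈ SQ := r5_mem.2 ⟨⟨by norm_num, by norm_num⟩, by norm_num, by norm_num⟩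
  refine ⟨(1 - t) / 2, by linarith, ?_, ?_⟩
  · rw [r5_e2, r5_mem]; exact ⟨⟨by linarith, by linarith⟩, by linarith, by linarith⟩
  · rw [r5_e2]
    have hc := r5_conc hc hO hA (l := (1 + t) / 2) (by linarith) (by linarith)
    rw [h1] at hc
    have e3 : ((1 - (1 + t) / 2) * 0 + (1 + t) / 2 * 1, (1 - (1 + t) / 2) * 0 + (1 + t) / 2 * 1)
        = ((1 - (1 - t) / 2, t + (1 - t) / 2) : E) := by
      refine Prod.ext ?_ ?_
      · simp; ring
      · simp; ring
    rw [e3] at hc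
    have e0 : f ((0 : ℝ), (0 : ℝ)) = f 0 := rfl
    rw [e0] at hc
    linarith

/-- bound of the side function by its value in the middle -/
theorem r5_up1 {f : E → ℝ} (hconc : ConcaveOn ℝ SQ f) (h2 : f (1, -1) = 0) {t : ℝ} (h0 : 0 ≤ t)
    (h1' : t ≤ 1) : f (1, t) ≤ (1 + t) * f (1, 0) := by
  have hB : ((1, -1) : E) ∈ SQ := r5_mem.2 ⟨⟨by norm_num, by norm_num⟩, by norm_num, by norm_num⟩
  have ht : ((1, t) : E) ∈ SQ := r5_mem.2 ⟨⟨by norm_num, le_refl _⟩, by linarith, h1'⟩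
  have h1t : 0 < 1 + t := by linarith
  have hc := r5_conc hconc hB ht (l := 1 / (1 + t)) (by positivity)
    ((div_le_one h1t).2 (by linarith))
  rw [h2] at hc
  have e3 : ((1 - 1 / (1 + t)) * 1 + 1 / (1 + t) * 1, (1 - 1 / (1 + t)) * -1 + 1 / (1 + t) * t)
      = ((1, 0) : E) := by
    refine Prod.ext ?_ ?_
    · simp
    · simp only []
      field_simp
      ring
  rw [e3] at hc
  have h5 : 1 / (1 + t) * f (1, t) ≤ f (1, 0) := by linarith
  rw [one_div, inv_mul_le_iff₀ h1t] at h5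
  exact h5

theorem r5_up2 {f : E → ℝ} (hconc : ConcaveOn ℝ SQ f) (h1 : f (1, 1) = 0) {t : ℝ} (h0 : -1 ≤ t)
    (h1' : t ≤ 0) : f (1, t) ≤ (1 - t) * f (1, 0) := by
  have hA : ((1, 1) : E) ∈ SQ := r5_mem.2 ⟨⟨by norm_num, by norm_num⟩, by norm_num, by norm_num⟩
  have ht : ((1, t) : E) ∈ SQ := r5_mem.2 ⟨⟨by norm_num, le_refl _⟩, h0, by linarith⟩
  have h1t : 0 < 1 - t := by linarith
  have hc := r5_conc hconc hA ht (l := 1 / (1 - t)) (by positivity)
    ((div_le_one h1t).2 (by linarith))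
  rw [h1] at hc
  have e3 : ((1 - 1 / (1 - t)) * 1 + 1 / (1 - t) * 1, (1 - 1 / (1 - t)) * 1 + 1 / (1 - t) * t)
      = ((1, 0) : E) := by
    refine Prod.ext ?_ ?_
    · simp
    · simp only []
      field_simp
      ring
  rw [e3] at hc
  have h5 : 1 / (1 - t) * f (1, t) ≤ f (1, 0) := by linarith
  rw [one_div, inv_mul_le_iff₀ h1t] at h5
  exact h5

/-- lower bound of the side function if the maximum is attained on the side -/
theorem r5_low {f : E → ℝ} (hconc : ConcaveOn ℝ SQ f) (h1 : f (1, 1) = 0) (h2 : f (1, -1) = 0)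
    {m : ℝ} (heq : f (1, 0) = m) {t : ℝ} (ht : |t| ≤ 1) : m * (1 - |t|) ≤ f (1, t) := by
  have hA : ((1, 1) : E) ∈ SQ := r5_mem.2 ⟨⟨by norm_num, by norm_num⟩, by norm_num, by norm_num⟩
  have hB : ((1, -1) : E) ∈ SQ := r5_mem.2 ⟨⟨by norm_num, by norm_num⟩, by norm_num, by norm_num⟩
  have hC : ((1, 0) : E) ∈ SQ := r5_mem.2 ⟨⟨by norm_num, le_refl _⟩, by norm_num, by norm_num⟩
  rcases le_total 0 t with h0 | h0
  · rw [abs_of_nonneg h0] at ht ⊢
    have hc := r5_conc hconc hC hA h0 ht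
    rw [heq, h1] at hc
    have e3 : ((1 - t) * 1 + t * 1, (1 - t) * 0 + t * 1) = ((1, t) : E) := by
      refine Prod.ext ?_ ?_
      · simp
      · simp
    rw [e3] at hc
    linarith
  · rw [abs_of_nonpos h0] at ht ⊢
    have hc := r5_conc hconc hC hB (l := -t) (by linarith) ht
    rw [heq, h2] at hc
    have e3 : ((1 - -t) * 1 + -t * 1, (1 - -t) * 0 + -t * -1) = ((1, t) : E) := by
      refine Prod.ext ?_ ?_
      · simp
      · simp
    rw [e3] at hc
    linarith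

/-- the jump next to the middle of the side, towards `(1, a)`, `a > 0` -/
theorem r5_near1 {f : E → ℝ} (hconc : ConcaveOn ℝ SQ f) {a t τ : ℝ} (ha0 : 0 < a) (ha1 : a < 1)
    (ht : -1 < t) (hta : t < a) (hft : f (1, t) ≤ f 0)
    (hkey : (1 + t) * (f 0 - f (1, a)) < (a - t) * τ) :
    UP SQ f (1, t) (-1, 1) (-τ) := by
  have hO : ((0, 0) : E) ∈ SQ := r5_mem.2 ⟨⟨by norm_num, by norm_num⟩, by norm_num, by norm_num⟩
  have hat : ((1, a) : E) ∈ SQ := r5_mem.2 ⟨⟨by norm_num, le_refl _⟩, by linarith, ha1.le⟩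
  have h1a : 0 < 1 + a := by linarith
  have hl0 : 0 < (a - t) / (1 + a) := div_pos (by linarith) h1a
  have hl1 : (a - t) / (1 + a) < 1 := (div_lt_one h1a).2 (by linarith)
  have hc := r5_conc hconc hat hO hl0.le hl1.le
  have e0 : f ((0 : ℝ), (0 : ℝ)) = f 0 := rfl
  have hz : t + (a - t) / (1 + a) = (1 - (a - t) / (1 + a)) * a := by field_simp; ring
  have h5 : (1 - (a - t) / (1 + a)) = (1 + t) / (1 + a) := by field_simp; ring
  have e3 : ((1 - (a - t) / (1 + a)) * 1 + (a - t) / (1 + a) * 0,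
      (1 - (a - t) / (1 + a)) * a + (a - t) / (1 + a) * 0)
      = ((1 - (a - t) / (1 + a), t + (a - t) / (1 + a)) : E) := by
    refine Prod.ext ?_ ?_
    · simp
    · simp [hz]
  rw [e3, e0] at hc
  refine ⟨(a - t) / (1 + a), hl0, ?_, ?_⟩
  · rw [r5_e2, r5_mem, hz]
    have h6 : 0 ≤ (1 - (a - t) / (1 + a)) * a := mul_nonneg (by linarith) ha0.le
    have h7 : (1 - (a - t) / (1 + a)) * a ≤ 1 * 1 :=
      mul_le_mul (by linarith) ha1.le ha0.le (by norm_num)
    exact ⟨⟨by linarith, by linarith⟩, by linarith, by linarith⟩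
  · rw [r5_e2]
    have key : (1 - (a - t) / (1 + a)) * (f 0 - f (1, a)) < (a - t) / (1 + a) * τ := by
      rw [h5, div_mul_eq_mul_div, div_mul_eq_mul_div]
      exact div_lt_div_of_pos_right hkey h1a
    linarith

/-- the jump next to the middle of the side, towards `(1, -a)`, `a > 0` -/
theorem r5_near2 {f : E → ℝ} (hconc : ConcaveOn ℝ SQ f) {a t τ : ℝ} (ha0 : 0 < a) (ha1 : a < 1)
    (ht : t < 1) (hta : -a < t) (hft : f (1, t) ≤ f 0)
    (hkey : (1 - t) * (f 0 - f (1, -a)) < (a + t) * τ) :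
    UP SQ f (1, t) (-1, -1) (-τ) := by
  have hO : ((0, 0) : E) ∈ SQ := r5_mem.2 ⟨⟨by norm_num, by norm_num⟩, by norm_num, by norm_num⟩
  have hat : ((1, -a) : E) ∈ SQ := r5_mem.2 ⟨⟨by norm_num, le_refl _⟩, by linarith, by linarith⟩
  have h1a : 0 < 1 + a := by linarith
  have hl0 : 0 < (a + t) / (1 + a) := div_pos (by linarith) h1a
  have hl1 : (a + t) / (1 + a) < 1 := (div_lt_one h1a).2 (by linarith)
  have hc := r5_conc hconc hat hO hl0.le hl1.le
  have e0 : f ((0 : ℝ), (0 : ℝ)) = f 0 := rfl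
  have hz : t - (a + t) / (1 + a) = (1 - (a + t) / (1 + a)) * -a := by field_simp; ring
  have h5 : (1 - (a + t) / (1 + a)) = (1 - t) / (1 + a) := by field_simp; ring
  have e3 : ((1 - (a + t) / (1 + a)) * 1 + (a + t) / (1 + a) * 0,
      (1 - (a + t) / (1 + a)) * -a + (a + t) / (1 + a) * 0)
      = ((1 - (a + t) / (1 + a), t - (a + t) / (1 + a)) : E) := by
    refine Prod.ext ?_ ?_
    · simp
    · simp only [mul_zero, add_zero]
      exact hz.symm
  rw [e3, e0] at hc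
  refine ⟨(a + t) / (1 + a), hl0, ?_, ?_⟩
  · rw [r5_e1, r5_mem, hz]
    have h6 : 0 ≤ (1 - (a + t) / (1 + a)) * a := mul_nonneg (by linarith) ha0.le
    have h7 : (1 - (a + t) / (1 + a)) * a ≤ 1 * 1 :=
      mul_le_mul (by linarith) ha1.le ha0.le (by norm_num)
    exact ⟨⟨by linarith, by linarith⟩, by linarith, by linarith⟩
  · rw [r5_e1]
    have key : (1 - (a + t) / (1 + a)) * (f 0 - f (1, -a)) < (a + t) / (1 + a) * τ := by
      rw [h5, div_mul_eq_mul_div, div_mul_eq_mul_div]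
      exact div_lt_div_of_pos_right hkey h1a
    linarith

/-- the arithmetic behind the jump next to the middle -/
theorem r5_arith {a t τ m F ε δ : ℝ} (ha0 : 0 < a) (ha1 : a < 1) (hm : 0 < m)
    (hδ : δ = F - m * (1 - a)) (hF : F ≤ m) (hε0 : 0 < ε) (hε1 : ε ≤ a / 2)
    (hε2 : ε * m ≤ δ / 8) (ht1 : -ε < t) (ht2 : t < ε) (hτ : m - ε * m ≤ τ) :
    (1 + t) * (m - F) < (a - t) * τ := by
  have h1 : (1 + t) * (m - F) ≤ (1 + ε) * (m - F) :=
    mul_le_mul_of_nonneg_right (by linarith) (by linarith)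
  have h2 : (a - ε) * (m - ε * m) ≤ (a - t) * τ := by
    have h3 : 0 ≤ m - ε * m := by nlinarith
    exact mul_le_mul (by linarith) hτ h3 (by linarith)
  have h4 : ε * F ≥ 0 := by
    have : 0 ≤ m * (1 - a) := mul_nonneg hm.le (by linarith)
    have : 0 ≤ F := by
      have h5 : 0 < δ := by nlinarith
      linarith
    exact mul_nonneg hε0.le this
  have h6 : a * (ε * m) ≤ ε * m := by
    have : 0 ≤ ε * m := by positivity
    nlinarith
  have h7 : 0 < ε * m := by positivity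
  have h8 : 0 ≤ ε * (ε * m) := by positivity
  have e1 : (1 + ε) * (m - F) = (m - F) + ε * m - ε * F := by ring
  have e2 : (a - ε) * (m - ε * m) = m * a - a * (ε * m) - ε * m + ε * (ε * m) := by ring
  have e3 : m * (1 - a) = m - m * a := by ring
  rw [e3] at hδ
  linarith

theorem lemG {f : E → ℝ} (H : EF SQ f) (h1 : f (1, 1) = 0) (h2 : f (1, -1) = 0)
    (hb : ∃ t : ℝ, |t| < 1 ∧ f (1, t) ≠ f 0 * (1 - |t|)) :
    ∃ τ₀ : ℝ, 0 < τ₀ ∧ τ₀ < f 0 ∧ ∀ τ : ℝ, τ₀ ≤ τ → τ < f 0 → ∀ t : ℝ, |t| < 1 →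
      UP SQ f (1, t) (-1, -1) (-τ) ∨ UP SQ f (1, t) (-1, 1) (-τ) := by
  have hconc := H.fconc
  have hm := H.pos
  have hmem : ∀ t : ℝ, |t| < 1 → ((1, t) : E) ∈ SQ := by
    intro t ht
    obtain ⟨q1, q2⟩ := abs_lt.1 ht
    exact r5_mem.2 ⟨⟨by norm_num, le_refl _⟩, q1.le, q2.le⟩
  have h00 : ((1, 0) : E) ∈ SQ := hmem 0 (by simp)
  have h10 : f (1, 0) ≤ f 0 := H.le0 h00
  rcases h10.lt_or_eq with hlt | heq
  · -- the maximum is not attained in the middle of the side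
    have hn : 0 ≤ f (1, 0) := H.f0 _ h00
    refine ⟨(max (2 * f (1, 0) - f 0) 0 + f 0) / 2, ?_, ?_, ?_⟩
    · have := le_max_right (2 * f (1, 0) - f 0) 0
      linarith
    · have : max (2 * f (1, 0) - f 0) 0 < f 0 := max_lt (by linarith) hm
      linarith
    intro τ hτ0 hτ t ht
    have hx : max (2 * f (1, 0) - f 0) 0 < f 0 := max_lt (by linarith) hm
    have hx1 := le_max_left (2 * f (1, 0) - f 0) 0
    have hx2 := le_max_right (2 * f (1, 0) - f 0) 0
    have hτ1 : 2 * f (1, 0) - f 0 < τ := by linarith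
    obtain ⟨ht1, ht2⟩ := abs_lt.1 ht
    rcases le_total 0 t with h0 | h0
    · left
      apply r5_key1 hconc h2 hm ht1 ht2
      have h3 := r5_up1 hconc h2 h0 ht2.le
      have h4 : (1 + t) * (2 * f (1, 0)) < (1 + t) * (f 0 + τ) :=
        mul_lt_mul_of_pos_left (by linarith) (by linarith)
      linarith
    · right
      apply r5_key2 hconc h1 hm ht1 ht2
      have h3 := r5_up2 hconc h1 ht1.le h0
      have h4 : (1 - t) * (2 * f (1, 0)) < (1 - t) * (f 0 + τ) :=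
        mul_lt_mul_of_pos_left (by linarith) (by linarith)
      linarith
  · -- the maximum is attained in the middle of the side
    obtain ⟨b, hb1, hb2⟩ := hb
    have hlow := r5_low hconc h1 h2 heq hb1.le
    have hb3 : f 0 * (1 - |b|) < f (1, b) := lt_of_le_of_ne hlow (Ne.symm hb2)
    have hb5 : b ≠ 0 := by
      rintro rfl
      rw [heq] at hb2
      simp at hb2
    have hfb : f (1, b) ≤ f 0 := H.le0 (hmem b hb1)
    have habs : 0 < |b| := abs_pos.2 hb5
    obtain ⟨δ, hδ⟩ : ∃ δ : ℝ, δ = f (1, b) - f 0 * (1 - |b|) := ⟨_, rfl⟩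
    have hδ0 : 0 < δ := by rw [hδ]; linarith
    obtain ⟨ε, hε⟩ : ∃ ε : ℝ, ε = min (|b| / 2) (δ / (8 * f 0)) := ⟨_, rfl⟩
    have hε0 : 0 < ε := by rw [hε]; positivity
    have hε1 : ε ≤ |b| / 2 := by rw [hε]; exact min_le_left _ _
    have hε2 : ε * f 0 ≤ δ / 8 := by
      have h3 : ε ≤ δ / (8 * f 0) := by rw [hε]; exact min_le_right _ _
      rw [le_div_iff₀ (by positivity)] at h3
      linarith
    have hε3 : ε < 1 := by linarith
    have hεm : ε * f 0 < 1 * f 0 := mul_lt_mul_of_pos_right hε3 hm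
    have hεp : 0 < ε * f 0 := by positivity
    refine ⟨f 0 - ε * f 0, by linarith, by linarith, ?_⟩
    intro τ hτ0 hτ t ht
    obtain ⟨ht1, ht2⟩ := abs_lt.1 ht
    have hfm : f (1, t) ≤ f 0 := H.le0 (hmem t ht)
    -- `f 0 < (1 + ε)(f 0 + τ)/2`
    have hlong : f 0 < (1 + ε) * (f 0 + τ) / 2 := by
      have h4 : (1 + ε) * (f 0 + (f 0 - ε * f 0)) ≤ (1 + ε) * (f 0 + τ) :=
        mul_le_mul_of_nonneg_left (by linarith) (by linarith)
      have h5 : (1 + ε) * (f 0 + (f 0 - ε * f 0)) = 2 * f 0 + ε * f 0 * (1 - ε) := by ring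
      have h6 : 0 < ε * f 0 * (1 - ε) := mul_pos hεp (by linarith)
      linarith
    have hsum : 0 ≤ f 0 + τ := by linarith
    rcases le_or_gt ε t with h3 | h3
    · left
      apply r5_key1 hconc h2 hm ht1 ht2
      have h4 : (1 + ε) * (f 0 + τ) ≤ (1 + t) * (f 0 + τ) :=
        mul_le_mul_of_nonneg_right (by linarith) hsum
      linarith
    rcases le_or_gt t (-ε) with h4 | h4
    · right
      apply r5_key2 hconc h1 hm ht1 ht2
      have h4 : (1 + ε) * (f 0 + τ) ≤ (1 - t) * (f 0 + τ) :=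
        mul_le_mul_of_nonneg_right (by linarith) hsum
      linarith
    rcases lt_or_gt_of_ne hb5 with hneg | hpos
    · left
      have e1 : |b| = -b := abs_of_neg hneg
      rw [e1] at hδ hε1 hb1
      have e2 : ((1 : ℝ), b) = (1, - -b) := by rw [neg_neg]
      apply r5_near2 hconc (a := -b) (by linarith) (by linarith) ht2 (by linarith) hfm
      rw [neg_neg]
      have := r5_arith (a := -b) (t := -t) (τ := τ) (m := f 0) (F := f (1, b)) (by linarith)
        (by linarith) hm hδ hfb hε0 hε1 hε2 (by linarith) (by linarith) hτ0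
      have e4 : (1 - t) * (f 0 - f (1, b)) = (1 + -t) * (f 0 - f (1, b)) := by ring
      have e5 : (-b + t) * τ = (-b - -t) * τ := by ring
      rw [e4, e5]
      exact this
    · right
      have e1 : |b| = b := abs_of_pos hpos
      rw [e1] at hδ hε1 hb1
      apply r5_near1 hconc hpos hb1 ht1 (by linarith) hfm
      exact r5_arith hpos hb1 hm hδ hfb hε0 hε1 hε2 h4 h3 hτ0

end Pool.Agent.Lib.MP_5e7226_co.CM
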