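import Pool.Agent.Lib.MP_5e7226_co.CM.Lin
import Pool.Agent.Lib.MP_5e7226_co.CM.LemG
import Pool.Agent.Lib.MP_5e7226_co.CM.Asm

/-! Row R8. Neither `s = 1` nor `t = -1` is a full rhombus: `a i = (-v i, τ)`. -/

set_option autoImplicit false

open Set Filter Topology

namespace Pool.Agent.Lib.MP_5e7226_co.CM

open PS

/-- `UP` under the swap `(s, t) ↦ (-t, -s)` -/
theorem r8_up {f : E → ℝ} {x v : E} {w : ℝ}
    (h : UP SQ (fun x => f (-x.2, -x.1)) x v w) :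
    UP SQ f (-x.2, -x.1) (-v.2, -v.1) w := by
  obtain ⟨t, ht, hm, hlt⟩ := h
  have e : ((-x.2, -x.1) : E) + t • ((-v.2, -v.1) : E) =
      (-(x + t • v).2, -(x + t • v).1) := by
    ext <;> simp <;> ring
  refine ⟨t, ht, ?_, ?_⟩
  · rw [e]
    exact ⟨by simpa only [abs_neg] using hm.2, by simpa only [abs_neg] using hm.1⟩
  · rw [e]
    exact hlt

/-- `lemG` for the side `t = -1`, by the swap `(s, t) ↦ (-t, -s)` -/
theorem lemG4 {f : E → ℝ} (H : EF SQ f) (h1 : f (1, 1) = 0) (h2 : f (1, -1) = 0)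
    (hb : ∃ s : ℝ, |s| < 1 ∧ f (s, -1) ≠ f 0 * (1 - |s|)) :
    ∃ τ₀ : ℝ, 0 < τ₀ ∧ τ₀ < f 0 ∧ ∀ τ : ℝ, τ₀ ≤ τ → τ < f 0 → ∀ s : ℝ, |s| < 1 →
      UP SQ f (s, -1) (1, 1) (-τ) ∨ UP SQ f (s, -1) (-1, 1) (-τ) := by
  have h0 : f (-(0 : E).2, -(0 : E).1) = f 0 := by
    congr 1
    ext <;> simp
  have hv : f (-(1 : ℝ), -(1 : ℝ)) = 0 := by
    have h3 := H.even (1, 1) ⟨by norm_num, by norm_num⟩
    rw [h1] at h3
    exact h3
  obtain ⟨s0, hs0, hs1⟩ := hb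
  obtain ⟨τ0, p, q, g⟩ := lemG H.swap hv (by simpa using h2) ⟨-s0, by rwa [abs_neg], by
    simp only [h0, abs_neg, neg_neg]
    exact hs1⟩
  simp only [h0] at q g
  refine ⟨τ0, p, q, fun τ hτ hτ' s hs => ?_⟩
  rcases g τ hτ hτ' (-s) (by rwa [abs_neg]) with u | u
  · have := r8_up u
    simp only [neg_neg] at this
    exact Or.inl this
  · have := r8_up u
    simp only [neg_neg] at this
    exact Or.inr this

/-- `(1, t)` and the two directions `(-1, ±1)` -/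
theorem r8_in1 {t : ℝ} (ht : |t| < 1) : IN SQ (1, t) (-1, -1) ∧ IN SQ (1, t) (-1, 1) := by
  obtain ⟨h1, h2⟩ := abs_lt.1 ht
  refine ⟨IN_SQ (t := (1 + t) / 2) (by linarith) ?_ ?_, IN_SQ (t := (1 - t) / 2) (by linarith) ?_ ?_⟩
  all_goals
    rw [abs_lt]
    constructor <;> simp only [] <;> linarith

/-- `(s, -1)` and the two directions `(±1, 1)` -/
theorem r8_in4 {s : ℝ} (hs : |s| < 1) : IN SQ (s, -1) (1, 1) ∧ IN SQ (s, -1) (-1, 1) := by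
  obtain ⟨h1, h2⟩ := abs_lt.1 hs
  refine ⟨IN_SQ (t := (1 - s) / 2) (by linarith) ?_ ?_, IN_SQ (t := (1 + s) / 2) (by linarith) ?_ ?_⟩
  all_goals
    rw [abs_lt]
    constructor <;> simp only [] <;> linarith

/-- a sign `p` with `p * x < 1` -/
theorem r8_sign {x : ℝ} (hx : |x| ≤ 1) : (1 : ℝ) * x < 1 ∨ (-1 : ℝ) * x < 1 := by
  rcases lt_or_ge (1 * x) 1 with h | h
  · exact Or.inl h
  · exact Or.inr (by linarith)

theorem b3a {f : E → ℝ} (H : EF SQ f) (h1 : f (1, 1) = 0) (h2 : f (1, -1) = 0)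
    (hb1 : ∃ t : ℝ, |t| < 1 ∧ f (1, t) ≠ f 0 * (1 - |t|))
    (hb4 : ∃ s : ℝ, |s| < 1 ∧ f (s, -1) ≠ f 0 * (1 - |s|)) : Good7 SQ f := by
  obtain ⟨τ1, p1, q1, g1⟩ := lemG H h1 h2 hb1
  obtain ⟨τ4, p4, q4, g4⟩ := lemG4 H h1 h2 hb4
  obtain ⟨τ, hτ1, hτ4, hτ0, hτ⟩ : ∃ τ : ℝ, τ1 ≤ τ ∧ τ4 ≤ τ ∧ 0 < τ ∧ τ < f 0 :=
    ⟨max τ1 τ4, le_max_left _ _, le_max_right _ _, lt_max_of_lt_left p1, max_lt q1 q4⟩
  refine asm H h1 h2 ![((-1, -1), τ), ((-1, 1), τ), ((1, 1), τ), ((1, -1), τ)] ?_ ?_ ?_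
  · intro x hx hf
    rcases r8_sign hx.1 with a | a <;> rcases r8_sign hx.2 with b | b
    · exact ⟨2, rimFull H hx hf hτ0.le hτ (Or.inl rfl) (Or.inl rfl) a b⟩
    · exact ⟨3, rimFull H hx hf hτ0.le hτ (Or.inl rfl) (Or.inr rfl) a b⟩
    · exact ⟨1, rimFull H hx hf hτ0.le hτ (Or.inr rfl) (Or.inl rfl) a b⟩
    · exact ⟨0, rimFull H hx hf hτ0.le hτ (Or.inr rfl) (Or.inr rfl) a b⟩
  · intro t ht _
    rcases g1 τ hτ1 hτ t ht with u | u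
    · exact ⟨0, (r8_in1 ht).1, u⟩
    · exact ⟨1, (r8_in1 ht).2, u⟩
  · intro s hs _
    rcases g4 τ hτ4 hτ s hs with u | u
    · exact ⟨2, (r8_in4 hs).1, u⟩
    · exact ⟨1, (r8_in4 hs).2, u⟩

end Pool.Agent.Lib.MP_5e7226_co.CM
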