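import Pool.Agent.Lib.MP_5e7226_co.CM.B3a

/-! Row R9. `s = 1` is a full rhombus, `t = -1` is not. `a 0 = ((s1 - 1, t1 - 1), τ)`,
`f 0 * (1 - t1) < τ < f (s1, t1)`, the others `(-v i, τ')` with `τ'` from `lemG4`. -/

set_option autoImplicit false

open Set Filter Topology

namespace Pool.Agent.Lib.MP_5e7226_co.CM

open PS

theorem r9_axis {f : E → ℝ} (H : EF SQ f)
    (hb1 : ∀ t : ℝ, |t| < 1 → f (1, t) = f 0 * (1 - |t|)) {s : ℝ} (hs : |s| ≤ 1) :
    f (s, 0) = f 0 := by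
  have e1 : f (1, 0) = f 0 := by
    have := hb1 0 (by simp)
    simpa using this
  have m1 : ((1, 0) : E) ∈ SQ := by simp [SQ]
  have m2 : ((-1, 0) : E) ∈ SQ := by simp [SQ]
  have ms : ((s, 0) : E) ∈ SQ := by simp [SQ, hs]
  have e2 : f (-1, 0) = f 0 := by
    have := H.even _ m1
    simpa [e1] using this
  obtain ⟨h1, h2⟩ := abs_le.1 hs
  have h3 := H.fconc.2 m1 m2 (show (0 : ℝ) ≤ (1 + s) / 2 by linarith)
    (show (0 : ℝ) ≤ (1 - s) / 2 by linarith) (by ring)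
  have e3 : ((1 + s) / 2) • ((1, 0) : E) + ((1 - s) / 2) • ((-1, 0) : E) = (s, 0) := by
    ext <;> simp <;> ring
  rw [e3, e1, e2] at h3
  simp only [smul_eq_mul] at h3
  exact le_antisymm (H.le0 ms) (by linarith)

theorem r9_low {f : E → ℝ} (H : EF SQ f)
    (hb1 : ∀ t : ℝ, |t| < 1 → f (1, t) = f 0 * (1 - |t|)) {x : E} (hx : x ∈ SQ) :
    f 0 * (1 - |x.2|) ≤ f x := by
  obtain ⟨s, t⟩ := x
  obtain ⟨hs, ht⟩ := hx
  simp only at hs ht ⊢
  have ms : ((s, 0) : E) ∈ SQ := by simp [SQ, hs]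
  have e0 := r9_axis H hb1 hs
  obtain ⟨h1, h2⟩ := abs_le.1 ht
  rcases le_total 0 t with h3 | h3
  · rw [abs_of_nonneg h3]
    have m1 : ((s, 1) : E) ∈ SQ := by simp [SQ, hs]
    have h4 := H.fconc.2 ms m1 (show (0 : ℝ) ≤ 1 - t by linarith) h3 (by ring)
    have e3 : (1 - t) • ((s, 0) : E) + t • ((s, 1) : E) = (s, t) := by
      ext <;> simp <;> ring
    rw [e3, e0] at h4
    simp only [smul_eq_mul] at h4
    have h5 := mul_nonneg h3 (H.f0 _ m1)
    linarith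
  · rw [abs_of_nonpos h3]
    have m1 : ((s, -1) : E) ∈ SQ := by simp [SQ, hs]
    have h4 := H.fconc.2 ms m1 (show (0 : ℝ) ≤ 1 + t by linarith) (show (0 : ℝ) ≤ -t by linarith)
      (by ring)
    have e3 : (1 + t) • ((s, 0) : E) + (-t) • ((s, -1) : E) = (s, t) := by
      ext <;> simp <;> ring
    rw [e3, e0] at h4
    simp only [smul_eq_mul] at h4
    have h5 := mul_nonneg (show (0 : ℝ) ≤ -t by linarith) (H.f0 _ m1)
    linarith

theorem r9_point {f : E → ℝ} (H : EF SQ f) (h1 : f (1, 1) = 0) (h2 : f (1, -1) = 0)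
    (hb1 : ∀ t : ℝ, |t| < 1 → f (1, t) = f 0 * (1 - |t|))
    (hne : ¬ ∀ x ∈ SQ, f x = f 0 * (1 - |x.2|)) :
    ∃ s t : ℝ, |s| < 1 ∧ 0 < t ∧ t < 1 ∧ f 0 * (1 - t) < f (s, t) := by
  push Not at hne
  obtain ⟨x, hx, hxne⟩ := hne
  have hx1 : f 0 * (1 - |x.2|) < f x := lt_of_le_of_ne (r9_low H hb1 hx) (Ne.symm hxne)
  -- the sides `s = 1`, `s = -1`
  have hside : ∀ t : ℝ, |t| ≤ 1 → f (1, t) = f 0 * (1 - |t|) := by
    intro t ht
    rcases lt_or_eq_of_le ht with h3 | h3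
    · exact hb1 t h3
    · rw [h3]
      rcases (abs_eq zero_le_one).1 h3 with h4 | h4
      · rw [h4, h1]; ring
      · rw [h4, h2]; ring
  obtain ⟨y, hy, hy2, hy1⟩ : ∃ y ∈ SQ, 0 ≤ y.2 ∧ f 0 * (1 - y.2) < f y := by
    rcases le_total 0 x.2 with h3 | h3
    · exact ⟨x, hx, h3, by rwa [abs_of_nonneg h3] at hx1⟩
    · refine ⟨-x, H.neg x hx, by simpa using h3, ?_⟩
      rw [H.even x hx]
      rw [abs_of_nonpos h3] at hx1
      simpa using hx1
  obtain ⟨s, t⟩ := y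
  obtain ⟨hs, ht⟩ := hy
  simp only at hs ht hy2 hy1
  have ms : ((s, 0) : E) ∈ SQ := by simp [SQ, hs]
  have mt : ((s, t) : E) ∈ SQ := ⟨hs, ht⟩
  have e0 := r9_axis H hb1 hs
  have htpos : 0 < t := by
    rcases lt_or_eq_of_le hy2 with h3 | h3
    · exact h3
    · exfalso
      rw [← h3, e0] at hy1
      linarith
  have hs1 : |s| < 1 := by
    rcases lt_or_eq_of_le hs with h3 | h3
    · exact h3
    · exfalso
      rcases (abs_eq zero_le_one).1 h3 with h4 | h4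
      · rw [h4, hside t ht, abs_of_pos htpos] at hy1
        exact lt_irrefl _ hy1
      · rw [h4] at hy1
        have m3 : ((1, -t) : E) ∈ SQ := by
          refine ⟨by simp, ?_⟩
          simpa using ht
        have h5 := H.even _ m3
        have h6 : -((1, -t) : E) = (-1, t) := by ext <;> simp
        rw [h6, hside (-t) (by rwa [abs_neg]), abs_neg, abs_of_pos htpos] at h5
        rw [h5] at hy1
        exact lt_irrefl _ hy1
  refine ⟨s, t / 2, hs1, by linarith, by linarith [(abs_le.1 ht).2], ?_⟩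
  have h4 := H.fconc.2 ms mt (show (0 : ℝ) ≤ 1 / 2 by norm_num) (show (0 : ℝ) ≤ 1 / 2 by norm_num)
    (by norm_num)
  have e3 : (1 / 2 : ℝ) • ((s, 0) : E) + (1 / 2 : ℝ) • ((s, t) : E) = (s, t / 2) := by
    ext <;> simp <;> ring
  rw [e3, e0] at h4
  simp only [smul_eq_mul] at h4
  linarith

theorem b3b {f : E → ℝ} (H : EF SQ f) (h1 : f (1, 1) = 0) (h2 : f (1, -1) = 0)
    (hb1 : ∀ t : ℝ, |t| < 1 → f (1, t) = f 0 * (1 - |t|))
    (hb4 : ∃ s : ℝ, |s| < 1 ∧ f (s, -1) ≠ f 0 * (1 - |s|)) :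
    Good7 SQ f ∨ ∀ x ∈ SQ, f x = f 0 * (1 - |x.2|) := by
  by_cases hne : ∀ x ∈ SQ, f x = f 0 * (1 - |x.2|)
  · exact Or.inr hne
  left
  obtain ⟨s₁, t₁, hs₁, ht0, ht1, hlt⟩ := r9_point H h1 h2 hb1 hne
  obtain ⟨τ₀, hτ0, hτm, hG⟩ := lemG4 H h1 h2 hb4
  have hm := H.pos
  obtain ⟨hs1, hs2⟩ := abs_lt.1 hs₁
  set τ : ℝ := (f 0 * (1 - t₁) + f (s₁, t₁)) / 2 with hτ
  have hτ1 : f 0 * (1 - t₁) < τ := by rw [hτ]; linarith
  have hτ2 : τ < f (s₁, t₁) := by rw [hτ]; linarith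
  have hτ3 : 0 < τ := lt_trans (mul_pos hm (by linarith)) hτ1
  set τ' : ℝ := (τ₀ + f 0) / 2 with hτ'
  have hp1 : τ₀ ≤ τ' := by rw [hτ']; linarith
  have hp2 : τ' < f 0 := by rw [hτ']; linarith
  have hp3 : 0 ≤ τ' := by linarith
  have hmem : ((s₁, t₁) : E) ∈ SQ := ⟨hs₁.le, by simp only; rw [abs_of_pos ht0]; exact ht1.le⟩
  have hland : ((1, 1) : E) + (1 : ℝ) • ((s₁ - 1, t₁ - 1) : E) = (s₁, t₁) := by
    ext <;> simp
  have hfull1 : Full SQ f f (1, 1) (s₁ - 1, t₁ - 1) τ := by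
    refine ⟨IN_SQ one_pos ?_ ?_, ⟨1, one_pos, by rw [hland]; exact hmem, ?_⟩,
      ⟨1, one_pos, by rw [hland]; exact hmem, ?_⟩⟩
    · simpa using hs₁
    · simp only
      rw [show (1 : ℝ) + 1 * (t₁ - 1) = t₁ by ring, abs_of_pos ht0]
      exact ht1
    · rw [hland, h1]; linarith
    · rw [hland, h1]; linarith
  refine asm H h1 h2 ![((s₁ - 1, t₁ - 1), τ), ((-1, 1), τ'), ((1, 1), τ'), ((1, -1), τ')] ?_ ?_ ?_
  · -- rim points
    intro x hx hf
    obtain ⟨ha, hb⟩ := hx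
    obtain ⟨ha1, ha2⟩ := abs_le.1 ha
    obtain ⟨hb1', hb2⟩ := abs_le.1 hb
    rcases lt_or_eq_of_le hb2 with h3 | h3
    · rcases lt_or_eq_of_le ha1 with h4 | h4
      · exact ⟨1, rimFull H ⟨ha, hb⟩ hf hp3 hp2 (Or.inr rfl) (Or.inl rfl) (by linarith)
          (by linarith)⟩
      · exact ⟨2, rimFull H ⟨ha, hb⟩ hf hp3 hp2 (Or.inl rfl) (Or.inl rfl) (by linarith)
          (by linarith)⟩
    · rcases lt_or_eq_of_le ha2 with h4 | h4
      · exact ⟨3, rimFull H ⟨ha, hb⟩ hf hp3 hp2 (Or.inl rfl) (Or.inr rfl) (by linarith)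
          (by linarith)⟩
      · have hx1 : x = (1, 1) := Prod.ext h4 h3
        rw [hx1]
        exact ⟨0, hfull1⟩
  · -- the side `s = 1`
    intro t ht _
    obtain ⟨ht3, ht4⟩ := abs_lt.1 ht
    have hl0 : 0 < (1 + t) / 2 := by linarith
    have hl1 : (1 + t) / 2 < 1 := by linarith
    set l : ℝ := (1 + t) / 2 with hl
    have b1 : |1 + l * (s₁ - 1)| < 1 := by
      rw [abs_lt]
      constructor <;> nlinarith
    have b2 : |t + l * (t₁ - 1)| < 1 := by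
      rw [abs_lt]
      constructor <;> nlinarith
    have hy : ((1, t) : E) + l • ((s₁ - 1, t₁ - 1) : E) =
        (1 + l * (s₁ - 1), t + l * (t₁ - 1)) := by
      ext <;> simp
    have hyS : ((1 + l * (s₁ - 1), t + l * (t₁ - 1)) : E) ∈ SQ := ⟨b1.le, b2.le⟩
    refine ⟨0, IN_SQ hl0 b1 b2, ⟨l, hl0, ?_, ?_⟩⟩
    · change ((1, t) : E) + l • ((s₁ - 1, t₁ - 1) : E) ∈ SQ
      rw [hy]; exact hyS
    · change f (1, t) + l * (-τ) < f (((1, t) : E) + l • ((s₁ - 1, t₁ - 1) : E))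
      rw [hy, hb1 t ht]
      have c1 := r9_low H hb1 hyS
      simp only at c1
      have c2 : |t + l * (t₁ - 1)| ≤ |t| + l * (1 - t₁) := by
        refine (abs_add_le _ _).trans ?_
        rw [abs_mul, abs_of_pos hl0, abs_of_nonpos (show t₁ - 1 ≤ 0 by linarith)]
        linarith
      have c3 : f 0 * (1 - |t| - l * (1 - t₁)) ≤ f 0 * (1 - |t + l * (t₁ - 1)|) :=
        mul_le_mul_of_nonneg_left (by linarith) hm.le
      have c4 : l * (f 0 * (1 - t₁)) < l * τ := mul_lt_mul_of_pos_left hτ1 hl0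
      nlinarith
  · -- the side `t = -1`
    intro s hs _
    obtain ⟨hs3, hs4⟩ := abs_lt.1 hs
    rcases hG τ' hp1 hp2 s hs with h3 | h3
    · refine ⟨2, IN_SQ (t := (1 - s) / 2) (by linarith) ?_ ?_, h3⟩
      · change |s + (1 - s) / 2 * 1| < 1
        rw [abs_lt]; constructor <;> linarith
      · change |(-1 : ℝ) + (1 - s) / 2 * 1| < 1
        rw [abs_lt]; constructor <;> linarith
    · refine ⟨1, IN_SQ (t := (1 + s) / 2) (by linarith) ?_ ?_, h3⟩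
      · change |s + (1 + s) / 2 * (-1)| < 1
        rw [abs_lt]; constructor <;> linarith
      · change |(-1 : ℝ) + (1 + s) / 2 * 1| < 1
        rw [abs_lt]; constructor <;> linarith

end Pool.Agent.Lib.MP_5e7226_co.CM
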