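import Pool.Agent.Lib.MP_5e7226_co.CM.Asm

/-! Row R10. Both `s = 1` and `t = -1` are full rhombi: `a 1 = ((-1, 1 / 2), 5 / 4 * f 0)`, the
others `(-v i, f 0 / 2)`. -/

set_option autoImplicit false

open Set Filter Topology

namespace Pool.Agent.Lib.MP_5e7226_co.CM

open PS

theorem r10_mem {a b : ℝ} (ha : |a| ≤ 1) (hb : |b| ≤ 1) : ((a, b) : E) ∈ SQ := ⟨ha, hb⟩

theorem r10_two {f : E → ℝ} (H : EF SQ f) {a b c d l s t : ℝ} (h1 : ((a, b) : E) ∈ SQ)
    (h2 : ((c, d) : E) ∈ SQ) (hl0 : 0 ≤ l) (hl1 : l ≤ 1) (hs : (1 - l) * a + l * c = s)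
    (ht : (1 - l) * b + l * d = t) : (1 - l) * f (a, b) + l * f (c, d) ≤ f (s, t) := by
  have h := H.fconc.2 h1 h2 (show 0 ≤ 1 - l by linarith) hl0 (by ring)
  have e : (1 - l) • ((a, b) : E) + l • ((c, d) : E) = (s, t) := by
    rw [← hs, ← ht]
    ext <;> simp
  rw [e] at h
  simpa only [smul_eq_mul] using h

theorem r10_even {f : E → ℝ} (H : EF SQ f) {a b : ℝ} (ha : |a| ≤ 1) (hb : |b| ≤ 1) :
    f (-a, -b) = f (a, b) := by
  have h := H.even (a, b) (r10_mem ha hb)
  have e : (-(a, b) : E) = (-a, -b) := by ext <;> simp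
  rwa [e] at h

theorem r10_ax1 {f : E → ℝ} (H : EF SQ f) (h : f (1, 0) = f 0) {s : ℝ} (hs : |s| ≤ 1) :
    f 0 ≤ f (s, 0) := by
  have h' : f (-1, 0) = f 0 := by
    have := r10_even H (a := 1) (b := 0) (by simp) (by simp)
    rw [neg_zero] at this
    rw [this, h]
  rw [abs_le] at hs
  have h2 := r10_two H (a := -1) (b := 0) (c := 1) (d := 0) (l := (1 + s) / 2) (s := s) (t := 0)
    (r10_mem (by simp) (by simp)) (r10_mem (by simp) (by simp)) (by linarith) (by linarith)
    (by ring) (by ring)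
  rw [h, h'] at h2
  linarith

theorem r10_ax2 {f : E → ℝ} (H : EF SQ f) (h : f (0, -1) = f 0) {s : ℝ} (hs : |s| ≤ 1) :
    f 0 ≤ f (0, s) := by
  have h' : f (0, 1) = f 0 := by
    have := r10_even H (a := 0) (b := -1) (by simp) (by simp)
    rw [neg_zero, neg_neg] at this
    rw [this, h]
  rw [abs_le] at hs
  have h2 := r10_two H (a := 0) (b := -1) (c := 0) (d := 1) (l := (1 + s) / 2) (s := 0) (t := s)
    (r10_mem (by simp) (by simp)) (r10_mem (by simp) (by simp)) (by linarith) (by linarith)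
    (by ring) (by ring)
  rw [h, h'] at h2
  linarith

theorem r10_low2 {f : E → ℝ} (H : EF SQ f) (h : f (1, 0) = f 0) {s t : ℝ} (hs : |s| ≤ 1)
    (ht : |t| ≤ 1) : f 0 * (1 - |t|) ≤ f (s, t) := by
  have h1 := r10_ax1 H h hs
  have h0 := H.pos
  rcases le_total 0 t with h3 | h3
  · rw [abs_of_nonneg h3] at ht ⊢
    have h2 := r10_two H (a := s) (b := 0) (c := s) (d := 1) (l := t) (s := s) (t := t)
      (r10_mem hs (by simp)) (r10_mem hs (by simp)) h3 ht (by ring) (by ring)
    have h4 := H.f0 (s, 1) (r10_mem hs (by simp))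
    nlinarith
  · rw [abs_of_nonpos h3] at ht ⊢
    have h2 := r10_two H (a := s) (b := 0) (c := s) (d := -1) (l := -t) (s := s) (t := t)
      (r10_mem hs (by simp)) (r10_mem hs (by simp)) (by linarith) ht (by ring) (by ring)
    have h4 := H.f0 (s, -1) (r10_mem hs (by simp))
    nlinarith

theorem r10_low1 {f : E → ℝ} (H : EF SQ f) (h : f (0, -1) = f 0) {s t : ℝ} (hs : |s| ≤ 1)
    (ht : |t| ≤ 1) : f 0 * (1 - |s|) ≤ f (s, t) := by
  have h1 := r10_ax2 H h ht
  have h0 := H.pos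
  rcases le_total 0 s with h3 | h3
  · rw [abs_of_nonneg h3] at hs ⊢
    have h2 := r10_two H (a := 0) (b := t) (c := 1) (d := t) (l := s) (s := s) (t := t)
      (r10_mem (by simp) ht) (r10_mem (by simp) ht) h3 hs (by ring) (by ring)
    have h4 := H.f0 (1, t) (r10_mem (by simp) ht)
    nlinarith
  · rw [abs_of_nonpos h3] at hs ⊢
    have h2 := r10_two H (a := 0) (b := t) (c := -1) (d := t) (l := -s) (s := s) (t := t)
      (r10_mem (by simp) ht) (r10_mem (by simp) ht) (by linarith) hs (by ring) (by ring)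
    have h4 := H.f0 (-1, t) (r10_mem (by simp) ht)
    nlinarith

theorem b3d {f : E → ℝ} (H : EF SQ f) (h1 : f (1, 1) = 0) (h2 : f (1, -1) = 0)
    (hb1 : ∀ t : ℝ, |t| < 1 → f (1, t) = f 0 * (1 - |t|))
    (hb4 : ∀ s : ℝ, |s| < 1 → f (s, -1) = f 0 * (1 - |s|)) : Good7 SQ f := by
  have hm := H.pos
  have e1 : f (1, 0) = f 0 := by
    rw [hb1 0 (by simp)]; simp
  have e2 : f (0, -1) = f 0 := by
    rw [hb4 0 (by simp)]; simp
  refine asm H h1 h2 ![((-1, -1), f 0 / 2), ((-1, 1 / 2), 5 / 4 * f 0), ((1, 1), f 0 / 2),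
    ((1, -1), f 0 / 2)] ?_ ?_ ?_
  · rintro ⟨s, t⟩ hx hf
    have hs : |s| ≤ 1 := hx.1
    have ht : |t| ≤ 1 := hx.2
    have ls : f 0 * (1 - |s|) ≤ 0 := by rw [← hf]; exact r10_low1 H e2 hs ht
    have lt : f 0 * (1 - |t|) ≤ 0 := by rw [← hf]; exact r10_low2 H e1 hs ht
    have hs1 : |s| = 1 := by
      apply le_antisymm hs
      nlinarith
    have ht1 : |t| = 1 := by
      apply le_antisymm ht
      nlinarith
    rcases abs_eq (zero_le_one' ℝ) |>.1 hs1 with rfl | rfl <;>
    rcases abs_eq (zero_le_one' ℝ) |>.1 ht1 with rfl | rfl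
    · exact ⟨0, rimFull H hx hf (τ := f 0 / 2) (by linarith) (by linarith) (Or.inr rfl) (Or.inr rfl)
        (by norm_num) (by norm_num)⟩
    · refine ⟨1, ?_⟩
      show Full SQ f f (1, -1) (-1, 1 / 2) (5 / 4 * f 0)
      have h5 : f 0 * (3 / 4) ≤ f (1 / 2, -3 / 4) := by
        have h6 := r10_two H (a := 1) (b := -1) (c := 1) (d := 0) (l := 1 / 2) (s := 1)
          (t := -1 / 2) (r10_mem (by simp) (by simp)) (r10_mem (by simp) (by simp)) (by norm_num)
          (by norm_num) (by norm_num) (by norm_num)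
        have h7 := r10_two H (a := 1) (b := -1 / 2) (c := 0) (d := -1) (l := 1 / 2) (s := 1 / 2)
          (t := -3 / 4) (r10_mem (by simp) (by rw [abs_le]; norm_num))
          (r10_mem (by simp) (by simp)) (by norm_num) (by norm_num) (by norm_num) (by norm_num)
        rw [h2, e1] at h6
        rw [e2] at h7
        linarith
      have e3 : ((1, -1) : E) + (1 / 2 : ℝ) • ((-1, 1 / 2) : E) = (1 / 2, -3 / 4) := by
        ext <;> simp <;> norm_num
      refine ⟨IN_SQ (t := 1 / 2) (by norm_num) (by rw [abs_lt]; norm_num)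
        (by rw [abs_lt]; norm_num), ⟨1 / 2, by norm_num, ?_, ?_⟩, ⟨1 / 2, by norm_num, ?_, ?_⟩⟩
      · rw [e3]; exact r10_mem (by rw [abs_le]; norm_num) (by rw [abs_le]; norm_num)
      · rw [e3, h2]; linarith
      · rw [e3]; exact r10_mem (by rw [abs_le]; norm_num) (by rw [abs_le]; norm_num)
      · rw [e3, h2]; linarith
    · exact ⟨3, rimFull H hx hf (τ := f 0 / 2) (by linarith) (by linarith) (Or.inl rfl) (Or.inr rfl)
        (by norm_num) (by norm_num)⟩
    · exact ⟨2, rimFull H hx hf (τ := f 0 / 2) (by linarith) (by linarith) (Or.inl rfl) (Or.inl rfl)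
        (by norm_num) (by norm_num)⟩
  · intro t ht _
    refine ⟨1, ?_, ?_⟩
    · show IN SQ (1, t) (-1, 1 / 2)
      rw [abs_lt] at ht
      refine IN_SQ (t := (1 - t) / 2) (by linarith) ?_ ?_
      · show |1 + (1 - t) / 2 * -1| < 1
        rw [abs_lt]; constructor <;> linarith
      · show |t + (1 - t) / 2 * (1 / 2)| < 1
        rw [abs_lt]; constructor <;> linarith
    · show UP SQ f (1, t) (-1, 1 / 2) (-(5 / 4 * f 0))
      have ht' := ht
      rw [abs_lt] at ht'
      have e3 : ((1, t) : E) + ((1 - t) / 2) • ((-1, 1 / 2) : E) =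
          (1 - (1 - t) / 2, t + (1 - t) / 4) := by
        ext <;> simp <;> ring
      have hA : |1 - (1 - t) / 2| ≤ 1 := by rw [abs_le]; constructor <;> linarith
      have hB : |t + (1 - t) / 4| ≤ 1 := by rw [abs_le]; constructor <;> linarith
      refine ⟨(1 - t) / 2, by linarith, by rw [e3]; exact r10_mem hA hB, ?_⟩
      rw [e3, hb1 t ht]
      have h5 := r10_low2 H e1 hA hB
      have h6 : |t + (1 - t) / 4| ≤ |t| + (1 - t) / 4 := by
        have := abs_add_le t ((1 - t) / 4)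
        rwa [abs_of_nonneg (show 0 ≤ (1 - t) / 4 by linarith)] at this
      have h7 : f 0 * |t + (1 - t) / 4| ≤ f 0 * (|t| + (1 - t) / 4) :=
        mul_le_mul_of_nonneg_left h6 hm.le
      have h8 : 0 < f 0 * (1 - t) := mul_pos hm (by linarith)
      nlinarith
  · intro s hs _
    refine ⟨1, ?_, ?_⟩
    · show IN SQ (s, -1) (-1, 1 / 2)
      rw [abs_lt] at hs
      refine IN_SQ (t := (1 + s) / 2) (by linarith) ?_ ?_
      · show |s + (1 + s) / 2 * -1| < 1
        rw [abs_lt]; constructor <;> linarith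
      · show |-1 + (1 + s) / 2 * (1 / 2)| < 1
        rw [abs_lt]; constructor <;> linarith
    · show UP SQ f (s, -1) (-1, 1 / 2) (-(5 / 4 * f 0))
      have hs' := hs
      rw [abs_lt] at hs'
      have e3 : ((s, -1) : E) + ((1 + s) / 2) • ((-1, 1 / 2) : E) =
          (s - (1 + s) / 2, -1 + (1 + s) / 4) := by
        ext <;> simp <;> ring
      have hA : |s - (1 + s) / 2| ≤ 1 := by rw [abs_le]; constructor <;> linarith
      have hB : |-1 + (1 + s) / 4| ≤ 1 := by rw [abs_le]; constructor <;> linarith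
      refine ⟨(1 + s) / 2, by linarith, by rw [e3]; exact r10_mem hA hB, ?_⟩
      rw [e3, hb4 s hs]
      have h5 := r10_low1 H e2 hA hB
      have h6 : |s - (1 + s) / 2| ≤ |s| + (1 + s) / 2 := by
        have := abs_sub s ((1 + s) / 2)
        rwa [abs_of_nonneg (show 0 ≤ (1 + s) / 2 by linarith)] at this
      have h7 : f 0 * |s - (1 + s) / 2| ≤ f 0 * (|s| + (1 + s) / 2) :=
        mul_le_mul_of_nonneg_left h6 hm.le
      have h8 : 0 < f 0 * (1 + s) := mul_pos hm (by linarith)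
      nlinarith

end Pool.Agent.Lib.MP_5e7226_co.CM
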