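import Pool.Agent.Lib.MP_5e7226_co.CM.Body1

/-! Row R12, part 2: seven directions for the functions give seven directions for the body. -/

set_option autoImplicit false

open Set Filter Topology

namespace Pool.Agent.Lib.MP_5e7226_co.CM

open PS RT

lemma b2_pr_add (n x y : Q3) : pr n (x + y) = pr n x + pr n y := by
  simp only [pr, dotC, Prod.fst_add, Prod.snd_add, Complex.add_re, Complex.add_im]
  ring

lemma b2_pr_smul (c : ℝ) (n x : Q3) : pr n (c • x) = c * pr n x := by
  simp only [pr, dotC, Prod.smul_fst, Prod.smul_snd, Complex.smul_re, Complex.smul_im, smul_eq_mul]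
  ring

lemma b2_pr_self_pos {n : Q3} (h : n ≠ 0) : 0 < pr n n := by
  by_contra hc
  push Not at hc
  apply h
  simp only [pr, dotC] at hc
  have h1 : n.1.re = 0 := by nlinarith [sq_nonneg n.1.re, sq_nonneg n.1.im, sq_nonneg n.2]
  have h2 : n.1.im = 0 := by nlinarith [sq_nonneg n.1.re, sq_nonneg n.1.im, sq_nonneg n.2]
  have h3 : n.2 = 0 := by nlinarith [sq_nonneg n.1.re, sq_nonneg n.1.im, sq_nonneg n.2]
  exact Prod.ext (Complex.ext h1 h2) h3

/-- strictly below the supporting plane in the interior -/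
lemma b2_strict {K : Set Q3} {x y n : Q3} (hn : Nm K x n) (hy : y ∈ interior K) :
    pr n y < pr n x := by
  have hcont : Continuous fun s : ℝ => y + s • n := by fun_prop
  have hev : ∀ᶠ s : ℝ in 𝓝 0, y + s • n ∈ interior K := by
    apply hcont.continuousAt.eventually_mem
    rw [zero_smul, add_zero]
    exact isOpen_interior.mem_nhds hy
  rw [Metric.eventually_nhds_iff] at hev
  obtain ⟨r, hr, hr'⟩ := hev
  have h1 := hr' (y := r / 2) (by rw [Real.dist_eq, sub_zero, abs_of_pos (by positivity)]; linarith)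
  have h2 := hn.2 _ (interior_subset h1)
  rw [b2_pr_add, b2_pr_smul] at h2
  have h3 := mul_pos (show (0 : ℝ) < r / 2 by positivity) (b2_pr_self_pos hn.1)
  linarith

/-- Body2 -/
theorem body2 {K : Set Q3} (hK : CB K) (h : Good7 (Prod.fst '' LE K) (top (LE K))) :
    Served K 7 := by
  classical
  obtain ⟨hk, hc, hi, hs, hb, H⟩ := body1 hK
  have hill : Illum (LE K) 7 := by
    obtain ⟨D, hD7, hD⟩ := h
    refine Illum.of_finset D.toFinset ((List.toFinset_card_le D).trans hD7) ?_
    rintro ⟨x, z⟩ hP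
    have hx : x ∈ Prod.fst '' LE K := ⟨_, hP, rfl⟩
    rcases hD x hx with ⟨d, hd, hfull⟩ | ⟨hpos, ⟨d, hd, hin, hup⟩, ⟨d', hd', hin', hup'⟩⟩
    · refine ⟨d, List.mem_toFinset.2 hd, lit_of_full hc hk hi hs ?_ hP⟩
      rw [hb]
      exact hfull
    · by_cases hz : -bot (LE K) x < z
      · exact ⟨d, List.mem_toFinset.2 hd, lit_of_up hc hk hi hs hin hup hP hz⟩
      · refine ⟨d', List.mem_toFinset.2 hd', lit_of_up' hc hk hi hs hin' ?_ hP ?_⟩
        · rw [hb]
          exact hup'
        · push Not at hz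
          rw [hb] at hz
          linarith
  obtain ⟨d, hd⟩ := hill
  refine ⟨fun i => -(b1_T.symm (d i)), fun x hx => ?_⟩
  obtain ⟨i, t, ht, hi'⟩ := hd (b1_T x) (by rw [b1_img]; exact ⟨x, hx, rfl⟩)
  refine ⟨i, fun n hn => ?_⟩
  rw [b1_int, mem_preimage, map_add, map_smul, ContinuousLinearEquiv.symm_apply_apply] at hi'
  have h1 := b2_strict hn hi'
  rw [b2_pr_add, b2_pr_smul] at h1
  have h2 : pr n (-(b1_T.symm (d i))) = -pr n (b1_T.symm (d i)) := by
    have := b2_pr_smul (-1) n (b1_T.symm (d i))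
    rwa [neg_one_smul, neg_one_mul] at this
  rw [h2]
  have h3 : t * pr n (b1_T.symm (d i)) < 0 := by linarith
  have h4 : pr n (b1_T.symm (d i)) < 0 := by
    by_contra hc'
    push Not at hc'
    have := mul_nonneg ht.le hc'
    linarith
  linarith

end Pool.Agent.Lib.MP_5e7226_co.CM
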