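import Pool.Agent.Lib.MP_5e7226_co.CM.Body1

/-! Row R12, part 3: over a parallelogram, with the flat top or the roof, the body is a
parallelepiped. -/

set_option autoImplicit false

open Set Filter Topology

namespace Pool.Agent.Lib.MP_5e7226_co.CM

open PS RT

/-- the point of `Q3` -/
noncomputable def bd3_P (q : E) (z : ℝ) : Q3 := ((⟨q.1, q.2⟩ : ℂ), z)

lemma bd3_LE {K : Set Q3} {q : E} {z : ℝ} : (q, z) ∈ LE K ↔ bd3_P q z ∈ K := Iff.rfl

lemma bd3_compact {K : Set Q3} (hK : CB K) : IsCompact (LE K) := by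
  have h1 : LE K = (fun x : Q3 => (((x.1.re, x.1.im) : E), x.2)) '' K := by
    ext q
    constructor
    · intro hq
      exact ⟨_, hq, rfl⟩
    · rintro ⟨x, hx, rfl⟩
      exact hx
  rw [h1]
  apply hK.comp.image
  exact ((Complex.continuous_re.comp continuous_fst).prodMk
    (Complex.continuous_im.comp continuous_fst)).prodMk continuous_snd

/-- the body is given by its top function -/
lemma bd3_mem {K : Set Q3} (hK : CB K) (q : E) (z : ℝ) :
    bd3_P q z ∈ K ↔ q ∈ Prod.fst '' LE K ∧ |z| ≤ top (LE K) q := by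
  have hc := bd3_compact hK
  constructor
  · intro h
    have h1 : (q, z) ∈ LE K := h
    have h2 : (q, -z) ∈ LE K := hK.mir _ h
    exact ⟨⟨(q, z), h1, rfl⟩, abs_le'.2 ⟨le_top hc h1, le_top hc h2⟩⟩
  · rintro ⟨hq, hz⟩
    have h1 : bd3_P q (top (LE K) q) ∈ K := top_mem hc hq
    have h2 : bd3_P q (-(top (LE K) q)) ∈ K := hK.mir _ h1
    rcases eq_or_lt_of_le (le_trans (abs_nonneg z) hz) with h0 | h0
    · have h3 : z = 0 := by
        have := abs_nonneg z
        rw [← h0] at hz
        exact abs_eq_zero.1 (le_antisymm hz this)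
      rw [h3, h0]
      exact h1
    · set T := top (LE K) q with hT
      have h3 := abs_le.1 hz
      have h4 := hK.conv h1 h2 (show 0 ≤ (T + z) / (2 * T) by
        apply div_nonneg <;> linarith) (show 0 ≤ (T - z) / (2 * T) by
        apply div_nonneg <;> linarith) (by field_simp; ring)
      have h5 : ((T + z) / (2 * T)) • bd3_P q T + ((T - z) / (2 * T)) • bd3_P q (-T) = bd3_P q z := by
        have e1 : (T + z) / (2 * T) + (T - z) / (2 * T) = 1 := by field_simp; ring
        have e2 : (T + z) / (2 * T) * T + (T - z) / (2 * T) * (-T) = z := by field_simp; ring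
        apply Prod.ext
        · apply Complex.ext
          · show ((((T + z) / (2 * T)) • (⟨q.1, q.2⟩ : ℂ) + ((T - z) / (2 * T)) • (⟨q.1, q.2⟩ : ℂ))).re = q.1
            rw [← add_smul, e1, one_smul]
          · show ((((T + z) / (2 * T)) • (⟨q.1, q.2⟩ : ℂ) + ((T - z) / (2 * T)) • (⟨q.1, q.2⟩ : ℂ))).im = q.2
            rw [← add_smul, e1, one_smul]
        · exact e2
      rwa [h5] at h4

lemma bd3_pos {K : Set Q3} (hK : CB K) : 0 < top (LE K) 0 := by
  have h1 : Tendsto (fun e : ℝ => bd3_P 0 e) (𝓝 0) (𝓝 (bd3_P 0 0)) := by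
    apply Continuous.tendsto
    unfold bd3_P
    fun_prop
  have h0 : bd3_P 0 0 = 0 := by
    apply Prod.ext
    · apply Complex.ext <;> rfl
    · rfl
  rw [h0] at h1
  have h2 := h1 (mem_interior_iff_mem_nhds.1 hK.zero)
  have h3 : ∀ᶠ e in 𝓝[>] (0 : ℝ), bd3_P 0 e ∈ K := (nhdsWithin_le_nhds h2)
  obtain ⟨e, he, he0⟩ := (h3.and self_mem_nhdsWithin).exists
  exact lt_of_lt_of_le he0 (le_top (bd3_compact hK) he)

/-- independence -/
lemma bd3_indep {v w : E} (h : LinearIndependent ℝ ![v, w]) {a b : ℝ} (h0 : a • v + b • w = 0) :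
    a = 0 ∧ b = 0 := by
  rw [LinearIndependent.pair_iff] at h
  exact h a b h0

lemma bd3_indep3 {v w : E} (h : LinearIndependent ℝ ![v, w]) {α β p q : ℝ} (hpq : α * q - β * p ≠ 0) :
    LinearIndependent ℝ ![bd3_P v 0, bd3_P (α • w) p, bd3_P (β • w) q] := by
  rw [Fintype.linearIndependent_iff]
  intro g hg
  rw [Fin.sum_univ_three] at hg
  simp only [Matrix.cons_val_zero, Matrix.cons_val_one, Matrix.cons_val] at hg
  have h1 : (g 0) * v.1 + (g 1) * (α * w.1) + g 2 * (β * w.1) = 0 := by
    have := congrArg (fun x : Q3 => x.1.re) hg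
    simpa [bd3_P] using this
  have h2 : (g 0) * v.2 + (g 1) * (α * w.2) + g 2 * (β * w.2) = 0 := by
    have := congrArg (fun x : Q3 => x.1.im) hg
    simpa [bd3_P] using this
  have h3 : g 1 * p + g 2 * q = 0 := by
    have := congrArg (fun x : Q3 => x.2) hg
    simpa [bd3_P] using this
  obtain ⟨h4, h5⟩ := bd3_indep h (a := g 0) (b := g 1 * α + g 2 * β) (by
    apply Prod.ext
    · show g 0 * v.1 + (g 1 * α + g 2 * β) * w.1 = 0
      linarith
    · show g 0 * v.2 + (g 1 * α + g 2 * β) * w.2 = 0
      linarith)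
  have h6 : g 1 * (α * q - β * p) = 0 := by linear_combination q * h5 - β * h3
  have h7 : g 2 * (α * q - β * p) = 0 := by linear_combination α * h3 - p * h5
  intro i
  fin_cases i
  · exact h4
  · exact (mul_eq_zero.1 h6).resolve_right hpq
  · exact (mul_eq_zero.1 h7).resolve_right hpq

/-- Body3 -/
theorem body3 {K : Set Q3} (hK : CB K) (h : ParF (Prod.fst '' LE K) (top (LE K))) : Par K := by
  obtain ⟨v, w, hi, hB, hf⟩ := h
  have h0 := bd3_pos hK
  set H := top (LE K) 0 with hH
  rcases hf with hf | hf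
  · refine ⟨0, bd3_P v 0, bd3_P ((1 : ℝ) • w) 0, bd3_P ((0 : ℝ) • w) H, ?_, ?_⟩
    · apply bd3_indep3 hi
      simpa using h0.ne'
    · ext x
      have hx : x = bd3_P (x.1.re, x.1.im) x.2 := rfl
      constructor
      · intro hxK
        rw [hx, bd3_mem hK, hB] at hxK
        obtain ⟨⟨s, t, hs, ht, he⟩, hz⟩ := hxK
        rw [he, hf s t hs ht] at hz
        refine ⟨s, t, x.2 / H, hs, ht, ?_, ?_⟩
        · rw [abs_div, abs_of_pos h0]
          exact (div_le_one h0).2 hz
        · have e1 : x.1.re = s * v.1 + t * w.1 := congrArg Prod.fst he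
          have e2 : x.1.im = s * v.2 + t * w.2 := congrArg Prod.snd he
          apply Prod.ext
          · apply Complex.ext
            · simp [bd3_P, e1]
            · simp [bd3_P, e2]
          · simp [bd3_P, h0.ne']
      · rintro ⟨s, t, r, hs, ht, hr, rfl⟩
        have e : (0 : Q3) + s • bd3_P v 0 + t • bd3_P ((1 : ℝ) • w) 0 + r • bd3_P ((0 : ℝ) • w) H =
            bd3_P (s • v + t • w) (r * H) := by
          apply Prod.ext
          · apply Complex.ext
            · simp [bd3_P]
            · simp [bd3_P]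
          · simp [bd3_P]
        rw [e, bd3_mem hK, hB]
        refine ⟨⟨s, t, hs, ht, rfl⟩, ?_⟩
        rw [hf s t hs ht, abs_mul, abs_of_pos h0]
        nlinarith
  · refine ⟨0, bd3_P v 0, bd3_P ((1 / 2 : ℝ) • w) (H / 2), bd3_P ((1 / 2 : ℝ) • w) (-(H / 2)), ?_, ?_⟩
    · apply bd3_indep3 hi
      intro h1
      apply h0.ne'
      linarith
    · ext x
      have hx : x = bd3_P (x.1.re, x.1.im) x.2 := rfl
      constructor
      · intro hxK
        rw [hx, bd3_mem hK, hB] at hxK
        obtain ⟨⟨s, t, hs, ht, he⟩, hz⟩ := hxK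
        rw [he, hf s t hs ht] at hz
        have hz' : |t| + |x.2 / H| ≤ 1 := by
          rw [abs_div, abs_of_pos h0]
          have : |x.2| / H ≤ 1 - |t| := by
            rw [div_le_iff₀ h0]
            linarith
          linarith
        refine ⟨s, t + x.2 / H, t - x.2 / H, hs, ?_, ?_, ?_⟩
        · exact (abs_add_le _ _).trans hz'
        · exact (abs_sub _ _).trans hz'
        · have e1 : x.1.re = s * v.1 + t * w.1 := congrArg Prod.fst he
          have e2 : x.1.im = s * v.2 + t * w.2 := congrArg Prod.snd he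
          apply Prod.ext
          · apply Complex.ext
            · simp [bd3_P, e1]; ring
            · simp [bd3_P, e2]; ring
          · simp [bd3_P]; field_simp; ring
      · rintro ⟨s, a, b, hs, ha, hb, rfl⟩
        have e : (0 : Q3) + s • bd3_P v 0 + a • bd3_P ((1 / 2 : ℝ) • w) (H / 2) +
            b • bd3_P ((1 / 2 : ℝ) • w) (-(H / 2)) =
            bd3_P (s • v + ((a + b) / 2) • w) ((a - b) / 2 * H) := by
          apply Prod.ext
          · apply Complex.ext
            · simp [bd3_P]; ring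
            · simp [bd3_P]; ring
          · simp [bd3_P]; ring
        have h1 := abs_le.1 ha
        have h2 := abs_le.1 hb
        have h3 : |(a + b) / 2| + |(a - b) / 2| ≤ 1 := by
          rcases abs_cases ((a + b) / 2) with h | h <;> rcases abs_cases ((a - b) / 2) with h' | h' <;>
            linarith [h.1, h'.1]
        have h4 : |(a + b) / 2| ≤ 1 := by linarith [abs_nonneg ((a - b) / 2)]
        rw [e, bd3_mem hK, hB]
        refine ⟨⟨s, (a + b) / 2, hs, h4, rfl⟩, ?_⟩
        rw [hf s _ hs h4, abs_mul, abs_of_pos h0]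
        nlinarith

end Pool.Agent.Lib.MP_5e7226_co.CM
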