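import Pool.Agent.Lib.MP_5e7226_co.CM.Body1
import Pool.Agent.Lib.MP_5e7226_co.CM.Body2
import Pool.Agent.Lib.MP_5e7226_co.CM.Body3
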