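import Pool.Agent.Lib.MP_5e7226_co.CM.Main7
import Pool.Agent.Lib.MP_5e7226_co.CM.BodyParts

set_option autoImplicit false

open Set Filter Topology

namespace Pool.Agent.Lib.MP_5e7226_co.CM

open PS RT

theorem core7 {K : Set Q3} (hK : CB K) : Served K 7 ∨ Par K := by
  rcases main7 (body1 hK).2.2.2.2.2 with h | h
  · exact Or.inl (body2 hK h)
  · exact Or.inr (body3 hK h)

end Pool.Agent.Lib.MP_5e7226_co.CM
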