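import Pool.Agent.Lib.MP_5e7226_co.CM.Defs
import Pool.Agent.Lib.MP_5e7226_co.PS.Body
import Pool.Agent.Lib.MP_5e7226_co.RT.MDefs
import Pool.Agent.Lib.MP_5e7226_co.RT.IIDefs

/-! Row R12, part 1: the body in the coordinates `E × ℝ`. -/

set_option autoImplicit false

open Set Filter Topology

namespace Pool.Agent.Lib.MP_5e7226_co.CM

open PS RT

/-- A body which is symmetric about `0` and about the plane `ℂ × 0`. -/
structure CB (K : Set Q3) : Prop where
  comp : IsCompact K
  conv : Convex ℝ K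
  zero : (0 : Q3) ∈ interior K
  neg : ∀ x ∈ K, -x ∈ K
  mir : ∀ x ∈ K, ((x.1, -x.2) : Q3) ∈ K

/-- The body in the coordinates `E × ℝ`. -/
def LE (K : Set Q3) : Set (E × ℝ) := {q | (((⟨q.1.1, q.1.2⟩ : ℂ), q.2) : Q3) ∈ K}

/-- the coordinates -/
noncomputable def b1_T : Q3 ≃L[ℝ] E × ℝ :=
  Complex.equivRealProdCLM.prodCongr (ContinuousLinearEquiv.refl ℝ ℝ)

lemma b1_symm (q : E × ℝ) : b1_T.symm q = (((⟨q.1.1, q.1.2⟩ : ℂ), q.2) : Q3) := by
  rw [ContinuousLinearEquiv.symm_apply_eq]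
  rfl

lemma b1_pre (K : Set Q3) : LE K = b1_T.symm ⁻¹' K := by
  ext q
  rw [mem_preimage, b1_symm]
  rfl

lemma b1_img (K : Set Q3) : LE K = b1_T '' K := by
  rw [b1_pre, ContinuousLinearEquiv.image_eq_preimage_symm]

lemma b1_mem {K : Set Q3} {q : E × ℝ} :
    q ∈ LE K ↔ (((⟨q.1.1, q.1.2⟩ : ℂ), q.2) : Q3) ∈ K := Iff.rfl

lemma b1_int (K : Set Q3) : interior (LE K) = b1_T.symm ⁻¹' (interior K) := by
  rw [b1_pre]
  exact (b1_T.symm.toHomeomorph.preimage_interior K).symm

lemma b1_mir {K : Set Q3} (hK : CB K) {x : E} {z : ℝ} (h : (x, z) ∈ LE K) : (x, -z) ∈ LE K :=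
  hK.mir _ h

lemma b1_neg {K : Set Q3} (hK : CB K) {x : E} {z : ℝ} (h : (x, z) ∈ LE K) : (-x, z) ∈ LE K := by
  have h1 := hK.neg _ (hK.mir _ h)
  rw [b1_mem]
  convert h1 using 1
  refine Prod.ext (Complex.ext ?_ ?_) ?_ <;> simp

/-- Body1 -/
theorem body1 {K : Set Q3} (hK : CB K) :
    IsCompact (LE K) ∧ Convex ℝ (LE K) ∧ (interior (LE K)).Nonempty ∧
      (∀ (x : E) (z : ℝ), (x, z) ∈ LE K → (x, 0) ∈ LE K) ∧ bot (LE K) = top (LE K) ∧
      EF (Prod.fst '' LE K) (top (LE K)) := by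
  have hk : IsCompact (LE K) := by
    rw [b1_img]
    exact hK.comp.image b1_T.continuous
  have hc : Convex ℝ (LE K) := by
    rw [b1_pre]
    exact hK.conv.linear_preimage b1_T.symm.toLinearMap
  have hi : (interior (LE K)).Nonempty := by
    refine ⟨0, ?_⟩
    rw [b1_int, mem_preimage, map_zero]
    exact hK.zero
  have hs : ∀ (x : E) (z : ℝ), (x, z) ∈ LE K → (x, 0) ∈ LE K := by
    intro x z h
    have h1 := hc h (b1_mir hK h) (show (0 : ℝ) ≤ 1 / 2 by norm_num)
      (show (0 : ℝ) ≤ 1 / 2 by norm_num) (by norm_num)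
    convert h1 using 1
    ext
    · simp only [Prod.smul_mk, Prod.mk_add_mk, Prod.fst_add, Prod.smul_fst, smul_eq_mul]
      ring
    · simp only [Prod.smul_mk, Prod.mk_add_mk, Prod.snd_add, Prod.smul_snd, smul_eq_mul]
      ring
    · simp only [Prod.smul_mk, Prod.mk_add_mk, smul_eq_mul]
      ring
  have hb : bot (LE K) = top (LE K) := by
    funext x
    unfold bot top
    congr 1
    ext z
    constructor
    · intro h
      have := b1_mir hK h
      rwa [neg_neg] at this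
    · intro h
      exact b1_mir hK h
  have he : ∀ x : E, top (LE K) (-x) = top (LE K) x := by
    intro x
    unfold top
    congr 1
    ext z
    constructor
    · intro h
      have := b1_neg hK h
      rwa [neg_neg] at this
    · intro h
      exact b1_neg hK h
  obtain ⟨H, x0, hx0, hpos⟩ := pf_of_body hc hk hi hs
  rw [hb] at H hpos
  have hpp : ∀ x ∈ interior (Prod.fst '' LE K), 0 < top (LE K) x := by
    intro x hx
    rcases lt_or_eq_of_le (H.f0 x (interior_subset hx)) with h | h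
    · exact h
    · have := zero_of_int H hx h.symm x0 hx0
      linarith
  refine ⟨hk, hc, hi, hs, hb, ?_⟩
  exact
    { H with
      fpos := hpp
      hpos := hpp
      neg := by
        rintro _ ⟨⟨x, z⟩, h, rfl⟩
        exact ⟨(-x, z), b1_neg hK h, rfl⟩
      even := fun x _ => he x }

end Pool.Agent.Lib.MP_5e7226_co.CM
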