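import Pool.Agent.Lib.MP_5e7226_co.CM.Defs

/-! Row R2. `B` is not a parallelogram. No rim: `(b i, ±1/ε)`. Rim: the opposite corner of a rim
corner `y` is `-y` (`exists_PSet`, `Opp`), hence a rim point; the list is `steep u v ε` and
`(b i, 0)`. -/

set_option autoImplicit false

open Set Filter Topology

namespace Pool.Agent.Lib.MP_5e7226_co.CM

open PS

/-- the opposite corner of `y` is `-y` -/
theorem r2_opp {B : Set E} {y P u v : E} {l k : E →ₗ[ℝ] ℝ} (hn : ∀ x ∈ B, -x ∈ B)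
    (O : Opp B y P l k u v) : P = -y := by
  have h1 := O.le _ (hn P O.Pmem)
  have h2 := O.ge _ (hn y O.ymem)
  rw [map_neg] at h1 h2
  have h3 : l P = -l y := by linarith
  by_contra hne
  have h4 := O.Pgt (-y) (hn y O.ymem) (by rw [map_neg, h3]) (fun he => hne he.symm)
  have h5 := O.ylt (-P) (hn P O.Pmem) (by rw [map_neg, h3, neg_neg])
    (fun he => hne (by rw [← he, neg_neg]))
  rw [map_neg] at h4 h5
  linarith

theorem caseA7 {B : Set E} {f : E → ℝ} (H : EF B f)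
    (h3 : ∃ b₁ b₂ b₃ : E, ∀ x ∈ B, IN B x b₁ ∨ IN B x b₂ ∨ IN B x b₃) : Good7 B f := by
  obtain ⟨b₁, b₂, b₃, hb⟩ := h3
  by_cases hrim : ∀ x ∈ B, ¬ Rim f f x
  · set D : ℝ → List (E × ℝ) := fun ε => [(b₁, 1 / ε), (b₁, -(1 / ε)), (b₂, 1 / ε),
      (b₂, -(1 / ε)), (b₃, 1 / ε), (b₃, -(1 / ε))] with hDdef
    refine good7_of_loc H D (fun ε => by simp [hDdef]) ?_
    intro x hx
    have key : ∀ a : E, IN B x a → (∀ ε, (a, 1 / ε) ∈ D ε) → (∀ ε, (a, -(1 / ε)) ∈ D ε) →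
        ∃ r : ℝ, 0 < r ∧ ∀ z ∈ B, ‖z - x‖ < r → ∀ ε : ℝ, 0 < ε → ε < r →
          Cov B f f (D ε) z := by
      intro a ha hm1 hm2
      obtain ⟨r, hr, hh⟩ := steep_fixed H.toPF hx ha
      refine ⟨r, hr, fun z hz hzx ε hε hεr => ?_⟩
      apply cov_of H.toPF hz (fun hr => absurd hr (hrim z hz))
      intro _
      obtain ⟨b1, b2, b3⟩ := hh z hz hzx ε hε hεr
      exact ⟨⟨(a, -(1 / ε)), hm2 ε, b1, b2⟩, ⟨(a, 1 / ε), hm1 ε, b1, b3⟩⟩
    rcases hb x hx with h1 | h1 | h1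
    · exact key b₁ h1 (fun ε => by simp [hDdef]) (fun ε => by simp [hDdef])
    · exact key b₂ h1 (fun ε => by simp [hDdef]) (fun ε => by simp [hDdef])
    · exact key b₃ h1 (fun ε => by simp [hDdef]) (fun ε => by simp [hDdef])
  · push Not at hrim
    obtain ⟨y0, hy0, hr0⟩ := hrim
    have e1 : ∃ l : E →ₗ[ℝ] ℝ, l ≠ 0 ∧ (∀ x ∈ B, l x ≤ l y0) ∧ 0 ≤ l 0 := by
      by_contra hcon
      push Not at hcon
      obtain ⟨t, _, hin⟩ := IN_of_forall H.toPF hy0 hcon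
      rw [smul_zero, add_zero] at hin
      exact H.toPP.rim_not_int hr0 hin
    obtain ⟨l0, hl0, hm0, _⟩ := e1
    obtain ⟨P, ⟨y, l, k, u, v, O, hy⟩, _, _⟩ := exists_PSet H.toPF hy0 hr0 hl0 hm0
    have hPy : P = -y := r2_opp H.neg O
    have hP : Rim f f P := by
      rw [hPy]
      exact ⟨by rw [H.even y O.ymem]; exact hy.1, by rw [H.even y O.ymem]; exact hy.2⟩
    set D : ℝ → List (E × ℝ) := fun ε => steep u v ε ++ [(b₁, 0), (b₂, 0), (b₃, 0)] with hDdef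
    have hrim : ∀ ε, ∀ z ∈ B, Rim f f z → ∃ d ∈ D ε, Full B f f z d.1 d.2 := by
      intro ε z hz hr
      rcases hb z hz with h1 | h1 | h1
      · exact ⟨(b₁, 0), by simp [hDdef], full_rim' H.toPP hr h1⟩
      · exact ⟨(b₂, 0), by simp [hDdef], full_rim' H.toPP hr h1⟩
      · exact ⟨(b₃, 0), by simp [hDdef], full_rim' H.toPP hr h1⟩
    have hloc : ∀ x ∈ B, Rim f f x → ∃ r : ℝ, 0 < r ∧ ∀ z ∈ B, ‖z - x‖ < r → ∀ ε : ℝ, 0 < ε →
        ε < r → Cov B f f (D ε) z := by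
      intro x hx hr
      rcases hb x hx with h1 | h1 | h1
      · exact loc_cov H.toPP hx hr h1 _ (fun ε => by simp [hDdef])
      · exact loc_cov H.toPP hx hr h1 _ (fun ε => by simp [hDdef])
      · exact loc_cov H.toPP hx hr h1 _ (fun ε => by simp [hDdef])
    refine good7_of_loc H D (fun ε => by simp [hDdef, steep]) ?_
    intro x hx
    by_cases h1 : x = y
    · rw [h1]
      exact hloc y O.ymem hy
    by_cases h2 : x = P
    · rw [h2]
      exact hloc P O.Pmem hP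
    obtain ⟨r, hr, hh⟩ := steep_cov H.toPF O hx h1 h2
    refine ⟨r, hr, fun z hz hzx ε hε hεr => ?_⟩
    apply cov_of H.toPF hz (hrim ε z hz)
    intro _
    obtain ⟨⟨d, hd, a⟩, ⟨d', hd', a'⟩⟩ := hh z hz hzx ε hε hεr
    exact ⟨⟨d, List.mem_append_left _ hd, a⟩, ⟨d', List.mem_append_left _ hd', a'⟩⟩

end Pool.Agent.Lib.MP_5e7226_co.CM
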