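import Pool.Agent.Lib.MP_5e7226_co.CM.Body1
import Pool.Agent.Lib.MP_5e7226_co.RT.N1

/-! Row R14: coordinates for a centrally symmetric body with one more linear symmetry which is an
involution: `E3` is the sum of the fixed space and of the space where `g = -1`. -/

set_option autoImplicit false

open Set Filter Topology

namespace Pool.Agent.Lib.MP_5e7226_co.CM

open PS RT

/-- the fixed space of `g` -/
def r14P (g : E3 →ₗ[ℝ] E3) : Submodule ℝ E3 := LinearMap.ker (g - LinearMap.id)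

/-- the space where `g` is `-1` -/
def r14N (g : E3 →ₗ[ℝ] E3) : Submodule ℝ E3 := LinearMap.ker (g + LinearMap.id)

theorem r14_memP {g : E3 →ₗ[ℝ] E3} {x : E3} : x ∈ r14P g ↔ g x = x := by
  rw [r14P, LinearMap.mem_ker, LinearMap.sub_apply, LinearMap.id_apply, sub_eq_zero]

theorem r14_memN {g : E3 →ₗ[ℝ] E3} {x : E3} : x ∈ r14N g ↔ g x = -x := by
  rw [r14N, LinearMap.mem_ker, LinearMap.add_apply, LinearMap.id_apply, add_eq_zero_iff_eq_neg]

theorem r14_compl {g : E3 →ₗ[ℝ] E3} (hsq : ∀ x, g (g x) = x) : IsCompl (r14P g) (r14N g) := by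
  rw [isCompl_iff]
  constructor
  · rw [Submodule.disjoint_def]
    intro x h1 h2
    rw [r14_memP] at h1
    rw [r14_memN, h1] at h2
    have h3 : (2 : ℝ) • x = 0 := by
      rw [two_smul]
      nth_rewrite 1 [h2]
      exact neg_add_cancel x
    exact (smul_eq_zero.1 h3).resolve_left two_ne_zero
  · rw [codisjoint_iff, Submodule.eq_top_iff']
    intro x
    have e : x = (1 / 2 : ℝ) • (x + g x) + (1 / 2 : ℝ) • (x - g x) := by
      rw [← smul_add]
      have : x + g x + (x - g x) = (2 : ℝ) • x := by rw [two_smul]; abel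
      rw [this, smul_smul]; norm_num
    rw [e]
    refine Submodule.add_mem_sup (Submodule.smul_mem _ _ ?_) (Submodule.smul_mem _ _ ?_)
    · rw [r14_memP, map_add, hsq, add_comm]
    · rw [r14_memN, map_sub, hsq, neg_sub]

/-- the case of a mirror -/
theorem r14_mirror {K : Set E3} {o : E3} (hconv : Convex ℝ K) (hcomp : IsCompact K)
    (ho : o ∈ interior K) (hneg : ∀ x, o + x ∈ K → o - x ∈ K) {g : E3 →ₗ[ℝ] E3}
    (hg : ∀ x, o + x ∈ K ↔ o + g x ∈ K) (hsq : ∀ x, g (g x) = x)
    (hd : Module.finrank ℝ (r14P g) = 2) :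
    ∃ b : Module.Basis (Fin 3) ℝ E3, CB (cb b o K) := by
  have hdim : Module.finrank ℝ E3 = 3 := by simp
  have hN : Module.finrank ℝ (r14N g) = 1 := by
    have := Submodule.finrank_add_eq_of_isCompl (r14_compl hsq)
    omega
  let e1 : ℂ ≃ₗ[ℝ] r14P g := LinearEquiv.ofFinrankEq _ _ (by rw [hd]; exact Complex.finrank_real_complex)
  let e2 : ℝ ≃ₗ[ℝ] r14N g := LinearEquiv.ofFinrankEq _ _ (by rw [hN]; exact Module.finrank_self ℝ)
  let Φ : Q3 ≃ₗ[ℝ] E3 :=
    (e1.prodCongr e2).trans (Submodule.prodEquivOfIsCompl _ _ (r14_compl hsq))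
  have hΦ : ∀ q : Q3, Φ q = (e1 q.1 : E3) + (e2 q.2 : E3) := fun q => rfl
  have hgΦ : ∀ q : Q3, g (Φ q) = Φ (q.1, -q.2) := by
    intro q
    rw [hΦ, hΦ, map_add, r14_memP.1 (e1 q.1).2, r14_memN.1 (e2 q.2).2]
    simp
  set K₁ : Set E3 := {x | o + x ∈ K} with hK₁
  have hK₁e : K₁ = (Homeomorph.addLeft o) ⁻¹' K := rfl
  have hK₁c : IsCompact K₁ := by
    rw [hK₁e]; exact (Homeomorph.addLeft o).isCompact_preimage.2 hcomp
  have hK₁i : (0 : E3) ∈ interior K₁ := by
    rw [hK₁e, ← (Homeomorph.addLeft o).preimage_interior]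
    simpa using ho
  refine ⟨Module.Basis.ofEquivFun (Φ.symm.trans n1E), ?_⟩
  rw [n1_cb]
  let Ψ := Φ.toContinuousLinearEquiv
  have hC : {q : Q3 | o + Φ q ∈ K} = Ψ.toHomeomorph ⁻¹' K₁ := rfl
  refine ⟨?_, ?_, ?_, ?_, ?_⟩
  · rw [hC]; exact Ψ.toHomeomorph.isCompact_preimage.2 hK₁c
  · have h1 : Convex ℝ K₁ := by
      rw [hK₁e]
      have := hconv.translate_preimage_right o
      exact this
    exact h1.linear_preimage Φ.toLinearMap
  · rw [hC, ← Ψ.toHomeomorph.preimage_interior]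
    simpa using hK₁i
  · intro q hq
    show o + Φ (-q) ∈ K
    rw [map_neg, ← sub_eq_add_neg]
    exact hneg _ hq
  · intro q hq
    show o + Φ (q.1, -q.2) ∈ K
    rw [← hgΦ]
    exact (hg _).1 hq

/-- R14: coordinates; `E3` is the sum of the eigenspaces of `g` for `1`, `-1`, of dimensions 1 and 2
(in one order), and `K` is symmetric under `-g`, too. -/
theorem exists_CB {K : Set E3} {o : E3} (hconv : Convex ℝ K) (hcomp : IsCompact K)
    (ho : o ∈ interior K) (hneg : ∀ x, o + x ∈ K → o - x ∈ K) {g : E3 →ₗ[ℝ] E3}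
    (hg : ∀ x, o + x ∈ K ↔ o + g x ∈ K) (hsq : ∀ x, g (g x) = x) (h1 : ∃ x, g x ≠ x)
    (h2 : ∃ x, g x ≠ -x) : ∃ b : Module.Basis (Fin 3) ℝ E3, CB (cb b o K) := by
  have hdim : Module.finrank ℝ E3 = 3 := by simp
  have hsum := Submodule.finrank_add_eq_of_isCompl (r14_compl hsq)
  have hP : Module.finrank ℝ (r14P g) < 3 := by
    refine lt_of_lt_of_eq (Submodule.finrank_lt ?_) hdim
    intro htop
    obtain ⟨x, hx⟩ := h1
    exact hx (r14_memP.1 (by rw [htop]; trivial))
  have hN : Module.finrank ℝ (r14N g) < 3 := by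
    refine lt_of_lt_of_eq (Submodule.finrank_lt ?_) hdim
    intro htop
    obtain ⟨x, hx⟩ := h2
    exact hx (r14_memN.1 (by rw [htop]; trivial))
  by_cases hd : Module.finrank ℝ (r14P g) = 2
  · exact r14_mirror hconv hcomp ho hneg hg hsq hd
  · have hd' : Module.finrank ℝ (r14N g) = 2 := by omega
    have hPN : r14P (-g) = r14N g := by
      ext x
      rw [r14_memP, r14_memN, LinearMap.neg_apply, neg_eq_iff_eq_neg]
    refine r14_mirror hconv hcomp ho hneg (g := -g) ?_ ?_ (by rw [hPN]; exact hd')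
    · intro x
      rw [hg x]
      constructor
      · intro h
        have := hneg _ h
        simpa [sub_eq_add_neg] using this
      · intro h
        have := hneg _ h
        simpa [sub_eq_add_neg] using this
    · intro x
      simpa using hsq x

end Pool.Agent.Lib.MP_5e7226_co.CM
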