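import Pool.Agent.Lib.MP_5e7226_co.CM.Body1
import Pool.Agent.Lib.MP_5e7226_co.RT.Pol

/-! Row R13. -/

set_option autoImplicit false

open Set Filter Topology

namespace Pool.Agent.Lib.MP_5e7226_co.CM

open PS RT

/-- R13, compare `RB_pol` -/
theorem CB_pol {K : Set Q3} (hK : CB K) : CB (pol K) := by
  refine ⟨?_, ?_, ?_, ?_, ?_⟩
  · -- compact
    obtain ⟨C, hC⟩ := n2_bound hK.zero
    have hcl : IsClosed (pol K) := by
      have h1 : pol K = ⋂ x ∈ K, {u : Q3 | pr u x ≤ 1} := by
        ext u
        simp [pol]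
      rw [h1]
      exact isClosed_biInter fun x _ => isClosed_le (n2_pr_continuous x) continuous_const
    refine Metric.isCompact_of_isClosed_isBounded hcl ?_
    refine (Metric.isBounded_closedBall (x := (0 : Q3)) (r := C)).subset fun u hu => ?_
    rw [mem_closedBall_zero_iff]
    exact hC u hu
  · -- convex
    intro u hu v hv a b ha hb hab x hx
    have h1 := hu x hx
    have h2 := hv x hx
    have h3 : pr (a • u + b • v) x = a * pr u x + b * pr v x := by
      simp only [pr, dotC, Prod.fst_add, Prod.snd_add, Prod.smul_fst, Prod.smul_snd,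
        Complex.add_re, Complex.add_im, Complex.real_smul, Complex.mul_re, Complex.mul_im,
        Complex.ofReal_re, Complex.ofReal_im, smul_eq_mul]
      ring
    rw [h3]
    calc a * pr u x + b * pr v x ≤ a * 1 + b * 1 :=
          add_le_add (mul_le_mul_of_nonneg_left h1 ha) (mul_le_mul_of_nonneg_left h2 hb)
      _ = 1 := by rw [mul_one, mul_one, hab]
  · -- the origin
    obtain ⟨R, hR⟩ := hK.comp.isBounded.exists_norm_le
    rw [mem_interior_iff_mem_nhds, Metric.mem_nhds_iff]
    refine ⟨1 / (2 * (|R| + 1)), by positivity, fun u hu x hx => ?_⟩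
    rw [mem_ball_zero_iff] at hu
    have h1 := n2_pr_le u x
    have h2 : ‖x‖ ≤ |R| + 1 := (hR x hx).trans ((le_abs_self R).trans (by linarith))
    have h3 : ‖u‖ * ‖x‖ ≤ 1 / (2 * (|R| + 1)) * (|R| + 1) :=
      mul_le_mul hu.le h2 (norm_nonneg _) (by positivity)
    have h4 : 1 / (2 * (|R| + 1)) * (|R| + 1) = 1 / 2 := by
      have : |R| + 1 ≠ 0 := by positivity
      field_simp
    rw [h4] at h3
    linarith
  · -- the symmetry about `0`
    intro u hu x hx
    have h1 := hu _ (hK.neg x hx)
    have h2 : pr (-u) x = pr u (-x) := by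
      simp only [pr, dotC, Prod.fst_neg, Prod.snd_neg, Complex.neg_re, Complex.neg_im]
      ring
    rw [h2]
    exact h1
  · -- the mirror
    intro u hu x hx
    have h1 := hu _ (hK.mir x hx)
    have h2 : pr ((u.1, -u.2) : Q3) x = pr u (x.1, -x.2) := by
      simp only [pr]
      ring
    rw [h2]
    exact h1

end Pool.Agent.Lib.MP_5e7226_co.CM
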