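import Pool.Agent.Lib.MP_5e7226_co.PS.Main

/-! Centrally symmetric bodies with a mirror: definitions and basic facts.

`B = -B` is a planar body, `f` is even, concave and positive inside; the body is
`{(x, z) : x ∈ B, |z| ≤ f x}`. -/

set_option autoImplicit false

open Set Filter Topology

namespace Pool.Agent.Lib.MP_5e7226_co.CM

open PS

/-- An even pair. -/
structure EF (B : Set E) (f : E → ℝ) : Prop extends PP B f f where
  neg : ∀ x ∈ B, -x ∈ B
  even : ∀ x ∈ B, f (-x) = f x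

/-- Seven directions suffice. -/
def Good7 (B : Set E) (f : E → ℝ) : Prop :=
  ∃ D : List (E × ℝ), D.length ≤ 7 ∧ ∀ x ∈ B, Cov B f f D x

/-- The square. -/
def SQ : Set E := {x | |x.1| ≤ 1 ∧ |x.2| ≤ 1}

/-- `B` is a parallelogram and the body is a parallelepiped. -/
def ParF (B : Set E) (f : E → ℝ) : Prop :=
  ∃ v w : E, LinearIndependent ℝ ![v, w] ∧
    B = {x | ∃ s t : ℝ, |s| ≤ 1 ∧ |t| ≤ 1 ∧ x = s • v + t • w} ∧
    ((∀ s t : ℝ, |s| ≤ 1 → |t| ≤ 1 → f (s • v + t • w) = f 0) ∨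
      (∀ s t : ℝ, |s| ≤ 1 → |t| ≤ 1 → f (s • v + t • w) = f 0 * (1 - |t|)))

variable {B : Set E} {f : E → ℝ}

theorem EF.zero (H : EF B f) : (0 : E) ∈ interior B := by
  obtain ⟨c, hc⟩ := H.int
  have h1 : -c ∈ interior B := by
    have h2 : -(interior B) ⊆ B := fun x hx => by
      have := H.neg _ (interior_subset hx)
      simpa using this
    have h3 : IsOpen (-(interior B)) := isOpen_interior.neg
    exact interior_maximal h2 h3 (by simpa using hc)
  have h2 := H.conv.interior hc h1 (show (0 : ℝ) ≤ 1 / 2 by norm_num)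
    (show (0 : ℝ) ≤ 1 / 2 by norm_num) (by norm_num)
  have h3 : (1 / 2 : ℝ) • c + (1 / 2 : ℝ) • -c = 0 := by
    rw [smul_neg, add_neg_cancel]
  rwa [h3] at h2

theorem EF.pos (H : EF B f) : 0 < f 0 := H.fpos 0 H.zero

theorem EF.le0 (H : EF B f) {x : E} (hx : x ∈ B) : f x ≤ f 0 := by
  have h1 := H.fconc.2 hx (H.neg x hx) (show (0 : ℝ) ≤ 1 / 2 by norm_num)
    (show (0 : ℝ) ≤ 1 / 2 by norm_num) (by norm_num)
  have h3 : (1 / 2 : ℝ) • x + (1 / 2 : ℝ) • -x = 0 := by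
    rw [smul_neg, add_neg_cancel]
  rw [h3, H.even x hx] at h1
  simp only [smul_eq_mul] at h1
  linarith

/-- compactness: local uniformity in `ε` suffices -/
theorem good7_of_loc (H : EF B f) (D : ℝ → List (E × ℝ)) (hD : ∀ ε, (D ε).length ≤ 7)
    (hl : ∀ x ∈ B, ∃ r : ℝ, 0 < r ∧ ∀ y ∈ B, ‖y - x‖ < r → ∀ ε : ℝ, 0 < ε → ε < r →
      Cov B f f (D ε) y) : Good7 B f := by
  obtain ⟨ε, _, h1⟩ := unif_of_loc H.toPF (fun ε y => Cov B f f (D ε) y) hl
  exact ⟨D ε, hD ε, h1⟩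

theorem int_SQ {x : E} (h1 : |x.1| < 1) (h2 : |x.2| < 1) : x ∈ interior SQ := by
  have c1 : Continuous fun x : E => |x.1| := continuous_fst.abs
  have c2 : Continuous fun x : E => |x.2| := continuous_snd.abs
  have ho : IsOpen {x : E | |x.1| < 1 ∧ |x.2| < 1} :=
    (isOpen_lt c1 continuous_const).inter (isOpen_lt c2 continuous_const)
  have hs : {x : E | |x.1| < 1 ∧ |x.2| < 1} ⊆ SQ := fun y hy => ⟨hy.1.le, hy.2.le⟩
  exact interior_maximal hs ho ⟨h1, h2⟩

theorem IN_SQ {x v : E} {t : ℝ} (ht : 0 < t) (h1 : |x.1 + t * v.1| < 1)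
    (h2 : |x.2 + t * v.2| < 1) : IN SQ x v :=
  ⟨t, ht, int_SQ (by simpa using h1) (by simpa using h2)⟩

end Pool.Agent.Lib.MP_5e7226_co.CM
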