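import Pool.Agent.Lib.MP_5e7226_co.CM.Coord
import Pool.Agent.Lib.MP_5e7226_co.RT.Final
import Pool.Agent.Lib.MP_5e7226_co.IN.Res

/-! Row R15 (helper44). -/

set_option autoImplicit false

open Set Filter Topology

namespace Pool.Agent.Lib.MP_5e7226_co.CM

open PS RT

theorem good_of_CB {K : Set E3} {o : E3} (hK : HX.Body o K) {b : Module.Basis (Fin 3) ℝ E3}
    (hB : CB (cb b o K)) : RG.Good K o := by
  have h1 := core7 hB
  have h2 := core7 (CB_pol hB)
  refine ⟨?_, ?_, ?_, ?_⟩
  · rcases h2 with h | h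
    · exact TR.sep_mono (by norm_num) (sep_of_served hK h)
    · exact sep_of_served hK (served8_of_par h)
  · intro hn
    rcases h2 with h | h
    · exact absurd (sep_of_served hK h) hn
    · exact cross_of_par hK h
  · rcases h1 with h | h
    · exact TR.illum_mono (by norm_num) (by norm_num) (illum_of_served hK h)
    · exact illum_of_served hK (served8_of_par h)
  · intro hn
    rcases h1 with h | h
    · exact absurd (illum_of_served hK h) hn
    · exact cube_of_par hK h

/-- Centrally symmetric bodies with one more symmetry. -/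
theorem good_of_central {K : Set E3} {o : E3} (hconv : Convex ℝ K) (hcomp : IsCompact K)
    (ho : o ∈ interior K) (hneg : ∀ x, o + x ∈ K → o - x ∈ K) {g : E3 →ₗ[ℝ] E3}
    (hg : ∀ x, o + x ∈ K ↔ o + g x ∈ K) (h1 : ∃ x, g x ≠ x) (h2 : ∃ x, g x ≠ -x) :
    RG.Good K o := by
  have hK : HX.Body o K := ⟨hconv, hcomp, ho⟩
  have hneg' : ∀ x, o + x ∈ K ↔ o + (-g) x ∈ K := by
    intro x
    rw [hg x]
    constructor
    · intro h
      have := hneg _ h
      simpa [sub_eq_add_neg] using this
    · intro h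
      have := hneg _ h
      simpa [sub_eq_add_neg] using this
  by_cases hsq : ∀ x, g (g x) = x
  · obtain ⟨b, hb⟩ := exists_CB hconv hcomp ho hneg hg hsq h1 h2
    exact good_of_CB hK hb
  push Not at hsq
  obtain ⟨g', hg'⟩ := IN.exists_equiv hcomp ⟨o, ho⟩ g.isLinear hg
  have hdet : LinearMap.det g ≠ 0 := by
    have e1 : (g' : E3 →ₗ[ℝ] E3) = g := LinearMap.ext fun x => hg' x
    rw [← e1]
    exact (LinearEquiv.isUnit_det' g').ne_zero
  rcases lt_or_gt_of_ne hdet with hd | hd
  · refine good_of_rot hconv hcomp ho (g := -g) ⟨hneg', ?_, ?_⟩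
    · have e2 : LinearMap.det (-g) = -LinearMap.det g := by
        rw [← neg_one_smul ℝ g, LinearMap.det_smul]
        simp
        norm_num
      rw [e2]; linarith
    · obtain ⟨x, hx⟩ := hsq
      exact ⟨x, by simpa using hx⟩
  · exact good_of_rot hconv hcomp ho ⟨hg, hd, hsq⟩

end Pool.Agent.Lib.MP_5e7226_co.CM
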