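import Pool.Agent.Lib.MP_5e7226_co.CM.Planar

/-! Levi's theorem for a general planar body. -/

set_option autoImplicit false

open Set Filter Topology

namespace Pool.Agent.Lib.MP_5e7226_co.CM.R1

open PS

variable {B : Set E} {f h : E → ℝ}

theorem of_cross_gen (H : PF B f h) (h0 : (0 : E) ∈ interior B) (hC : CrossBody 2 (pol B)) :
    ∃ o v w : E, LinearIndependent ℝ ![v, w] ∧
      B = {x | ∃ s t : ℝ, |s| ≤ 1 ∧ |t| ≤ 1 ∧ x = o + s • v + t • w} := by
  obtain ⟨b, t, ht, hL⟩ := hC
  have hbm : ∀ i, b i ∈ pol B := fun i => by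
    rw [hL]; exact subset_convexHull ℝ _ (mem_iUnion.mpr ⟨i, by simp⟩)
  have htm : ∀ i, -(t i) • b i ∈ pol B := fun i => by
    rw [hL]; exact subset_convexHull ℝ _ (mem_iUnion.mpr ⟨i, by simp⟩)
  have hB : ∀ x : E, x ∈ B ↔ ∀ i, dt x (b i) ≤ 1 ∧ -(1 / t i) ≤ dt x (b i) := by
    intro x
    constructor
    · intro hx i
      refine ⟨hbm i x hx, ?_⟩
      have h1 := htm i x hx
      rw [dt_smul] at h1
      have h2 : -dt x (b i) ≤ 1 / t i := by
        rw [le_div_iff₀ (ht i)]
        linarith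
      linarith
    · intro hx
      apply mem_of_pol H h0
      intro y hy
      rw [hL] at hy
      have hcv : Convex ℝ {y : E | dt x y ≤ 1} := by
        intro y hy z hz a c ha hc hac
        simp only [mem_ofPred_eq] at hy hz ⊢
        rw [dt_add, dt_smul, dt_smul]
        nlinarith
      refine convexHull_min (fun z hz => ?_) hcv hy
      rw [mem_iUnion] at hz
      obtain ⟨i, hi⟩ := hz
      obtain ⟨h1, h2⟩ := hx i
      rcases hi with rfl | hi
      · exact h1
      · rw [mem_singleton_iff] at hi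
        rw [hi]
        simp only [mem_ofPred_eq]
        rw [dt_smul]
        have h3 : -dt x (b i) ≤ 1 / t i := by linarith
        rw [le_div_iff₀ (ht i)] at h3
        linarith
  -- the dual basis
  set Δ : ℝ := (b 0).1 * (b 1).2 - (b 0).2 * (b 1).1 with hΔ
  have hΔ0 : Δ ≠ 0 := by
    intro hz
    have hli : ∀ c0 c1 : ℝ, c0 • b 0 + c1 • b 1 = 0 → c0 = 0 ∧ c1 = 0 := by
      intro c0 c1 hc
      have h1 := Fintype.linearIndependent_iff.1 b.linearIndependent ![c0, c1]
        (by rw [Fin.sum_univ_two]; simpa using hc)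
      exact ⟨by simpa using h1 0, by simpa using h1 1⟩
    have a1 := hli (b 1).2 (-(b 0).2) (by
      ext
      · simp only [Prod.fst_add, Prod.smul_fst, smul_eq_mul, Prod.fst_zero]
        rw [hΔ] at hz; linarith
      · simp only [Prod.snd_add, Prod.smul_snd, smul_eq_mul, Prod.snd_zero]
        ring)
    have a2 := hli (b 1).1 (-(b 0).1) (by
      ext
      · simp only [Prod.fst_add, Prod.smul_fst, smul_eq_mul, Prod.fst_zero]
        ring
      · simp only [Prod.snd_add, Prod.smul_snd, smul_eq_mul, Prod.snd_zero]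
        rw [hΔ] at hz; linarith)
    apply b.ne_zero 0
    ext
    · simpa using a2.2
    · simpa using a1.2
  set e : E := (1 / Δ) • ((b 1).2, -(b 1).1) with he
  set g : E := (1 / Δ) • (-(b 0).2, (b 0).1) with hg
  have d0 : ∀ s r : ℝ, dt (s • e + r • g) (b 0) = s := by
    intro s r
    simp only [he, hg, dt, Prod.fst_add, Prod.snd_add, Prod.smul_fst, Prod.smul_snd, smul_eq_mul]
    field_simp
    rw [hΔ]; ring
  have d1 : ∀ s r : ℝ, dt (s • e + r • g) (b 1) = r := by
    intro s r
    simp only [he, hg, dt, Prod.fst_add, Prod.snd_add, Prod.smul_fst, Prod.smul_snd, smul_eq_mul]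
    field_simp
    rw [hΔ]; ring
  have dec : ∀ x : E, x = dt x (b 0) • e + dt x (b 1) • g := by
    intro x
    ext
    · simp only [he, hg, dt, Prod.fst_add, Prod.smul_fst, smul_eq_mul]
      field_simp
      rw [hΔ]; ring
    · simp only [he, hg, dt, Prod.snd_add, Prod.smul_snd, smul_eq_mul]
      field_simp
      rw [hΔ]; ring
  have hp : ∀ i, 0 < 1 / t i := fun i => one_div_pos.2 (ht i)
  set p : ℝ := (1 + 1 / t 0) / 2 with hpd
  set q : ℝ := (1 + 1 / t 1) / 2 with hqd
  have hp0 : 0 < p := by have := hp 0; rw [hpd]; linarith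
  have hq0 : 0 < q := by have := hp 1; rw [hqd]; linarith
  set m : ℝ := (1 - 1 / t 0) / 2 with hmd
  set n : ℝ := (1 - 1 / t 1) / 2 with hnd
  have hform : ∀ s r : ℝ, m • e + n • g + s • p • e + r • q • g =
      (m + s * p) • e + (n + r * q) • g := by
    intro s r
    module
  refine ⟨m • e + n • g, p • e, q • g, ?_, ?_⟩
  · refine LinearIndependent.pair_iff.2 fun s r hsr => ?_
    have e0 := d0 (s * p) (r * q)
    have e1 := d1 (s * p) (r * q)
    have e2 : (s * p) • e + (r * q) • g = 0 := by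
      rw [← hsr]; module
    rw [e2] at e0 e1
    have z0 : s * p = 0 := by rw [← e0]; simp [dt]
    have z1 : r * q = 0 := by rw [← e1]; simp [dt]
    exact ⟨(mul_eq_zero.1 z0).resolve_right hp0.ne', (mul_eq_zero.1 z1).resolve_right hq0.ne'⟩
  · ext x
    constructor
    · intro hx
      have h1 := (hB x).1 hx
      obtain ⟨a1, a2⟩ := h1 0
      obtain ⟨a3, a4⟩ := h1 1
      refine ⟨(dt x (b 0) - m) / p, (dt x (b 1) - n) / q, ?_, ?_, ?_⟩
      · rw [abs_le, div_le_one hp0, le_div_iff₀ hp0]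
        constructor
        · rw [hmd, hpd]; linarith
        · rw [hmd, hpd]; linarith
      · rw [abs_le, div_le_one hq0, le_div_iff₀ hq0]
        constructor
        · rw [hnd, hqd]; linarith
        · rw [hnd, hqd]; linarith
      · rw [hform, div_mul_cancel₀ _ hp0.ne', div_mul_cancel₀ _ hq0.ne', add_sub_cancel,
          add_sub_cancel]
        exact dec x
    · rintro ⟨s, r, hs, hr, rfl⟩
      rw [hform, hB]
      rw [abs_le] at hs hr
      intro i
      have k0 : m + p = 1 := by rw [hmd, hpd]; ring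
      have k1 : m - p = -(1 / t 0) := by rw [hmd, hpd]; ring
      have k2 : n + q = 1 := by rw [hnd, hqd]; ring
      have k3 : n - q = -(1 / t 1) := by rw [hnd, hqd]; ring
      fin_cases i
      · show dt _ (b 0) ≤ 1 ∧ -(1 / t 0) ≤ dt _ (b 0)
        rw [d0]
        constructor <;> nlinarith
      · show dt _ (b 1) ≤ 1 ∧ -(1 / t 1) ≤ dt _ (b 1)
        rw [d1]
        constructor <;> nlinarith

end Pool.Agent.Lib.MP_5e7226_co.CM.R1

namespace Pool.Agent.Lib.MP_5e7226_co.CM

open PS

/-- Levi's theorem for a planar body -/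
theorem levi {B : Set E} {f h : E → ℝ} (H : PF B f h) :
    (∃ b₁ b₂ b₃ : E, ∀ x ∈ B, IN B x b₁ ∨ IN B x b₂ ∨ IN B x b₃) ∨
      ∃ o v w : E, LinearIndependent ℝ ![v, w] ∧
        B = {x | ∃ s t : ℝ, |s| ≤ 1 ∧ |t| ≤ 1 ∧ x = o + s • v + t • w} := by
  obtain ⟨c, hc⟩ := H.int
  set T : E ≃ₜ E := Homeomorph.addRight c with hT
  have hTa : ∀ x, T x = x + c := fun x => rfl
  set B0 : Set E := T ⁻¹' B with hB0
  have hint : interior B0 = T ⁻¹' interior B := (T.preimage_interior B).symm
  have hcv : Convex ℝ B0 := by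
    have := H.conv.translate_preimage_left c
    exact this
  have hk : IsCompact B0 := by
    rw [hB0, T.isCompact_preimage]; exact H.cpt
  have h0 : (0 : E) ∈ interior B0 := by
    rw [hint, mem_preimage, hTa, zero_add]; exact hc
  have H0 := R1.pf0 hcv hk h0
  have hfin : Module.finrank ℝ E = 2 := by
    rw [Module.finrank_prod, Module.finrank_self]
  have hIN : ∀ x b : E, IN B0 (x - c) b → IN B x b := by
    rintro x b ⟨t, ht, hm⟩
    refine ⟨t, ht, ?_⟩
    rw [hint, mem_preimage, hTa] at hm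
    rwa [show x - c + t • b + c = x + t • b by abel] at hm
  have hmem : ∀ x : E, x ∈ B → x - c ∈ B0 := by
    intro x hx
    rw [hB0, mem_preimage, hTa, sub_add_cancel]; exact hx
  rcases Pool.Agent.Lib.MP_5e7226_co.levi hfin (R1.pol_compact h0) (R1.pol_convex B0)
    (R1.pol_zero hk) with h1 | h1
  · left
    obtain ⟨b₁, b₂, b₃, hb⟩ := R1.of_sep H0 h0 h1
    refine ⟨b₁, b₂, b₃, fun x hx => ?_⟩
    rcases hb _ (hmem x hx) with h | h | h
    · exact Or.inl (hIN x _ h)
    · exact Or.inr (Or.inl (hIN x _ h))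
    · exact Or.inr (Or.inr (hIN x _ h))
  · right
    obtain ⟨o, v, w, hli, he⟩ := R1.of_cross_gen H0 h0 h1
    refine ⟨o + c, v, w, hli, ?_⟩
    ext x
    constructor
    · intro hx
      have h2 := hmem x hx
      rw [he] at h2
      obtain ⟨s, t, hs, ht, h3⟩ := h2
      refine ⟨s, t, hs, ht, ?_⟩
      rw [← sub_add_cancel x c, h3]; abel
    · rintro ⟨s, t, hs, ht, rfl⟩
      have h2 : o + s • v + t • w ∈ B0 := by rw [he]; exact ⟨s, t, hs, ht, rfl⟩
      rw [hB0, mem_preimage, hTa] at h2
      rwa [show o + c + s • v + t • w = o + s • v + t • w + c by abel]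

end Pool.Agent.Lib.MP_5e7226_co.CM
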