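import Pool.Agent.Lib.MP_5e7226_co.CM.LinA

/-! Row R3b. The square frame of a parallelogram and the swap of the square. -/

set_option autoImplicit false

open Set Filter Topology

namespace Pool.Agent.Lib.MP_5e7226_co.CM

open PS

variable {B : Set E} {f : E → ℝ}

theorem exists_sq {v w : E} (hli : LinearIndependent ℝ ![v, w])
    (hB : B = {x | ∃ s t : ℝ, |s| ≤ 1 ∧ |t| ≤ 1 ∧ x = s • v + t • w}) :
    ∃ e : E ≃ₗ[ℝ] E, e '' B = SQ ∧ (∀ s t : ℝ, e.symm (s, t) = s • v + t • w) := by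
  have hcard : Fintype.card (Fin 2) = Module.finrank ℝ E := by simp
  let b : Module.Basis (Fin 2) ℝ E := basisOfLinearIndependentOfCardEqFinrank hli hcard
  have hb0 : b 0 = v := by simp [b]
  have hb1 : b 1 = w := by simp [b]
  let e0 : E ≃ₗ[ℝ] (Fin 2 → ℝ) := b.equivFun
  let e1 : (Fin 2 → ℝ) ≃ₗ[ℝ] E := LinearEquiv.finTwoArrow ℝ ℝ
  have hsymm : ∀ s t : ℝ, (e0.trans e1).symm (s, t) = s • v + t • w := by
    intro s t
    have h1 : e1.symm (s, t) = ![s, t] := rfl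
    rw [LinearEquiv.trans_symm, LinearEquiv.trans_apply, h1]
    have h2 : e0.symm ![s, t] = ∑ i, (![s, t] : Fin 2 → ℝ) i • b i := b.equivFun_symm_apply _
    rw [h2, Fin.sum_univ_two, hb0, hb1]
    simp
  refine ⟨e0.trans e1, ?_, hsymm⟩
  ext x
  constructor
  · rintro ⟨y, hy, rfl⟩
    rw [hB] at hy
    obtain ⟨s, t, hs, ht, rfl⟩ := hy
    rw [← hsymm s t, LinearEquiv.apply_symm_apply]
    exact ⟨hs, ht⟩
  · rintro ⟨hs, ht⟩
    refine ⟨(e0.trans e1).symm x, ?_, LinearEquiv.apply_symm_apply _ _⟩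
    rw [hB]
    exact ⟨x.1, x.2, hs, ht, hsymm x.1 x.2⟩

/-- the linear map `(s, t) ↦ (-t, -s)` -/
noncomputable def r3b_sw : E ≃ₗ[ℝ] E :=
  (LinearEquiv.prodComm ℝ ℝ ℝ).trans (LinearEquiv.neg ℝ)

theorem r3b_sw_apply (x : E) : r3b_sw x = (-x.2, -x.1) := rfl

theorem r3b_sw_symm (x : E) : r3b_sw.symm x = (-x.2, -x.1) := by
  rw [LinearEquiv.symm_apply_eq, r3b_sw_apply]
  simp

theorem r3b_sw_SQ : r3b_sw '' SQ = SQ := by
  ext x
  constructor
  · rintro ⟨y, ⟨h1, h2⟩, rfl⟩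
    rw [r3b_sw_apply]
    exact ⟨by simpa using h2, by simpa using h1⟩
  · rintro ⟨h1, h2⟩
    refine ⟨(-x.2, -x.1), ⟨by simpa using h2, by simpa using h1⟩, ?_⟩
    rw [r3b_sw_apply]
    simp

/-- the swap `(s, t) ↦ (-t, -s)` -/
theorem EF.swap {f : E → ℝ} (H : EF SQ f) : EF SQ (fun x => f (-x.2, -x.1)) := by
  have h := H.map r3b_sw
  rw [r3b_sw_SQ] at h
  simpa only [r3b_sw_symm] using h

theorem Good7.of_swap {f : E → ℝ} (h : Good7 SQ (fun x => f (-x.2, -x.1))) : Good7 SQ f := by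
  refine Good7.of_map (B := SQ) (f := f) r3b_sw ?_
  rw [r3b_sw_SQ]
  simpa only [r3b_sw_symm] using h

end Pool.Agent.Lib.MP_5e7226_co.CM
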