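import Pool.Agent.Lib.MP_5e7226_co.CM.Defs

/-! Row R3a. Linear changes of coordinates of the plane: transport of `EF` and `Good7`. -/

set_option autoImplicit false

open Set Filter Topology

namespace Pool.Agent.Lib.MP_5e7226_co.CM

open PS

variable {B : Set E} {f : E → ℝ}

theorem r3a_cont (e : E ≃ₗ[ℝ] E) : Continuous e := e.toContinuousLinearEquiv.continuous

theorem r3a_int (e : E ≃ₗ[ℝ] E) (B : Set E) : interior (e '' B) = e '' interior B :=
  (e.toContinuousLinearEquiv.toHomeomorph.image_interior B).symm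

theorem r3a_mem (e : E ≃ₗ[ℝ] E) {B : Set E} {x : E} (hx : x ∈ e '' B) : e.symm x ∈ B := by
  obtain ⟨y, hy, rfl⟩ := hx
  simpa using hy

theorem r3a_mem_int (e : E ≃ₗ[ℝ] E) {B : Set E} {x : E} (hx : x ∈ interior (e '' B)) :
    e.symm x ∈ interior B := by
  rw [r3a_int] at hx
  exact r3a_mem e hx

theorem EF.map (H : EF B f) (e : E ≃ₗ[ℝ] E) : EF (e '' B) (fun x => f (e.symm x)) := by
  have hconv : Convex ℝ (e '' B) := H.conv.linear_image e.toLinearMap
  have hconc : ConcaveOn ℝ (e '' B) (fun x => f (e.symm x)) := by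
    refine ⟨hconv, fun x hx y hy a b ha hb hab => ?_⟩
    have := H.fconc.2 (r3a_mem e hx) (r3a_mem e hy) ha hb hab
    simpa only [map_add, map_smul] using this
  have husc : UpperSemicontinuousOn (fun x => f (e.symm x)) (e '' B) := by
    intro x hx c hc
    have h1 : ∀ᶠ y in 𝓝[B] (e.symm x), f y < c := H.fusc (e.symm x) (r3a_mem e hx) c hc
    have h2 : Tendsto (fun z => e.symm z) (𝓝[e '' B] x) (𝓝[B] (e.symm x)) :=
      ((r3a_cont e.symm).continuousWithinAt).tendsto_nhdsWithin fun z hz => r3a_mem e hz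
    exact h2.eventually h1
  have hpos : ∀ x ∈ interior (e '' B), 0 < f (e.symm x) := fun x hx =>
    H.fpos _ (r3a_mem_int e hx)
  have h0 : ∀ x ∈ e '' B, 0 ≤ f (e.symm x) := fun x hx => H.f0 _ (r3a_mem e hx)
  exact
    { conv := hconv
      cpt := H.cpt.image (r3a_cont e)
      int := by
        rw [r3a_int]
        exact H.int.image e
      fconc := hconc
      hconc := hconc
      fusc := husc
      husc := husc
      f0 := h0
      h0 := h0
      fpos := hpos
      hpos := hpos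
      neg := fun x hx => by
        obtain ⟨y, hy, rfl⟩ := hx
        exact ⟨-y, H.neg y hy, map_neg e y⟩
      even := fun x hx => by
        have := H.even _ (r3a_mem e hx)
        simpa only [map_neg] using this }

theorem r3a_IN (e : E ≃ₗ[ℝ] E) {x v : E} (h : IN (e '' B) (e x) v) : IN B x (e.symm v) := by
  obtain ⟨t, ht, h1⟩ := h
  refine ⟨t, ht, ?_⟩
  have := r3a_mem_int e h1
  simpa only [map_add, map_smul, LinearEquiv.symm_apply_apply] using this

theorem r3a_UP (e : E ≃ₗ[ℝ] E) {x v : E} {w : ℝ}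
    (h : UP (e '' B) (fun x => f (e.symm x)) (e x) v w) : UP B f x (e.symm v) w := by
  obtain ⟨t, ht, h1, h2⟩ := h
  refine ⟨t, ht, ?_, ?_⟩
  · have := r3a_mem e h1
    simpa only [map_add, map_smul, LinearEquiv.symm_apply_apply] using this
  · simpa only [map_add, map_smul, LinearEquiv.symm_apply_apply] using h2

theorem Good7.of_map (e : E ≃ₗ[ℝ] E) (h : Good7 (e '' B) (fun x => f (e.symm x))) :
    Good7 B f := by
  obtain ⟨D, hD, hc⟩ := h
  refine ⟨D.map fun d => (e.symm d.1, d.2), by simpa using hD, fun x hx => ?_⟩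
  rcases hc (e x) ⟨x, hx, rfl⟩ with ⟨d, hd, h1, h2, h3⟩ | ⟨h0, ⟨d, hd, h1, h2⟩, d', hd', h3, h4⟩
  · exact Or.inl ⟨(e.symm d.1, d.2), List.mem_map_of_mem hd, r3a_IN e h1, r3a_UP e h2,
      r3a_UP e h3⟩
  · refine Or.inr ⟨by simpa using h0, ⟨(e.symm d.1, d.2), List.mem_map_of_mem hd, r3a_IN e h1,
      r3a_UP e h2⟩, (e.symm d'.1, d'.2), List.mem_map_of_mem hd', r3a_IN e h3, r3a_UP e h4⟩

end Pool.Agent.Lib.MP_5e7226_co.CM
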