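import Pool.Agent.Lib.MP_5e7226_co.CM.Defs

/-! Row R4. The square, not all vertices are rim points. -/

set_option autoImplicit false

open Set Filter Topology

namespace Pool.Agent.Lib.MP_5e7226_co.CM

open PS

variable {f : E → ℝ}

/-- the direction `(p, q)` leads into the interior away from the sides `s = p`, `t = q` -/
theorem r4_in {x : E} (hx : x ∈ SQ) {p q : ℝ} (hp : p = 1 ∨ p = -1) (hq : q = 1 ∨ q = -1)
    (h1 : p * x.1 < 1) (h2 : q * x.2 < 1) : IN SQ x (p, q) := by
  obtain ⟨t, ht, ht1, ht2⟩ : ∃ t : ℝ, 0 < t ∧ t < 1 - p * x.1 ∧ t < 1 - q * x.2 := by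
    have h3 : 0 < min (1 - p * x.1) (1 - q * x.2) := lt_min (by linarith) (by linarith)
    refine ⟨min (1 - p * x.1) (1 - q * x.2) / 2, by linarith, ?_, ?_⟩
    · have := min_le_left (1 - p * x.1) (1 - q * x.2); linarith
    · have := min_le_right (1 - p * x.1) (1 - q * x.2); linarith
  have hx1 := abs_le.1 hx.1
  have hx2 := abs_le.1 hx.2
  refine IN_SQ ht ?_ ?_
  · rcases hp with rfl | rfl <;> rw [abs_lt] <;> constructor <;> simp only <;> linarith
  · rcases hq with rfl | rfl <;> rw [abs_lt] <;> constructor <;> simp only <;> linarith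

theorem r4_mem {a b : ℝ} (ha : |a| ≤ 1) (hb : |b| ≤ 1) : ((a, b) : E) ∈ SQ := ⟨ha, hb⟩

/-- the bilinear lower bound -/
theorem r4_bil (H : EF SQ f) {x : E} (hx : x ∈ SQ) :
    (1 + x.1 * x.2) / 2 * f (1, 1) + (1 - x.1 * x.2) / 2 * f (1, -1) ≤ f x := by
  have hx1 := abs_le.1 hx.1
  have hx2 := abs_le.1 hx.2
  have m1 : ((1, 1) : E) ∈ SQ := r4_mem (by simp) (by simp)
  have m2 : ((1, -1) : E) ∈ SQ := r4_mem (by simp) (by simp)
  have m3 : ((1, x.2) : E) ∈ SQ := r4_mem (by simp) hx.2
  have m4 : ((1, -x.2) : E) ∈ SQ := r4_mem (by simp) (by simpa using hx.2)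
  have m5 : ((-1, x.2) : E) ∈ SQ := r4_mem (by simp) hx.2
  have h1 := H.fconc.2 m1 m2 (show 0 ≤ (1 + x.2) / 2 by linarith)
    (show 0 ≤ (1 - x.2) / 2 by linarith) (by ring)
  have h2 := H.fconc.2 m1 m2 (show 0 ≤ (1 - x.2) / 2 by linarith)
    (show 0 ≤ (1 + x.2) / 2 by linarith) (by ring)
  have h3 := H.fconc.2 m3 m5 (show 0 ≤ (1 + x.1) / 2 by linarith)
    (show 0 ≤ (1 - x.1) / 2 by linarith) (by ring)
  have e1 : ((1 + x.2) / 2) • ((1, 1) : E) + ((1 - x.2) / 2) • ((1, -1) : E) = (1, x.2) := by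
    ext
    · simp; ring
    · simp; ring
  have e2 : ((1 - x.2) / 2) • ((1, 1) : E) + ((1 + x.2) / 2) • ((1, -1) : E) = (1, -x.2) := by
    ext
    · simp; ring
    · simp; ring
  have e3 : ((1 + x.1) / 2) • ((1, x.2) : E) + ((1 - x.1) / 2) • ((-1, x.2) : E) = x := by
    ext
    · simp; ring
    · simp; ring
  have h4 : f (-1, x.2) = f (1, -x.2) := by
    have := H.even _ m4
    rw [← this]
    simp
  rw [e1] at h1
  rw [e2] at h2
  rw [e3, h4] at h3
  simp only [smul_eq_mul] at h1 h2 h3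
  have h5 := mul_le_mul_of_nonneg_left h1 (show 0 ≤ (1 + x.1) / 2 by linarith)
  have h6 := mul_le_mul_of_nonneg_left h2 (show 0 ≤ (1 - x.1) / 2 by linarith)
  linarith

theorem r4_even (H : EF SQ f) {a b : ℝ} (ha : |a| ≤ 1) (hb : |b| ≤ 1) :
    f (-a, -b) = f (a, b) := by
  have := H.even _ (r4_mem ha hb)
  rw [← this]; simp

/-- steep directions light the fibres near a point with positive `f` -/
theorem r4_steep (H : EF SQ f) {x a : E} (hx : x ∈ SQ) (ha : IN SQ x a) (D : ℝ → List (E × ℝ))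
    (h1 : ∀ ε, (a, 1 / ε) ∈ D ε) (h2 : ∀ ε, (a, -(1 / ε)) ∈ D ε) {r₀ : ℝ} (hr₀ : 0 < r₀)
    (hpos : ∀ z ∈ SQ, ‖z - x‖ < r₀ → 0 < f z) :
    ∃ r : ℝ, 0 < r ∧ ∀ z ∈ SQ, ‖z - x‖ < r → ∀ ε : ℝ, 0 < ε → ε < r → Cov SQ f f (D ε) z := by
  obtain ⟨r, hr, hh⟩ := steep_fixed H.toPF hx ha
  refine ⟨min r r₀, lt_min hr hr₀, fun z hz hzx ε hε hεr => ?_⟩
  obtain ⟨b1, b2, b3⟩ := hh z hz (hzx.trans_le (min_le_left _ _)) ε hε
    (hεr.trans_le (min_le_left _ _))
  have hp := hpos z hz (hzx.trans_le (min_le_right _ _))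
  exact Or.inr ⟨by linarith, ⟨(a, -(1 / ε)), h2 ε, b1, b2⟩, ⟨(a, 1 / ε), h1 ε, b1, b3⟩⟩

/-- a horizontal direction towards the centre lights near a vertex which is not a maximum -/
theorem r4_flat (H : EF SQ f) {x : E} (hx : x ∈ SQ) (hlt : f x < f 0) (hin : IN SQ x (-x))
    (D : ℝ → List (E × ℝ)) (hD : ∀ ε, (-x, (0 : ℝ)) ∈ D ε) :
    ∃ r : ℝ, 0 < r ∧ ∀ z ∈ SQ, ‖z - x‖ < r → ∀ ε : ℝ, 0 < ε → ε < r → Cov SQ f f (D ε) z := by
  have hup : UP SQ f x (-x) 0 := by
    refine ⟨1, one_pos, ?_, ?_⟩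
    · rw [one_smul, add_neg_cancel]; exact interior_subset H.zero
    · rw [one_smul, add_neg_cancel]; simpa using hlt
  obtain ⟨r, hr', hh⟩ := loc1 H.toPF hx (v := -x) (w := 0) ⟨hin, hup, by simpa using hup⟩
  refine ⟨r, hr', fun z hz hzx ε _ _ => ?_⟩
  exact cov_of_full (hD ε) (hh z hz hzx 0 (by simpa using hr'))

theorem sqB {f : E → ℝ} (H : EF SQ f) (h : 0 < f (1, 1) ∨ 0 < f (1, -1)) :
    Good7 SQ f ∨ ∀ x ∈ SQ, f x = f 0 := by
  have M11 : ((1, 1) : E) ∈ SQ := r4_mem (by simp) (by simp)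
  have M12 : ((1, -1) : E) ∈ SQ := r4_mem (by simp) (by simp)
  have M21 : ((-1, 1) : E) ∈ SQ := r4_mem (by simp) (by simp)
  have M22 : ((-1, -1) : E) ∈ SQ := r4_mem (by simp) (by simp)
  have E3 : f (-1, -1) = f (1, 1) := r4_even H (by simp) (by simp)
  have E4 : f (-1, 1) = f (1, -1) := by
    have := r4_even H (a := 1) (b := -1) (by simp) (by simp)
    simpa using this
  have I11 : IN SQ (1, 1) (-1, -1) := r4_in M11 (by simp) (by simp) (by norm_num) (by norm_num)
  have I12 : IN SQ (1, -1) (-1, 1) := r4_in M12 (by simp) (by simp) (by norm_num) (by norm_num)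
  have I21 : IN SQ (-1, 1) (1, -1) := r4_in M21 (by simp) (by simp) (by norm_num) (by norm_num)
  have I22 : IN SQ (-1, -1) (1, 1) := r4_in M22 (by simp) (by simp) (by norm_num) (by norm_num)
  have N11 : -((1, 1) : E) = (-1, -1) := by ext <;> simp
  have N12 : -((1, -1) : E) = (-1, 1) := by ext <;> simp
  have N21 : -((-1, 1) : E) = (1, -1) := by ext <;> simp
  have N22 : -((-1, -1) : E) = (1, 1) := by ext <;> simp
  have hp0 := H.f0 _ M11
  have hq0 := H.f0 _ M12
  have prod : ∀ x ∈ SQ, x.1 * x.2 ≤ 1 ∧ -1 ≤ x.1 * x.2 := by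
    intro x hx
    have : |x.1 * x.2| ≤ 1 := by
      rw [abs_mul]; exact mul_le_one₀ hx.1 (abs_nonneg _) hx.2
    have := abs_le.1 this
    exact ⟨this.2, this.1⟩
  -- the case of one rim vertex
  by_cases hv1 : f (1, 1) = 0
  · have hq : 0 < f (1, -1) := by
      rcases h with h | h
      · linarith
      · exact h
    left
    set D : ℝ → List (E × ℝ) := fun ε => [((-1, 1), 1 / ε), ((-1, 1), -(1 / ε)),
      ((1, -1), 1 / ε), ((1, -1), -(1 / ε)), ((-1, -1), 0), ((1, 1), 0)] with hDdef
    refine good7_of_loc H D (fun ε => by simp [hDdef]) ?_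
    intro x hx
    by_cases h1 : x = (1, 1)
    · subst h1
      exact r4_flat H hx (by rw [hv1]; exact H.pos) (by rw [N11]; exact I11) D
        (fun ε => by rw [N11]; simp [hDdef])
    by_cases h3 : x = (-1, -1)
    · subst h3
      exact r4_flat H hx (by rw [E3, hv1]; exact H.pos) (by rw [N22]; exact I22) D
        (fun ε => by rw [N22]; simp [hDdef])
    have hpos : ∀ z ∈ SQ, z ≠ (1, 1) → z ≠ (-1, -1) → 0 < f z := by
      intro z hz hz1 hz3
      have hb := r4_bil H hz
      rw [hv1, mul_zero, zero_add] at hb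
      have hz1' := abs_le.1 hz.1
      have hz2' := abs_le.1 hz.2
      have hlt : z.1 * z.2 < 1 := by
        rcases lt_or_eq_of_le (prod z hz).1 with h | h
        · exact h
        · exfalso
          have k1 : (z.1 - z.2) ^ 2 ≤ 0 := by nlinarith
          have k2 : z.1 = z.2 := by nlinarith [sq_nonneg (z.1 - z.2)]
          rw [k2] at h
          have k3 : (z.2 - 1) * (z.2 + 1) = 0 := by linarith
          rcases mul_eq_zero.1 k3 with k | k
          · exact hz1 (Prod.ext (by rw [k2]; simp only; linarith) (by simp only; linarith))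
          · exact hz3 (Prod.ext (by rw [k2]; simp only; linarith) (by simp only; linarith))
      have : 0 < (1 - z.1 * z.2) / 2 * f (1, -1) := mul_pos (by linarith) hq
      linarith
    have hn1 : 0 < ‖(1, 1) - x‖ := norm_pos_iff.2 (sub_ne_zero.2 (Ne.symm h1))
    have hn3 : 0 < ‖(-1, -1) - x‖ := norm_pos_iff.2 (sub_ne_zero.2 (Ne.symm h3))
    have hpos' : ∀ z ∈ SQ, ‖z - x‖ < min ‖(1, 1) - x‖ ‖(-1, -1) - x‖ → 0 < f z := by
      intro z hz hzx
      refine hpos z hz ?_ ?_
      · rintro rfl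
        exact lt_irrefl _ (hzx.trans_le (min_le_left _ _))
      · rintro rfl
        exact lt_irrefl _ (hzx.trans_le (min_le_right _ _))
    have hx1 := abs_le.1 hx.1
    have hx2 := abs_le.1 hx.2
    by_cases c : -x.1 < 1 ∧ x.2 < 1
    · have k : IN SQ x (-1, 1) := r4_in hx (by simp) (by simp) (by linarith [c.1])
        (by linarith [c.2])
      exact r4_steep H hx k D
        (fun ε => by simp [hDdef]) (fun ε => by simp [hDdef]) (lt_min hn1 hn3) hpos'
    · have c' : x.1 < 1 ∧ -x.2 < 1 := by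
        constructor
        · by_contra hcon
          have k1 : x.1 = 1 := by linarith
          apply c
          refine ⟨by linarith, lt_of_le_of_ne hx2.2 fun k2 => h1 (Prod.ext k1 k2)⟩
        · by_contra hcon
          have k1 : x.2 = -1 := by linarith
          apply c
          refine ⟨?_, by linarith⟩
          refine lt_of_le_of_ne (by linarith) fun k2 => h3 (Prod.ext (by simp only; linarith) k1)
      have k : IN SQ x (1, -1) := r4_in hx (by simp) (by simp) (by linarith [c'.1])
        (by linarith [c'.2])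
      exact r4_steep H hx k D
        (fun ε => by simp [hDdef]) (fun ε => by simp [hDdef]) (lt_min hn1 hn3) hpos'
  by_cases hv2 : f (1, -1) = 0
  · have hq : 0 < f (1, 1) := lt_of_le_of_ne hp0 (Ne.symm hv1)
    left
    set D : ℝ → List (E × ℝ) := fun ε => [((-1, -1), 1 / ε), ((-1, -1), -(1 / ε)),
      ((1, 1), 1 / ε), ((1, 1), -(1 / ε)), ((-1, 1), 0), ((1, -1), 0)] with hDdef
    refine good7_of_loc H D (fun ε => by simp [hDdef]) ?_
    intro x hx
    by_cases h1 : x = (1, -1)
    · subst h1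
      exact r4_flat H hx (by rw [hv2]; exact H.pos) (by rw [N12]; exact I12) D
        (fun ε => by rw [N12]; simp [hDdef])
    by_cases h3 : x = (-1, 1)
    · subst h3
      exact r4_flat H hx (by rw [E4, hv2]; exact H.pos) (by rw [N21]; exact I21) D
        (fun ε => by rw [N21]; simp [hDdef])
    have hpos : ∀ z ∈ SQ, z ≠ (1, -1) → z ≠ (-1, 1) → 0 < f z := by
      intro z hz hz1 hz3
      have hb := r4_bil H hz
      rw [hv2, mul_zero, add_zero] at hb
      have hz1' := abs_le.1 hz.1
      have hz2' := abs_le.1 hz.2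
      have hlt : -1 < z.1 * z.2 := by
        rcases lt_or_eq_of_le (prod z hz).2 with h | h
        · exact h
        · exfalso
          have k1 : (z.1 + z.2) ^ 2 ≤ 0 := by nlinarith
          have k2 : z.1 = -z.2 := by nlinarith [sq_nonneg (z.1 + z.2)]
          rw [k2] at h
          have k3 : (z.2 - 1) * (z.2 + 1) = 0 := by linarith
          rcases mul_eq_zero.1 k3 with k | k
          · exact hz3 (Prod.ext (by rw [k2]; simp only; linarith) (by simp only; linarith))
          · exact hz1 (Prod.ext (by rw [k2]; simp only; linarith) (by simp only; linarith))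
      have : 0 < (1 + z.1 * z.2) / 2 * f (1, 1) := mul_pos (by linarith) hq
      linarith
    have hn1 : 0 < ‖(1, -1) - x‖ := norm_pos_iff.2 (sub_ne_zero.2 (Ne.symm h1))
    have hn3 : 0 < ‖(-1, 1) - x‖ := norm_pos_iff.2 (sub_ne_zero.2 (Ne.symm h3))
    have hpos' : ∀ z ∈ SQ, ‖z - x‖ < min ‖(1, -1) - x‖ ‖(-1, 1) - x‖ → 0 < f z := by
      intro z hz hzx
      refine hpos z hz ?_ ?_
      · rintro rfl
        exact lt_irrefl _ (hzx.trans_le (min_le_left _ _))
      · rintro rfl
        exact lt_irrefl _ (hzx.trans_le (min_le_right _ _))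
    have hx1 := abs_le.1 hx.1
    have hx2 := abs_le.1 hx.2
    by_cases c : -x.1 < 1 ∧ -x.2 < 1
    · have k : IN SQ x (-1, -1) := r4_in hx (by simp) (by simp) (by linarith [c.1])
        (by linarith [c.2])
      exact r4_steep H hx k D
        (fun ε => by simp [hDdef]) (fun ε => by simp [hDdef]) (lt_min hn1 hn3) hpos'
    · have c' : x.1 < 1 ∧ x.2 < 1 := by
        constructor
        · by_contra hcon
          have k1 : x.1 = 1 := by linarith
          apply c
          refine ⟨by linarith, lt_of_le_of_ne (by linarith) fun k2 => h1 (Prod.ext k1 (by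
            simp only; linarith))⟩
        · by_contra hcon
          have k1 : x.2 = 1 := by linarith
          apply c
          refine ⟨?_, by linarith⟩
          refine lt_of_le_of_ne (by linarith) fun k2 => h3 (Prod.ext (by simp only; linarith) k1)
      have k : IN SQ x (1, 1) := r4_in hx (by simp) (by simp) (by linarith [c'.1])
        (by linarith [c'.2])
      exact r4_steep H hx k D
        (fun ε => by simp [hDdef]) (fun ε => by simp [hDdef]) (lt_min hn1 hn3) hpos'
  -- both positive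
  have hp : 0 < f (1, 1) := lt_of_le_of_ne hp0 (Ne.symm hv1)
  have hq : 0 < f (1, -1) := lt_of_le_of_ne hq0 (Ne.symm hv2)
  have hpos : ∀ z ∈ SQ, 0 < f z := by
    intro z hz
    have hb := r4_bil H hz
    obtain ⟨k1, k2⟩ := prod z hz
    have k3 : 0 ≤ (1 + z.1 * z.2) / 2 := by linarith
    have k4 : 0 ≤ (1 - z.1 * z.2) / 2 := by linarith
    have k5 := mul_nonneg k3 hp.le
    have k6 := mul_nonneg k4 hq.le
    rcases le_or_gt (z.1 * z.2) 0 with k | k
    · have : 0 < (1 - z.1 * z.2) / 2 * f (1, -1) := mul_pos (by linarith) hq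
      linarith
    · have : 0 < (1 + z.1 * z.2) / 2 * f (1, 1) := mul_pos (by linarith) hp
      linarith
  have hl1 := H.le0 M11
  have hl2 := H.le0 M12
  rcases lt_or_eq_of_le hl1 with hl1 | hl1
  · left
    set D : ℝ → List (E × ℝ) := fun ε => [((-1, -1), 0), ((-1, 1), 1 / ε), ((-1, 1), -(1 / ε)),
      ((1, 1), 1 / ε), ((1, 1), -(1 / ε)), ((1, -1), 1 / ε), ((1, -1), -(1 / ε))] with hDdef
    refine good7_of_loc H D (fun ε => by simp [hDdef]) ?_
    intro x hx
    by_cases h1 : x = (1, 1)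
    · subst h1
      exact r4_flat H hx hl1 (by rw [N11]; exact I11) D (fun ε => by rw [N11]; simp [hDdef])
    have hx1 := abs_le.1 hx.1
    have hx2 := abs_le.1 hx.2
    have hin : IN SQ x (-1, 1) ∨ IN SQ x (1, 1) ∨ IN SQ x (1, -1) := by
      rcases lt_or_eq_of_le hx1.2 with a | a
      · rcases lt_or_eq_of_le hx2.2 with b | b
        · exact Or.inr (Or.inl (r4_in hx (by simp) (by simp) (by linarith) (by linarith)))
        · exact Or.inr (Or.inr (r4_in hx (by simp) (by simp) (by linarith) (by linarith)))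
      · have b : x.2 < 1 := lt_of_le_of_ne hx2.2 fun b => h1 (Prod.ext a b)
        exact Or.inl (r4_in hx (by simp) (by simp) (by linarith) (by linarith))
    rcases hin with k | k | k
    · exact r4_steep H hx k D (fun ε => by simp [hDdef]) (fun ε => by simp [hDdef]) one_pos
        (fun z hz _ => hpos z hz)
    · exact r4_steep H hx k D (fun ε => by simp [hDdef]) (fun ε => by simp [hDdef]) one_pos
        (fun z hz _ => hpos z hz)
    · exact r4_steep H hx k D (fun ε => by simp [hDdef]) (fun ε => by simp [hDdef]) one_pos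
        (fun z hz _ => hpos z hz)
  rcases lt_or_eq_of_le hl2 with hl2 | hl2
  · left
    set D : ℝ → List (E × ℝ) := fun ε => [((-1, 1), 0), ((-1, -1), 1 / ε), ((-1, -1), -(1 / ε)),
      ((1, 1), 1 / ε), ((1, 1), -(1 / ε)), ((1, -1), 1 / ε), ((1, -1), -(1 / ε))] with hDdef
    refine good7_of_loc H D (fun ε => by simp [hDdef]) ?_
    intro x hx
    by_cases h1 : x = (1, -1)
    · subst h1
      exact r4_flat H hx hl2 (by rw [N12]; exact I12) D (fun ε => by rw [N12]; simp [hDdef])
    have hx1 := abs_le.1 hx.1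
    have hx2 := abs_le.1 hx.2
    have hin : IN SQ x (-1, -1) ∨ IN SQ x (1, 1) ∨ IN SQ x (1, -1) := by
      rcases lt_or_eq_of_le hx1.2 with a | a
      · rcases lt_or_eq_of_le hx2.2 with b | b
        · exact Or.inr (Or.inl (r4_in hx (by simp) (by simp) (by linarith) (by linarith)))
        · exact Or.inr (Or.inr (r4_in hx (by simp) (by simp) (by linarith) (by linarith)))
      · have b : -x.2 < 1 := lt_of_le_of_ne (by linarith) fun b => h1 (Prod.ext a (by
          simp only; linarith))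
        exact Or.inl (r4_in hx (by simp) (by simp) (by linarith) (by linarith))
    rcases hin with k | k | k
    · exact r4_steep H hx k D (fun ε => by simp [hDdef]) (fun ε => by simp [hDdef]) one_pos
        (fun z hz _ => hpos z hz)
    · exact r4_steep H hx k D (fun ε => by simp [hDdef]) (fun ε => by simp [hDdef]) one_pos
        (fun z hz _ => hpos z hz)
    · exact r4_steep H hx k D (fun ε => by simp [hDdef]) (fun ε => by simp [hDdef]) one_pos
        (fun z hz _ => hpos z hz)
  right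
  intro x hx
  have hb := r4_bil H hx
  rw [hl1, hl2] at hb
  have := H.le0 hx
  linarith

end Pool.Agent.Lib.MP_5e7226_co.CM
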