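import Pool.Agent.Lib.MP_5e7226_co.CM.Planar
import Pool.Agent.Lib.MP_5e7226_co.CM.CaseA
import Pool.Agent.Lib.MP_5e7226_co.CM.SqB
import Pool.Agent.Lib.MP_5e7226_co.CM.B3b
import Pool.Agent.Lib.MP_5e7226_co.CM.B3d

/-! Row R11 (helper44). -/

set_option autoImplicit false

open Set Filter Topology

namespace Pool.Agent.Lib.MP_5e7226_co.CM

open PS

theorem mem_SQ {s t : ℝ} (hs : |s| ≤ 1) (ht : |t| ≤ 1) : ((s, t) : E) ∈ SQ := ⟨hs, ht⟩

theorem main_sq {g : E → ℝ} (H : EF SQ g) : Good7 SQ g ∨ (∀ x ∈ SQ, g x = g 0) ∨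
    (∀ x ∈ SQ, g x = g 0 * (1 - |x.2|)) ∨ ∀ x ∈ SQ, g x = g 0 * (1 - |x.1|) := by
  by_cases hpos : 0 < g (1, 1) ∨ 0 < g (1, -1)
  · rcases sqB H hpos with h | h
    · exact Or.inl h
    · exact Or.inr (Or.inl h)
  push Not at hpos
  have m1 : ((1, 1) : E) ∈ SQ := mem_SQ (by norm_num) (by norm_num)
  have m2 : ((1, -1) : E) ∈ SQ := mem_SQ (by norm_num) (by norm_num)
  have h1 : g (1, 1) = 0 := le_antisymm hpos.1 (H.f0 _ m1)
  have h2 : g (1, -1) = 0 := le_antisymm hpos.2 (H.f0 _ m2)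
  by_cases hb1 : ∃ t : ℝ, |t| < 1 ∧ g (1, t) ≠ g 0 * (1 - |t|)
  · by_cases hb4 : ∃ s : ℝ, |s| < 1 ∧ g (s, -1) ≠ g 0 * (1 - |s|)
    · exact Or.inl (b3a H h1 h2 hb1 hb4)
    · push Not at hb4
      have e0 : (fun x : E => g (-x.2, -x.1)) 0 = g 0 := by
        show g (-(0 : E).2, -(0 : E).1) = g 0
        simp only [Prod.snd_zero, Prod.fst_zero, neg_zero]
        rfl
      have k1 : g (-1, -1) = 0 := by
        rw [← h1, ← H.even _ m1]; simp
      have hs1 : ∀ t : ℝ, |t| < 1 →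
          (fun x : E => g (-x.2, -x.1)) (1, t) = (fun x : E => g (-x.2, -x.1)) 0 * (1 - |t|) := by
        intro t ht
        rw [e0]
        show g (-t, -1) = _
        rw [hb4 (-t) (by rwa [abs_neg]), abs_neg]
      have hs4 : ∃ s : ℝ, |s| < 1 ∧
          (fun x : E => g (-x.2, -x.1)) (s, -1) ≠ (fun x : E => g (-x.2, -x.1)) 0 * (1 - |s|) := by
        obtain ⟨t, ht, hne⟩ := hb1
        refine ⟨-t, by rwa [abs_neg], ?_⟩
        rw [e0]
        show g (- -1, - -t) ≠ _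
        rw [neg_neg, neg_neg, abs_neg]
        exact hne
      rcases b3b H.swap (by show g (-1, -1) = 0; exact k1)
        (by show g (- -1, -1) = 0; rw [neg_neg]; exact h2) hs1 hs4 with h | h
      · exact Or.inl h.of_swap
      · refine Or.inr (Or.inr (Or.inr fun x hx => ?_))
        have h3 := h ((-x.2, -x.1) : E) ⟨by rw [abs_neg]; exact hx.2, by rw [abs_neg]; exact hx.1⟩
        have e0' : g (-(0 : E).2, -(0 : E).1) = g 0 := e0
        rw [e0'] at h3
        simp only [neg_neg, abs_neg] at h3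
        exact h3
  · push Not at hb1
    by_cases hb4 : ∃ s : ℝ, |s| < 1 ∧ g (s, -1) ≠ g 0 * (1 - |s|)
    · rcases b3b H h1 h2 hb1 hb4 with h | h
      · exact Or.inl h
      · exact Or.inr (Or.inr (Or.inl h))
    · push Not at hb4
      exact Or.inl (b3d H h1 h2 hb1 hb4)

theorem main7 {B : Set E} {f : E → ℝ} (H : EF B f) : Good7 B f ∨ ParF B f := by
  rcases planar H.conv H.cpt H.zero H.neg with h3 | ⟨v, w, hli, hB⟩
  · exact Or.inl (caseA7 H h3)
  obtain ⟨e, he, hs⟩ := exists_sq hli hB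
  have HG : EF SQ (fun x => f (e.symm x)) := he ▸ H.map e
  have h0 : f (e.symm 0) = f 0 := by rw [map_zero]
  have hval : ∀ {s t : ℝ}, f (e.symm (s, t)) = f (s • v + t • w) := by
    intro s t; rw [hs]
  rcases main_sq HG with h | h | h | h
  · exact Or.inl (Good7.of_map e (he.symm ▸ h))
  · refine Or.inr ⟨v, w, hli, hB, Or.inl fun s t h1 h2 => ?_⟩
    rw [← hval, h _ (mem_SQ h1 h2), h0]
  · refine Or.inr ⟨v, w, hli, hB, Or.inr fun s t h1 h2 => ?_⟩
    rw [← hval, h _ (mem_SQ h1 h2), h0]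
  · refine Or.inr ⟨w, v, LinearIndependent.pair_symm_iff.1 hli, ?_, Or.inr fun s t h1 h2 => ?_⟩
    · rw [hB]
      ext x
      constructor
      · rintro ⟨s, t, h1, h2, rfl⟩
        exact ⟨t, s, h2, h1, add_comm _ _⟩
      · rintro ⟨s, t, h1, h2, rfl⟩
        exact ⟨t, s, h2, h1, add_comm _ _⟩
    · rw [add_comm, ← hval, h _ (mem_SQ h2 h1), h0]

end Pool.Agent.Lib.MP_5e7226_co.CM
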