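import Pool.Agent.Lib.MP_5e7226_co.CM.SqP
import Pool.Agent.Lib.MP_5e7226_co.CM.LinB
import Pool.Agent.Lib.MP_5e7226_co.CM.CaseA

/-! A mirror and nothing else: the top of the tree (helper25). -/

set_option autoImplicit false

open Set Filter Topology

namespace Pool.Agent.Lib.MP_5e7226_co.CM

open PS

variable {B : Set E} {f : E → ℝ}

/-- `B` is a parallelogram with centre `o` and the body is a parallelepiped. -/
def ParG (B : Set E) (f : E → ℝ) : Prop :=
  ∃ o v w : E, LinearIndependent ℝ ![v, w] ∧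
    B = {x | ∃ s t : ℝ, |s| ≤ 1 ∧ |t| ≤ 1 ∧ x = o + (s • v + t • w)} ∧
    ((∀ s t : ℝ, |s| ≤ 1 → |t| ≤ 1 → f (o + (s • v + t • w)) = f o) ∨
      (∀ s t : ℝ, |s| ≤ 1 → |t| ≤ 1 → f (o + (s • v + t • w)) = f o * (1 - |t|)))

/-! ### change of coordinates -/

theorem g_map (H : PP B f f) (e : E ≃ₗ[ℝ] E) :
    PP (e '' B) (fun x => f (e.symm x)) (fun x => f (e.symm x)) := by
  have hconv : Convex ℝ (e '' B) := H.conv.linear_image e.toLinearMap
  have hconc : ConcaveOn ℝ (e '' B) (fun x => f (e.symm x)) := by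
    refine ⟨hconv, fun x hx y hy a b ha hb hab => ?_⟩
    have := H.fconc.2 (r3a_mem e hx) (r3a_mem e hy) ha hb hab
    simpa only [map_add, map_smul] using this
  have husc : UpperSemicontinuousOn (fun x => f (e.symm x)) (e '' B) := by
    intro x hx c hc
    have h1 : ∀ᶠ y in 𝓝[B] (e.symm x), f y < c := H.fusc (e.symm x) (r3a_mem e hx) c hc
    have h2 : Tendsto (fun z => e.symm z) (𝓝[e '' B] x) (𝓝[B] (e.symm x)) :=
      ((r3a_cont e.symm).continuousWithinAt).tendsto_nhdsWithin fun z hz => r3a_mem e hz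
    exact h2.eventually h1
  have hpos : ∀ x ∈ interior (e '' B), 0 < f (e.symm x) := fun x hx =>
    H.fpos _ (r3a_mem_int e hx)
  have h0 : ∀ x ∈ e '' B, 0 ≤ f (e.symm x) := fun x hx => H.f0 _ (r3a_mem e hx)
  exact
    { conv := hconv
      cpt := H.cpt.image (r3a_cont e)
      int := by
        rw [r3a_int]
        exact H.int.image e
      fconc := hconc
      hconc := hconc
      fusc := husc
      husc := husc
      f0 := h0
      h0 := h0
      fpos := hpos
      hpos := hpos }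

theorem g_tint (o : E) (B : Set E) : interior ((fun x : E => x + o) ⁻¹' B) =
    (fun x : E => x + o) ⁻¹' interior B :=
  ((Homeomorph.addRight o).preimage_interior B).symm

theorem g_trans (H : PP B f f) (o : E) :
    PP ((fun x : E => x + o) ⁻¹' B) (fun x => f (x + o)) (fun x => f (x + o)) := by
  have hconv : Convex ℝ ((fun x : E => x + o) ⁻¹' B) := H.conv.translate_preimage_left o
  have hconc : ConcaveOn ℝ ((fun x : E => x + o) ⁻¹' B) (fun x => f (x + o)) := by
    refine ⟨hconv, fun x hx y hy a b ha hb hab => ?_⟩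
    have h1 := H.fconc.2 (x := x + o) (y := y + o) hx hy ha hb hab
    have e1 : a • (x + o) + b • (y + o) = a • x + b • y + o := by
      have h5 : a • o + b • o = o := by rw [← add_smul, hab, one_smul]
      have h6 : a • (x + o) + b • (y + o) = a • x + b • y + (a • o + b • o) := by
        rw [smul_add, smul_add]; abel
      rw [h6, h5]
    rw [e1] at h1
    exact h1
  have husc : UpperSemicontinuousOn (fun x => f (x + o)) ((fun x : E => x + o) ⁻¹' B) := by
    intro x hx c hc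
    have h1 : ∀ᶠ y in 𝓝[B] (x + o), f y < c := H.fusc (x + o) hx c hc
    have h2 : Tendsto (fun z : E => z + o) (𝓝[(fun x : E => x + o) ⁻¹' B] x) (𝓝[B] (x + o)) :=
      ((continuous_id.add continuous_const).continuousWithinAt).tendsto_nhdsWithin
        fun z hz => hz
    exact h2.eventually h1
  have hpos : ∀ x ∈ interior ((fun x : E => x + o) ⁻¹' B), 0 < f (x + o) := fun x hx => by
    rw [g_tint] at hx
    exact H.fpos _ hx
  have h0 : ∀ x ∈ (fun x : E => x + o) ⁻¹' B, 0 ≤ f (x + o) := fun x hx => H.f0 _ hx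
  exact
    { conv := hconv
      cpt := (Homeomorph.addRight o).isCompact_preimage.2 H.cpt
      int := by
        rw [g_tint]
        obtain ⟨c, hc⟩ := H.int
        exact ⟨c - o, by simpa using hc⟩
      fconc := hconc
      hconc := hconc
      fusc := husc
      husc := husc
      f0 := h0
      h0 := h0
      fpos := hpos
      hpos := hpos }

theorem g_tIN (o : E) {x v : E} (h : IN ((fun x : E => x + o) ⁻¹' B) (x - o) v) :
    IN B x v := by
  obtain ⟨t, ht, h1⟩ := h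
  refine ⟨t, ht, ?_⟩
  rw [g_tint] at h1
  have e1 : x - o + t • v + o = x + t • v := by abel
  simpa only [mem_preimage, e1] using h1

theorem g_tUP (o : E) {x v : E} {w : ℝ}
    (h : UP ((fun x : E => x + o) ⁻¹' B) (fun x => f (x + o)) (x - o) v w) :
    UP B f x v w := by
  obtain ⟨t, ht, h1, h2⟩ := h
  have e1 : x - o + t • v + o = x + t • v := by abel
  refine ⟨t, ht, ?_, ?_⟩
  · simpa only [mem_preimage, e1] using h1
  · simpa only [e1, sub_add_cancel] using h2

theorem g_of_trans (o : E) (h : Good7 ((fun x : E => x + o) ⁻¹' B) (fun x => f (x + o))) :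
    Good7 B f := by
  obtain ⟨D, hD, hc⟩ := h
  refine ⟨D, hD, fun x hx => ?_⟩
  rcases hc (x - o) (by simpa using hx) with
    ⟨d, hd, h1, h2, h3⟩ | ⟨h0, ⟨d, hd, h1, h2⟩, d', hd', h3, h4⟩
  · exact Or.inl ⟨d, hd, g_tIN o h1, g_tUP o h2, g_tUP o h3⟩
  · exact Or.inr ⟨by simpa using h0, ⟨d, hd, g_tIN o h1, g_tUP o h2⟩, d', hd',
      g_tIN o h3, g_tUP o h4⟩

/-! ### `B` is not a parallelogram -/

theorem caseA7g (H : PP B f f)
    (h3 : ∃ b₁ b₂ b₃ : E, ∀ x ∈ B, IN B x b₁ ∨ IN B x b₂ ∨ IN B x b₃)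
    (ho : (∀ x ∈ B, f x ≠ 0) ∨ ∃ P, PSet B f f P ∧ f P = 0) : Good7 B f := by
  obtain ⟨b₁, b₂, b₃, hb⟩ := h3
  rcases ho with ho | ⟨P, ⟨y, l, k, u, v, O, hy⟩, hP0⟩
  · set D : ℝ → List (E × ℝ) := fun ε => [(b₁, 1 / ε), (b₁, -(1 / ε)), (b₂, 1 / ε),
      (b₂, -(1 / ε)), (b₃, 1 / ε), (b₃, -(1 / ε))] with hDdef
    have hpos : ∀ z ∈ B, 0 < f z := fun z hz => lt_of_le_of_ne (H.f0 z hz) (Ne.symm (ho z hz))
    refine g7_of_loc H.toPF D (fun ε => by simp [hDdef]) ?_
    intro x hx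
    rcases hb x hx with h1 | h1 | h1
    · exact g7_steep H.toPF hx h1 D (fun ε => by simp [hDdef]) (fun ε => by simp [hDdef])
        one_pos (fun z hz _ => hpos z hz)
    · exact g7_steep H.toPF hx h1 D (fun ε => by simp [hDdef]) (fun ε => by simp [hDdef])
        one_pos (fun z hz _ => hpos z hz)
    · exact g7_steep H.toPF hx h1 D (fun ε => by simp [hDdef]) (fun ε => by simp [hDdef])
        one_pos (fun z hz _ => hpos z hz)
  · have hP : Rim f f P := ⟨hP0, hP0⟩
    set D : ℝ → List (E × ℝ) := fun ε => steep u v ε ++ [(b₁, 0), (b₂, 0), (b₃, 0)] with hDdef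
    have hrim : ∀ ε, ∀ z ∈ B, Rim f f z → ∃ d ∈ D ε, Full B f f z d.1 d.2 := by
      intro ε z hz hr
      rcases hb z hz with h1 | h1 | h1
      · exact ⟨(b₁, 0), by simp [hDdef], full_rim' H hr h1⟩
      · exact ⟨(b₂, 0), by simp [hDdef], full_rim' H hr h1⟩
      · exact ⟨(b₃, 0), by simp [hDdef], full_rim' H hr h1⟩
    have hloc : ∀ x ∈ B, Rim f f x → ∃ r : ℝ, 0 < r ∧ ∀ z ∈ B, ‖z - x‖ < r → ∀ ε : ℝ, 0 < ε →
        ε < r → Cov B f f (D ε) z := by
      intro x hx hr
      rcases hb x hx with h1 | h1 | h1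
      · exact loc_cov H hx hr h1 _ (fun ε => by simp [hDdef])
      · exact loc_cov H hx hr h1 _ (fun ε => by simp [hDdef])
      · exact loc_cov H hx hr h1 _ (fun ε => by simp [hDdef])
    refine g7_of_loc H.toPF D (fun ε => by simp [hDdef, steep]) ?_
    intro x hx
    by_cases h1 : x = y
    · rw [h1]
      exact hloc y O.ymem hy
    by_cases h2 : x = P
    · rw [h2]
      exact hloc P O.Pmem hP
    obtain ⟨r, hr, hh⟩ := steep_cov H.toPF O hx h1 h2
    refine ⟨r, hr, fun z hz hzx ε hε hεr => ?_⟩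
    apply cov_of H.toPF hz (hrim ε z hz)
    intro _
    obtain ⟨⟨d, hd, a⟩, ⟨d', hd', a'⟩⟩ := hh z hz hzx ε hε hεr
    exact ⟨⟨d, List.mem_append_left _ hd, a⟩, ⟨d', List.mem_append_left _ hd', a'⟩⟩

/-- one direction of the plane lights the whole rim -/
theorem caseOne (H : PP B f f) {P b : E} (hP : PSet B f f P)
    (hb : ∀ z ∈ B, f z = 0 → IN B z b) : Good7 B f := by
  obtain ⟨y, l, k, u, v, O, hy⟩ := hP
  obtain ⟨c, hc⟩ := H.int
  set D : ℝ → List (E × ℝ) := fun ε => steep u v ε ++ [(b, 0), (c - P, 1 / ε),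
    (c - P, -(1 / ε))] with hDdef
  have hrim : ∀ ε, ∀ z ∈ B, Rim f f z → ∃ d ∈ D ε, Full B f f z d.1 d.2 := fun ε z hz hr =>
    ⟨(b, 0), by simp [hDdef], full_rim' H hr (hb z hz hr.1)⟩
  refine g7_of_loc H.toPF D (fun ε => by simp [hDdef, steep]) ?_
  intro x hx
  by_cases h1 : x = y
  · rw [h1]
    exact loc_cov H O.ymem hy (hb y O.ymem hy.1) _ (fun ε => by simp [hDdef])
  by_cases h2 : x = P
  · rw [h2]
    obtain ⟨r, hr, hh⟩ := steep_fixed H.toPF O.Pmem (in_center H.toPF (x := P) hc)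
    refine ⟨r, hr, fun z hz hzx ε hε hεr => ?_⟩
    apply cov_of H.toPF hz (hrim ε z hz)
    intro _
    obtain ⟨a1, a2, a3⟩ := hh z hz hzx ε hε hεr
    exact ⟨⟨(c - P, -(1 / ε)), by simp [hDdef], a1, a2⟩, ⟨(c - P, 1 / ε), by simp [hDdef],
      a1, a3⟩⟩
  obtain ⟨r, hr, hh⟩ := steep_cov H.toPF O hx h1 h2
  refine ⟨r, hr, fun z hz hzx ε hε hεr => ?_⟩
  apply cov_of H.toPF hz (hrim ε z hz)
  intro _
  obtain ⟨⟨d, hd, a⟩, ⟨d', hd', a'⟩⟩ := hh z hz hzx ε hε hεr
  exact ⟨⟨d, List.mem_append_left _ hd, a⟩, ⟨d', List.mem_append_left _ hd', a'⟩⟩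

/-- from a rim point to a point of `PSet` -/
theorem exists_PSet' (H : PP B f f) (hR : ∃ z ∈ B, f z = 0) : ∃ P, PSet B f f P := by
  obtain ⟨z, hz, h0⟩ := hR
  obtain ⟨l, hl, hm⟩ := exists_support H hz ⟨h0, h0⟩
  obtain ⟨P, hP, _⟩ := exists_PSet H.toPF hz ⟨h0, h0⟩ hl hm
  exact ⟨P, hP⟩

/-! ### the square -/

/-- the reflection `(s, t) ↦ (s, -t)` -/
noncomputable def g_rf : E ≃ₗ[ℝ] E := (LinearEquiv.refl ℝ ℝ).prodCongr (LinearEquiv.neg ℝ)

theorem g_rf_apply (x : E) : g_rf x = (x.1, -x.2) := rfl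

theorem g_rf_symm (x : E) : g_rf.symm x = (x.1, -x.2) := by
  rw [LinearEquiv.symm_apply_eq, g_rf_apply]
  simp

theorem g_rf_SQ : g_rf '' SQ = SQ := by
  ext x
  constructor
  · rintro ⟨y, ⟨h1, h2⟩, rfl⟩
    rw [g_rf_apply]
    exact ⟨by simpa using h1, by simpa using h2⟩
  · rintro ⟨h1, h2⟩
    refine ⟨(x.1, -x.2), ⟨by simpa using h1, by simpa using h2⟩, ?_⟩
    rw [g_rf_apply]
    simp

/-- the first of two opposite corners of the square is a vertex -/
theorem g_vertex {y P u v : E} {l k : E →ₗ[ℝ] ℝ} (O : Opp SQ y P l k u v) :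
    (y.1 = 1 ∨ y.1 = -1) ∧ (y.2 = 1 ∨ y.2 = -1) := by
  have key : ∀ d : E, y + d ∈ SQ → y - d ∈ SQ → d = 0 := by
    intro d h1 h2
    by_contra hne
    have a1 := O.le _ h1
    have a2 := O.le _ h2
    rw [map_add] at a1
    rw [map_sub] at a2
    have a3 : l d = 0 := by linarith
    have b1 := O.ylt (y + d) h1 (by rw [map_add, a3, add_zero]) (by simpa using hne)
    have b2 := O.ylt (y - d) h2 (by rw [map_sub, a3, sub_zero]) (by simpa using hne)
    rw [map_add] at b1
    rw [map_sub] at b2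
    linarith
  have hy := O.ymem
  have hy1 := abs_le.1 hy.1
  have hy2 := abs_le.1 hy.2
  constructor
  · by_contra hcon
    push Not at hcon
    have h1 : y.1 < 1 := lt_of_le_of_ne hy1.2 hcon.1
    have h2 : -1 < y.1 := lt_of_le_of_ne hy1.1 (Ne.symm hcon.2)
    have hm : 0 < min (1 - y.1) (1 + y.1) := lt_min (by linarith) (by linarith)
    have m1 := min_le_left (1 - y.1) (1 + y.1)
    have m2 := min_le_right (1 - y.1) (1 + y.1)
    have := key (min (1 - y.1) (1 + y.1), 0)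
      ⟨by rw [abs_le]; constructor <;> simp only [Prod.fst_add] <;> linarith,
        by simpa using hy.2⟩
      ⟨by rw [abs_le]; constructor <;> simp only [Prod.fst_sub] <;> linarith,
        by simpa using hy.2⟩
    have h3 := congrArg Prod.fst this
    simp only [Prod.fst_zero] at h3
    linarith
  · by_contra hcon
    push Not at hcon
    have h1 : y.2 < 1 := lt_of_le_of_ne hy2.2 hcon.1
    have h2 : -1 < y.2 := lt_of_le_of_ne hy2.1 (Ne.symm hcon.2)
    have hm : 0 < min (1 - y.2) (1 + y.2) := lt_min (by linarith) (by linarith)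
    have m1 := min_le_left (1 - y.2) (1 + y.2)
    have m2 := min_le_right (1 - y.2) (1 + y.2)
    have := key (0, min (1 - y.2) (1 + y.2))
      ⟨by simpa using hy.1,
        by rw [abs_le]; constructor <;> simp only [Prod.snd_add] <;> linarith⟩
      ⟨by simpa using hy.1,
        by rw [abs_le]; constructor <;> simp only [Prod.snd_sub] <;> linarith⟩
    have h3 := congrArg Prod.snd this
    simp only [Prod.snd_zero] at h3
    linarith

/-- the statement of the row on the missing case -/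
def NoOpp : Prop := ∀ (B : Set E) (f : E → ℝ), PP B f f → (∃ z ∈ B, f z = 0) →
  (∀ P, PSet B f f P → ¬ Rim f f P) → Good7 B f ∨ ∃ b : E, ∀ z ∈ B, f z = 0 → IN B z b

/-- the statement of the row on the square with two opposite rim corners -/
def SqN : Prop := ∀ f : E → ℝ, PP SQ f f → f (1, 1) = 0 → f (-1, -1) = 0 →
  Good7 SQ f ∨ (∀ x ∈ SQ, f x = f 0 * (1 - |x.2|)) ∨ (∀ x ∈ SQ, f x = f 0 * (1 - |x.1|))

/-- the statement of the planar row -/
def Levi : Prop := ∀ (B : Set E) (f : E → ℝ), PF B f f →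
  (∃ b₁ b₂ b₃ : E, ∀ x ∈ B, IN B x b₁ ∨ IN B x b₂ ∨ IN B x b₃) ∨
    ∃ o v w : E, LinearIndependent ℝ ![v, w] ∧
      B = {x | ∃ s t : ℝ, |s| ≤ 1 ∧ |t| ≤ 1 ∧ x = o + s • v + t • w}

theorem g_sq (hN : NoOpp) (hS : SqN) {g : E → ℝ} (H : PP SQ g g) :
    Good7 SQ g ∨ (∀ x ∈ SQ, g x = g 0) ∨
    (∀ x ∈ SQ, g x = g 0 * (1 - |x.2|)) ∨ ∀ x ∈ SQ, g x = g 0 * (1 - |x.1|) := by
  by_cases h1 : g (1, 1) = 0 ∧ g (-1, -1) = 0
  · rcases hS g H h1.1 h1.2 with h | h | h
    · exact Or.inl h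
    · exact Or.inr (Or.inr (Or.inl h))
    · exact Or.inr (Or.inr (Or.inr h))
  by_cases h2 : g (1, -1) = 0 ∧ g (-1, 1) = 0
  · have HG := g_map H g_rf
    rw [g_rf_SQ] at HG
    simp only [g_rf_symm] at HG
    have e0 : g ((0 : E).1, -(0 : E).2) = g 0 := by
      congr 1
      ext <;> simp
    rcases hS _ HG (by show g (1, -1) = 0; exact h2.1)
      (by show g (-1, - -1) = 0; rw [neg_neg]; exact h2.2) with h | h | h
    · refine Or.inl (Good7.of_map (B := SQ) (f := g) g_rf ?_)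
      rw [g_rf_SQ]
      simpa only [g_rf_symm] using h
    · refine Or.inr (Or.inr (Or.inl fun x hx => ?_))
      have h3 := h (x.1, -x.2) ⟨hx.1, by rw [abs_neg]; exact hx.2⟩
      rw [e0] at h3
      simpa only [neg_neg, abs_neg] using h3
    · refine Or.inr (Or.inr (Or.inr fun x hx => ?_))
      have h3 := h (x.1, -x.2) ⟨hx.1, by rw [abs_neg]; exact hx.2⟩
      rw [e0] at h3
      simpa only [neg_neg] using h3
  by_cases hR : ∃ z ∈ SQ, g z = 0
  · left
    have hA : ∀ P, PSet SQ g g P → ¬ Rim g g P := by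
      rintro P ⟨y, l, k, u, v, O, hy⟩ hP
      have hneg : ∀ x ∈ SQ, -x ∈ SQ := fun x hx =>
        ⟨by simpa using hx.1, by simpa using hx.2⟩
      have e1 := r2_opp hneg O
      obtain ⟨q1, q2⟩ := g_vertex O
      obtain ⟨y1, y2⟩ := y
      simp only at q1 q2
      rw [e1] at hP
      have p1 := hy.1
      have p2 : g (-y1, -y2) = 0 := hP.1
      rcases q1 with rfl | rfl <;> rcases q2 with rfl | rfl
      · exact h1 ⟨p1, p2⟩
      · exact h2 ⟨p1, by simpa using p2⟩
      · exact h2 ⟨by simpa using p2, p1⟩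
      · exact h1 ⟨by simpa using p2, p1⟩
    rcases hN SQ g H hR hA with h | ⟨b, hb⟩
    · exact h
    · obtain ⟨P, hP⟩ := exists_PSet' H hR
      exact caseOne H hP hb
  · push Not at hR
    rcases sq_norim H (fun x hx => lt_of_le_of_ne (H.f0 x hx) (Ne.symm (hR x hx))) with h | h
    · exact Or.inl h
    · exact Or.inr (Or.inl h)

theorem main7g (hN : NoOpp) (hS : SqN) (hL : Levi) (H : PP B f f) :
    Good7 B f ∨ ParG B f := by
  rcases hL B f H.toPF with h3 | ⟨o, v, w, hli, hB⟩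
  · left
    by_cases hR : ∃ z ∈ B, f z = 0
    · by_cases hA : ∀ P, PSet B f f P → ¬ Rim f f P
      · rcases hN B f H hR hA with h | ⟨b, hb⟩
        · exact h
        · obtain ⟨P, hP⟩ := exists_PSet' H hR
          exact caseOne H hP hb
      · push Not at hA
        obtain ⟨P, hP, hr⟩ := hA
        exact caseA7g H h3 (Or.inr ⟨P, hP, hr.1⟩)
    · push Not at hR
      exact caseA7g H h3 (Or.inl hR)
  · simp only [add_assoc] at hB
    have HT := g_trans H o
    set B' : Set E := (fun x : E => x + o) ⁻¹' B with hB'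
    have hBB : B' = {x | ∃ s t : ℝ, |s| ≤ 1 ∧ |t| ≤ 1 ∧ x = s • v + t • w} := by
      ext x
      rw [hB', mem_preimage, hB]
      constructor
      · rintro ⟨s, t, h1, h2, h3⟩
        refine ⟨s, t, h1, h2, ?_⟩
        have : x + o = (s • v + t • w) + o := by rw [h3, add_comm]
        exact add_right_cancel this
      · rintro ⟨s, t, h1, h2, h3⟩
        exact ⟨s, t, h1, h2, by rw [h3, add_comm]⟩
    obtain ⟨e, he, hs⟩ := exists_sq hli hBB
    have HG := g_map HT e
    rw [he] at HG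
    have h0 : f (e.symm 0 + o) = f o := by rw [map_zero, zero_add]
    have hval : ∀ s t : ℝ, f (e.symm (s, t) + o) = f (o + (s • v + t • w)) := by
      intro s t; rw [hs, add_comm]
    have hm : ∀ {s t : ℝ}, |s| ≤ 1 → |t| ≤ 1 → ((s, t) : E) ∈ SQ := fun h1 h2 => ⟨h1, h2⟩
    rcases g_sq hN hS HG with h | h | h | h
    · left
      apply g_of_trans o
      exact Good7.of_map e (he.symm ▸ h)
    · refine Or.inr ⟨o, v, w, hli, hB, Or.inl fun s t h1 h2 => ?_⟩
      have h3 : f (e.symm (s, t) + o) = f (e.symm 0 + o) := h _ (hm h1 h2)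
      rwa [h0, hval] at h3
    · refine Or.inr ⟨o, v, w, hli, hB, Or.inr fun s t h1 h2 => ?_⟩
      have h3 : f (e.symm (s, t) + o) = f (e.symm 0 + o) * (1 - |t|) := h _ (hm h1 h2)
      rwa [h0, hval] at h3
    · refine Or.inr ⟨o, w, v, LinearIndependent.pair_symm_iff.1 hli, ?_,
        Or.inr fun s t h1 h2 => ?_⟩
      · rw [hB]
        ext x
        constructor
        · rintro ⟨s, t, h1, h2, rfl⟩
          exact ⟨t, s, h2, h1, by rw [add_comm (s • v)]⟩
        · rintro ⟨s, t, h1, h2, rfl⟩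
          exact ⟨t, s, h2, h1, by rw [add_comm (s • w)]⟩
      · have h3 : f (e.symm (t, s) + o) = f (e.symm 0 + o) * (1 - |t|) := h _ (hm h2 h1)
        rw [h0, hval] at h3
        rw [add_comm (s • w)]
        exact h3

end Pool.Agent.Lib.MP_5e7226_co.CM
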