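import Pool.Agent.Lib.MP_5e7226_co.CM.Defs
import Pool.Agent.Lib.MP_5e7226_co.Levi

/-! Row R1. Levi's theorem in the plane `E = ℝ × ℝ` for `B = -B`, through the polar body and
`levi`. -/

set_option autoImplicit false

open Set Filter Topology

namespace Pool.Agent.Lib.MP_5e7226_co.CM.R1

open PS

/-- the pairing of the plane with itself -/
def dt (x y : E) : ℝ := x.1 * y.1 + x.2 * y.2

theorem dt_comm (x y : E) : dt x y = dt y x := by unfold dt; ring

theorem dt_add (x y z : E) : dt x (y + z) = dt x y + dt x z := by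
  simp only [dt, Prod.fst_add, Prod.snd_add]; ring

theorem dt_smul (x y : E) (c : ℝ) : dt x (c • y) = c * dt x y := by
  simp only [dt, Prod.smul_fst, Prod.smul_snd, smul_eq_mul]; ring

theorem dt_neg (x y : E) : dt x (-y) = -dt x y := by
  simp only [dt, Prod.fst_neg, Prod.snd_neg]; ring

theorem dt_cont (x : E) : Continuous (fun y : E => dt x y) := by
  unfold dt; fun_prop

/-- the pairing as a functional -/
noncomputable def dtL (x : E) : E →L[ℝ] ℝ :=
  LinearMap.toContinuousLinearMap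
    { toFun := fun y => dt x y
      map_add' := fun y z => dt_add x y z
      map_smul' := fun c y => by simp [dt_smul] }

theorem dtL_apply (x y : E) : dtL x y = dt x y := rfl

theorem lin_eq (l : E →ₗ[ℝ] ℝ) (x : E) : l x = dt (l (1, 0), l (0, 1)) x := by
  have hx : x = x.1 • ((1, 0) : E) + x.2 • ((0, 1) : E) := by
    ext <;> simp
  conv_lhs => rw [hx]
  rw [map_add, map_smul, map_smul]
  simp only [dt, smul_eq_mul]
  ring

/-- the polar body -/
def pol (B : Set E) : Set E := {y | ∀ x ∈ B, dt x y ≤ 1}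

theorem pol_convex (B : Set E) : Convex ℝ (pol B) := by
  intro y hy z hz a b ha hb hab x hx
  rw [dt_add, dt_smul, dt_smul]
  have h1 := hy x hx
  have h2 := hz x hx
  nlinarith

theorem pol_closed (B : Set E) : IsClosed (pol B) := by
  have : pol B = ⋂ x ∈ B, {y | dt x y ≤ 1} := by
    ext y; simp [pol]
  rw [this]
  exact isClosed_biInter fun x _ => isClosed_le (dt_cont x) continuous_const

theorem abs_fst_le (x : E) : |x.1| ≤ ‖x‖ := by
  rw [Prod.norm_def]; exact le_max_left _ _

theorem abs_snd_le (x : E) : |x.2| ≤ ‖x‖ := by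
  rw [Prod.norm_def]; exact le_max_right _ _

theorem dt_le (x y : E) : dt x y ≤ 2 * ‖x‖ * ‖y‖ := by
  have h1 := abs_fst_le x
  have h2 := abs_snd_le x
  have h3 := abs_fst_le y
  have h4 := abs_snd_le y
  have h5 : x.1 * y.1 ≤ ‖x‖ * ‖y‖ := by
    calc x.1 * y.1 ≤ |x.1 * y.1| := le_abs_self _
      _ = |x.1| * |y.1| := abs_mul _ _
      _ ≤ ‖x‖ * ‖y‖ := mul_le_mul h1 h3 (abs_nonneg _) (norm_nonneg _)
  have h6 : x.2 * y.2 ≤ ‖x‖ * ‖y‖ := by
    calc x.2 * y.2 ≤ |x.2 * y.2| := le_abs_self _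
      _ = |x.2| * |y.2| := abs_mul _ _
      _ ≤ ‖x‖ * ‖y‖ := mul_le_mul h2 h4 (abs_nonneg _) (norm_nonneg _)
  unfold dt
  linarith

theorem pol_zero {B : Set E} (hB : IsCompact B) : (0 : E) ∈ interior (pol B) := by
  obtain ⟨R, hR⟩ := hB.isBounded.exists_norm_le
  have hR' : ∀ x ∈ B, ‖x‖ ≤ |R| + 1 := fun x hx => by
    have := hR x hx
    have := le_abs_self R
    linarith
  have hRp : 0 < |R| + 1 := by positivity
  rw [mem_interior_iff_mem_nhds]
  refine mem_of_superset (Metric.ball_mem_nhds (0 : E) (show 0 < 1 / (2 * (|R| + 1)) by positivity))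
    fun y hy x hx => ?_
  rw [mem_ball_zero_iff] at hy
  have h1 := dt_le x y
  have h2 := hR' x hx
  have h3 : ‖x‖ * ‖y‖ ≤ (|R| + 1) * (1 / (2 * (|R| + 1))) :=
    mul_le_mul h2 hy.le (norm_nonneg _) hRp.le
  have h4 : (|R| + 1) * (1 / (2 * (|R| + 1))) = 1 / 2 := by field_simp
  nlinarith

theorem pol_compact {B : Set E} (h0 : (0 : E) ∈ interior B) : IsCompact (pol B) := by
  obtain ⟨r, hr, hr'⟩ := Metric.isOpen_iff.1 isOpen_interior 0 h0
  apply Metric.isCompact_of_isClosed_isBounded (pol_closed B)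
  rw [isBounded_iff_forall_norm_le]
  refine ⟨2 / r, fun y hy => ?_⟩
  have hm : ∀ z : E, ‖z‖ < r → z ∈ B := fun z hz =>
    interior_subset (hr' (by rwa [mem_ball_zero_iff]))
  have e1 : ∀ s : ℝ, |s| = r / 2 → s * y.1 ≤ 1 := fun s hs => by
    have := hy (s, 0) (hm _ (by rw [Prod.norm_def]; simp [hs]; linarith))
    simpa [dt] using this
  have e2 : ∀ s : ℝ, |s| = r / 2 → s * y.2 ≤ 1 := fun s hs => by
    have := hy (0, s) (hm _ (by rw [Prod.norm_def]; simp [hs]; linarith))
    simpa [dt] using this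
  have habs : |r / 2| = r / 2 := abs_of_pos (by linarith)
  have habs' : |-(r / 2)| = r / 2 := by rw [abs_neg, habs]
  have a1 := e1 _ habs
  have a2 := e1 _ habs'
  have a3 := e2 _ habs
  have a4 := e2 _ habs'
  rw [Prod.norm_def]
  apply max_le
  · rw [Real.norm_eq_abs, abs_le]
    constructor
    · rw [neg_le_iff_add_nonneg, ← sub_nonneg]
      have : 0 ≤ 2 / r + y.1 := by
        rw [div_add' _ _ _ hr.ne']
        apply div_nonneg _ hr.le
        linarith
      linarith
    · rw [le_div_iff₀ hr]; linarith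
  · rw [Real.norm_eq_abs, abs_le]
    constructor
    · rw [neg_le_iff_add_nonneg, ← sub_nonneg]
      have : 0 ≤ 2 / r + y.2 := by
        rw [div_add' _ _ _ hr.ne']
        apply div_nonneg _ hr.le
        linarith
      linarith
    · rw [le_div_iff₀ hr]; linarith

variable {B : Set E} {f h : E → ℝ}

theorem zero_int (H : PF B f h) (hs : ∀ x ∈ B, -x ∈ B) : (0 : E) ∈ interior B := by
  obtain ⟨c, hc⟩ := H.int
  have h1 := H.seg_int hc (hs c (interior_subset hc)) (t := 1 / 2) (by norm_num) (by norm_num)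
  have e : (1 - 1 / 2 : ℝ) • -c + (1 / 2 : ℝ) • c = 0 := by
    rw [smul_neg]; norm_num
  rwa [e] at h1

/-- a supporting functional is positive at its point of support -/
theorem supp_pos (H : PF B f h) (h0 : (0 : E) ∈ interior B) {x : E} {l : E →ₗ[ℝ] ℝ} (hl : l ≠ 0)
    (hm : ∀ y ∈ B, l y ≤ l x) : 0 < l x := by
  have := lt_max H hl hm h0
  rwa [map_zero] at this

theorem of_sep (H : PF B f h) (h0 : (0 : E) ∈ interior B) (hS : Sep (pol B) 3) :
    ∃ a b c : E, ∀ x ∈ B, IN B x a ∨ IN B x b ∨ IN B x c := by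
  obtain ⟨w, hw⟩ := hS
  set a : Fin 3 → E := fun i => -(w i (1, 0), w i (0, 1)) with ha
  refine ⟨a 0, a 1, a 2, fun x hx => ?_⟩
  by_cases hxi : x ∈ interior B
  · exact Or.inl (H.in_of_int hxi _)
  have hx0 : x ≠ 0 := fun he => hxi (by rw [he]; exact h0)
  have hne : dtL x ≠ 0 := by
    intro he
    have h1 : dt x x = 0 := by rw [← dtL_apply, he]; rfl
    unfold dt at h1
    apply hx0
    ext
    · simp only [Prod.fst_zero]; nlinarith [mul_self_nonneg x.1, mul_self_nonneg x.2]
    · simp only [Prod.snd_zero]; nlinarith [mul_self_nonneg x.1, mul_self_nonneg x.2]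
  obtain ⟨i, hi⟩ := hw (dtL x) hne
  have hin : IN B x (a i) := by
    apply IN_of_forall H hx
    intro l hl hm
    have hpos := supp_pos H h0 hl hm
    set y : E := (1 / l x) • (l (1, 0), l (0, 1)) with hy
    have hdy : ∀ z : E, dt z y = l z / l x := fun z => by
      rw [hy, dt_smul, dt_comm, ← lin_eq]; ring
    have hyf : y ∈ face (pol B) (dtL x) := by
      refine ⟨fun z hz => ?_, fun z hz => ?_⟩
      · rw [hdy, div_le_one hpos]; exact hm z hz
      · rw [dtL_apply, dtL_apply, hdy, div_self hpos.ne']; exact hz x hx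
    have h1 := hi y hyf
    have h2 : w i y = dt (w i (1, 0), w i (0, 1)) y := lin_eq (w i : E →ₗ[ℝ] ℝ) y
    have h3 : l (a i) = -dt (w i (1, 0), w i (0, 1)) (l (1, 0), l (0, 1)) := by
      rw [lin_eq l, ha]
      simp only [dt_neg]
      rw [dt_comm]
    rw [h2, hy, dt_smul, one_div_mul_eq_div] at h1
    rw [h3, neg_lt_zero]
    by_contra hcon
    push Not at hcon
    have := div_nonpos_of_nonpos_of_nonneg hcon hpos.le
    linarith
  fin_cases i
  · exact Or.inl hin
  · exact Or.inr (Or.inl hin)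
  · exact Or.inr (Or.inr hin)

/-- bipolar theorem -/
theorem mem_of_pol (H : PF B f h) (h0 : (0 : E) ∈ interior B) {x : E}
    (hx : ∀ y ∈ pol B, dt x y ≤ 1) : x ∈ B := by
  by_contra hcon
  obtain ⟨l, u, h1, h2⟩ := geometric_hahn_banach_closed_point H.conv H.cpt.isClosed hcon
  have hu : 0 < u := by
    have := h1 0 (interior_subset h0)
    rwa [map_zero] at this
  have hle : ∀ z : E, dt z ((1 / u) • (l (1, 0), l (0, 1))) = l z / u := fun z => by
    have : l z = dt (l (1, 0), l (0, 1)) z := lin_eq (l : E →ₗ[ℝ] ℝ) z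
    rw [dt_smul, dt_comm, ← this]; ring
  have h3 := hx ((1 / u) • (l (1, 0), l (0, 1))) (fun z hz => by
    rw [hle, div_le_one hu]; exact (h1 z hz).le)
  rw [hle, div_le_one hu] at h3
  linarith

theorem of_cross (H : PF B f h) (hs : ∀ x ∈ B, -x ∈ B) (hC : CrossBody 2 (pol B)) :
    ∃ v w : E, LinearIndependent ℝ ![v, w] ∧
      B = {x | ∃ s t : ℝ, |s| ≤ 1 ∧ |t| ≤ 1 ∧ x = s • v + t • w} := by
  have h0 := zero_int H hs
  obtain ⟨b, t, ht, hL⟩ := hC
  have hneg : ∀ y ∈ pol B, -y ∈ pol B := fun y hy x hx => by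
    have := hy (-x) (hs x hx)
    rw [dt_neg]
    simp only [dt, Prod.fst_neg, Prod.snd_neg] at this ⊢
    linarith
  have hbm : ∀ i, b i ∈ pol B := fun i => by
    rw [hL]; exact subset_convexHull ℝ _ (mem_iUnion.mpr ⟨i, by simp⟩)
  have htm : ∀ i, -(t i) • b i ∈ pol B := fun i => by
    rw [hL]; exact subset_convexHull ℝ _ (mem_iUnion.mpr ⟨i, by simp⟩)
  have hgau : ∀ y ∈ pol B, gau b t y ≤ 1 := fun y hy => by
    rw [hL] at hy
    exact gau_le_one b t ht hy
  have key : ∀ (i : Fin 2) (c : ℝ), c ≤ gau b t (c • b i) := by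
    intro i c
    unfold gau
    rw [Finset.sum_eq_single i]
    · have : b.repr (c • b i) i = c := by simp
      rw [this]
      exact le_max_left _ _
    · intro j _ hj
      simp [Finsupp.single_eq_of_ne hj]
    · simp
  have key2 : ∀ (i : Fin 2) (c : ℝ), -c / t i ≤ gau b t (c • b i) := by
    intro i c
    unfold gau
    rw [Finset.sum_eq_single i]
    · have : b.repr (c • b i) i = c := by simp
      rw [this]
      exact le_max_right _ _
    · intro j _ hj
      simp [Finsupp.single_eq_of_ne hj]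
    · simp
  have ht1 : ∀ i, t i = 1 := by
    intro i
    apply le_antisymm
    · have h1 := hgau _ (hneg _ (htm i))
      rw [← neg_smul, neg_neg] at h1
      exact (key i (t i)).trans h1
    · have h1 := hgau _ (hneg _ (hbm i))
      have h2 := key2 i (-1)
      rw [neg_one_smul, neg_neg] at h2
      have h3 := h2.trans h1
      rw [div_le_one (ht i)] at h3
      exact h3
  have hB : ∀ x : E, x ∈ B ↔ |dt x (b 0)| ≤ 1 ∧ |dt x (b 1)| ≤ 1 := by
    intro x
    constructor
    · intro hx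
      have e : ∀ i, |dt x (b i)| ≤ 1 := fun i => by
        rw [abs_le]
        constructor
        · have := hneg _ (hbm i) x hx
          rw [dt_neg] at this
          linarith
        · exact hbm i x hx
      exact ⟨e 0, e 1⟩
    · rintro ⟨h1, h2⟩
      apply mem_of_pol H h0
      intro y hy
      rw [hL] at hy
      have hcv : Convex ℝ {y : E | dt x y ≤ 1} := by
        intro y hy z hz a c ha hc hac
        simp only [mem_ofPred_eq] at hy hz ⊢
        rw [dt_add, dt_smul, dt_smul]
        nlinarith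
      refine convexHull_min (fun z hz => ?_) hcv hy
      rw [mem_iUnion] at hz
      obtain ⟨i, hi⟩ := hz
      have hi' : |dt x (b i)| ≤ 1 := by
        fin_cases i
        · exact h1
        · exact h2
      rw [abs_le] at hi'
      rcases hi with rfl | hi
      · exact hi'.2
      · rw [mem_singleton_iff] at hi
        rw [hi, ht1 i]
        simp only [mem_ofPred_eq]
        rw [dt_smul]
        linarith
  -- the dual basis
  set Δ : ℝ := (b 0).1 * (b 1).2 - (b 0).2 * (b 1).1 with hΔ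
  have hΔ0 : Δ ≠ 0 := by
    intro hz
    have hli : ∀ c0 c1 : ℝ, c0 • b 0 + c1 • b 1 = 0 → c0 = 0 ∧ c1 = 0 := by
      intro c0 c1 hc
      have h1 := Fintype.linearIndependent_iff.1 b.linearIndependent ![c0, c1]
        (by rw [Fin.sum_univ_two]; simpa using hc)
      exact ⟨by simpa using h1 0, by simpa using h1 1⟩
    have a1 := hli (b 1).2 (-(b 0).2) (by
      ext
      · simp only [Prod.fst_add, Prod.smul_fst, smul_eq_mul, Prod.fst_zero]
        rw [hΔ] at hz; linarith
      · simp only [Prod.snd_add, Prod.smul_snd, smul_eq_mul, Prod.snd_zero]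
        ring)
    have a2 := hli (b 1).1 (-(b 0).1) (by
      ext
      · simp only [Prod.fst_add, Prod.smul_fst, smul_eq_mul, Prod.fst_zero]
        ring
      · simp only [Prod.snd_add, Prod.smul_snd, smul_eq_mul, Prod.snd_zero]
        rw [hΔ] at hz; linarith)
    apply b.ne_zero 0
    ext
    · simpa using a2.2
    · simpa using a1.2
  refine ⟨(1 / Δ) • ((b 1).2, -(b 1).1), (1 / Δ) • (-(b 0).2, (b 0).1), ?_⟩
  have d0 : ∀ s r : ℝ, dt (s • ((1 / Δ) • ((b 1).2, -(b 1).1)) +
      r • ((1 / Δ) • (-(b 0).2, (b 0).1))) (b 0) = s := by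
    intro s r
    simp only [dt, Prod.fst_add, Prod.snd_add, Prod.smul_fst, Prod.smul_snd, smul_eq_mul]
    field_simp
    rw [hΔ]; ring
  have d1 : ∀ s r : ℝ, dt (s • ((1 / Δ) • ((b 1).2, -(b 1).1)) +
      r • ((1 / Δ) • (-(b 0).2, (b 0).1))) (b 1) = r := by
    intro s r
    simp only [dt, Prod.fst_add, Prod.snd_add, Prod.smul_fst, Prod.smul_snd, smul_eq_mul]
    field_simp
    rw [hΔ]; ring
  refine ⟨LinearIndependent.pair_iff.2 fun s r hsr => ?_, ?_⟩
  · have e0 := d0 s r
    have e1 := d1 s r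
    rw [hsr] at e0 e1
    exact ⟨by rw [← e0]; simp [dt], by rw [← e1]; simp [dt]⟩
  · ext x
    constructor
    · intro hx
      obtain ⟨h1, h2⟩ := (hB x).1 hx
      refine ⟨_, _, h1, h2, ?_⟩
      ext
      · simp only [dt, Prod.fst_add, Prod.smul_fst, smul_eq_mul]
        field_simp
        rw [hΔ]; ring
      · simp only [dt, Prod.snd_add, Prod.smul_snd, smul_eq_mul]
        field_simp
        rw [hΔ]; ring
    · rintro ⟨s, r, hs, hr, rfl⟩
      rw [hB, d0, d1]; exact ⟨hs, hr⟩

theorem pf0 (hc : Convex ℝ B) (hk : IsCompact B) (h0 : (0 : E) ∈ interior B) :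
    PF B (fun _ => 0) (fun _ => 0) where
  conv := hc
  cpt := hk
  int := ⟨0, h0⟩
  fconc := concaveOn_const _ hc
  hconc := concaveOn_const _ hc
  fusc := upperSemicontinuousOn_const
  husc := upperSemicontinuousOn_const
  f0 := fun _ _ => le_rfl
  h0 := fun _ _ => le_rfl

end Pool.Agent.Lib.MP_5e7226_co.CM.R1

namespace Pool.Agent.Lib.MP_5e7226_co.CM

open PS

theorem planar {B : Set E} (hc : Convex ℝ B) (hk : IsCompact B) (h0 : (0 : E) ∈ interior B)
    (hn : ∀ x ∈ B, -x ∈ B) :
    (∃ b₁ b₂ b₃ : E, ∀ x ∈ B, IN B x b₁ ∨ IN B x b₂ ∨ IN B x b₃) ∨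
      ∃ v w : E, LinearIndependent ℝ ![v, w] ∧
        B = {x | ∃ s t : ℝ, |s| ≤ 1 ∧ |t| ≤ 1 ∧ x = s • v + t • w} := by
  have H := R1.pf0 hc hk h0
  have hfin : Module.finrank ℝ E = 2 := by
    rw [Module.finrank_prod, Module.finrank_self]
  rcases levi hfin (R1.pol_compact h0) (R1.pol_convex B) (R1.pol_zero hk) with h1 | h1
  · exact Or.inl (R1.of_sep H h0 h1)
  · exact Or.inr (R1.of_cross H hn h1)

end Pool.Agent.Lib.MP_5e7226_co.CM
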