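import Pool.Agent.Lib.MP_5e7226_co.PS.Main

/-! A scheme with seven directions: the steep directions of a pair of opposite corners `y`, `P`, two
directions which lead from `P` to points where `f` is not smaller, and a horizontal direction. Only
the pointwise illumination of the rim points in the plane is assumed. -/

set_option autoImplicit false

open Set Filter Topology

namespace Pool.Agent.Lib.MP_5e7226_co.CM

open PS

variable {B : Set E} {f : E → ℝ}

/-- a boundary point is not strictly between two interior points -/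
theorem sg_not_between (H : PP B f f) {z a : E} (hr : Rim f f z) {s t : ℝ} (hs : s ≤ 0)
    (ht : 0 < t) (h1 : z + s • a ∈ interior B) (h2 : z + t • a ∈ interior B) : False := by
  apply H.rim_not_int hr
  have hst : 0 < t - s := by linarith
  have h3 := H.conv.interior h1 h2 (show 0 ≤ t / (t - s) by positivity)
    (show 0 ≤ -s / (t - s) from div_nonneg (by linarith) hst.le) (by field_simp; ring)
  have e : (t / (t - s)) • (z + s • a) + (-s / (t - s)) • (z + t • a) = z := by
    have e1 : t / (t - s) + -s / (t - s) = 1 := by field_simp; ring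
    have e2 : t / (t - s) * s + -s / (t - s) * t = 0 := by field_simp; ring
    rw [smul_add, smul_add, smul_smul, smul_smul]
    have : (t / (t - s)) • z + (t / (t - s) * s) • a + ((-s / (t - s)) • z +
        (-s / (t - s) * t) • a) = (t / (t - s) + -s / (t - s)) • z +
        (t / (t - s) * s + -s / (t - s) * t) • a := by
      rw [add_smul, add_smul]; abel
    rw [this, e1, e2, one_smul, zero_smul, add_zero]
  rwa [e] at h3

theorem sg_in (H : PP B f f) {x a : E} (hin : IN B x a) :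
    ∃ r : ℝ, 0 < r ∧ ∀ z ∈ B, ‖z - x‖ < r → Rim f f z → ∀ w : ℝ, |w| < r →
      Full B f f z a w := by
  obtain ⟨t, ht, hint⟩ := hin
  have hcont : ContinuousAt (fun y : E => y + t • a) x := by fun_prop
  have e1 : ∀ᶠ y in 𝓝 x, y + t • a ∈ interior B :=
    hcont.eventually (isOpen_interior.mem_nhds hint)
  have hp := H.fpos _ hint
  have e2 : ∀ᶠ y in 𝓝 x, f (x + t • a) / 2 < f (y + t • a) := by
    have := (cont_int H.toPF hint).comp_of_eq hcont rfl
    exact this.eventually (lt_mem_nhds (by simp only [Function.comp]; linarith))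
  have e3 := e1.and e2
  rw [Metric.eventually_nhds_iff] at e3
  obtain ⟨r, hr, hh⟩ := e3
  refine ⟨min r (f (x + t • a) / 2 / t), lt_min hr (by positivity),
    fun z hz hzx hrim w hw => ?_⟩
  obtain ⟨i1, i2⟩ := hh (y := z) (by rw [dist_eq_norm]; exact hzx.trans_le (min_le_left _ _))
  have hwt : |w| * t < f (x + t • a) / 2 := by
    have := hw.trans_le (min_le_right _ _)
    rwa [lt_div_iff₀ ht] at this
  have hzm := interior_subset i1
  have hw1 := le_abs_self w
  have hw2 := neg_abs_le w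
  refine ⟨⟨t, ht, i1⟩, ⟨t, ht, hzm, ?_⟩, ⟨t, ht, hzm, ?_⟩⟩
  · rw [hrim.1]; nlinarith
  · rw [hrim.1]; nlinarith

/-- the case of a tangent point -/
theorem sg_tangent (H : PP B f f) {l k : E →ₗ[ℝ] ℝ} {u a x : E} (hd : Dual l k u a) (hx : x ∈ B)
    (hl : ∀ z ∈ B, l x ≤ l z) (hfx : 0 < f x) :
    ∃ r : ℝ, 0 < r ∧ ∀ z ∈ B, ‖z - x‖ < r → Rim f f z → IN B z a → ∀ w : ℝ, |w| < r →
      Full B f f z a w := by
  obtain ⟨c, hc⟩ := H.int
  have hl0 : l ≠ 0 := by
    intro h0
    have := hd.lu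
    rw [h0] at this
    simp at this
  have hlc : 0 < l c - l x := by
    have := min_lt H.toPF hl0 hl hc
    linarith
  have lcont := cont_lin l
  have kcont := cont_lin k
  have e1 : ∀ᶠ z in 𝓝 x, (l z - l x) / (l c - l x) < 1 / 2 := by
    have : ContinuousAt (fun z => (l z - l x) / (l c - l x)) x := by fun_prop
    have h2 := this.eventually (gt_mem_nhds (show (fun z => (l z - l x) / (l c - l x)) x < 1 / 2 by
      simp))
    exact h2
  have e2 : ∀ᶠ z in 𝓝 x, k ((1 - (l z - l x) / (l c - l x)) • x + ((l z - l x) / (l c - l x)) • c)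
      - k z < 1 := by
    have : ContinuousAt (fun z => k ((1 - (l z - l x) / (l c - l x)) • x +
      ((l z - l x) / (l c - l x)) • c) - k z) x := by fun_prop
    have h2 := this.eventually (gt_mem_nhds (show (fun z => k ((1 - (l z - l x) / (l c - l x)) • x +
      ((l z - l x) / (l c - l x)) • c) - k z) x < 1 by simp))
    exact h2
  have e3 := e1.and e2
  rw [Metric.eventually_nhds_iff] at e3
  obtain ⟨r, hr, hh⟩ := e3
  refine ⟨min r (f x / 2), lt_min hr (by linarith), fun z hz hzx hrim hin w hw => ?_⟩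
  obtain ⟨b1, b2⟩ := hh (y := z) (by rw [dist_eq_norm]; exact hzx.trans_le (min_le_left _ _))
  obtain ⟨t', ht', hint'⟩ := hin
  have hlz : l x < l z := by
    have h1 := min_lt H.toPF hl0 hl hint'
    rwa [map_add, map_smul, hd.lv, smul_zero, add_zero] at h1
  set γ : ℝ := (l z - l x) / (l c - l x) with hγ
  have hγ0 : 0 < γ := div_pos (by linarith) hlc
  have hγe : γ * (l c - l x) = l z - l x := by rw [hγ, div_mul_cancel₀ _ hlc.ne']
  set g : E := (1 - γ) • x + γ • c with hg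
  have hgint : g ∈ interior B := H.seg_int hc hx hγ0 (by linarith)
  have hgf : f x / 2 < f g := by
    have h1 := H.fconc.2 hx (interior_subset hc) (show 0 ≤ 1 - γ by linarith) hγ0.le (by ring)
    have h2 := H.fpos c hc
    simp only [smul_eq_mul] at h1
    have h3 : 0 < γ * f c := mul_pos hγ0 h2
    rw [← hg] at h1
    nlinarith
  have hgz : z + (k g - k z) • a = g := by
    apply hd.ext
    · simp only [map_add, map_smul, smul_eq_mul, hg, hd.lv]
      linear_combination (-1 : ℝ) * hγe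
    · rw [map_add, map_smul, hd.kv]; simp
  have ht : 0 < k g - k z := by
    by_contra hcon
    push Not at hcon
    exact sg_not_between H hrim hcon ht' (by rw [hgz]; exact hgint) hint'
  have hgm := interior_subset hgint
  have hwf : |w| < f x / 2 := hw.trans_le (min_le_right _ _)
  have hw1 := le_abs_self w
  have hw2 := neg_abs_le w
  have hw3 := abs_nonneg w
  have ht1 : (k g - k z) * |w| ≤ |w| := by nlinarith
  have ht2 : (k g - k z) * w ≤ (k g - k z) * |w| := mul_le_mul_of_nonneg_left hw1 ht.le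
  have ht3 : (k g - k z) * -w ≤ (k g - k z) * |w| :=
    mul_le_mul_of_nonneg_left (by linarith) ht.le
  refine ⟨⟨_, ht, by rw [hgz]; exact hgint⟩, ⟨_, ht, by rw [hgz]; exact hgm, ?_⟩,
    ⟨_, ht, by rw [hgz]; exact hgm, ?_⟩⟩
  · rw [hgz, hrim.1]; linarith
  · rw [hgz, hrim.1]; linarith

/-- locally uniform slopes for rim points near a point which is not a rim point -/
theorem sg_local (H : PP B f f) {x a : E} (hx : x ∈ B) (hnr : ¬ Rim f f x) :
    ∃ r : ℝ, 0 < r ∧ ∀ z ∈ B, ‖z - x‖ < r → Rim f f z → IN B z a → ∀ w : ℝ, |w| < r →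
      Full B f f z a w := by
  have hfx : 0 < f x := by
    have := not_rim H.toPF hx hnr
    linarith
  by_cases ha : a = 0
  · subst ha
    refine ⟨1, one_pos, fun z hz _ hrim hin w _ => ?_⟩
    obtain ⟨t, ht, hint⟩ := hin
    rw [smul_zero, add_zero] at hint
    exact absurd hint (H.rim_not_int hrim)
  obtain ⟨u, k, l, hd'⟩ := dual_of_vec ha
  have hd : Dual l k u a := ⟨hd'.kv, hd'.ku, hd'.lv, hd'.lu, fun x => by
    have := hd'.dec x
    rwa [add_comm] at this⟩
  by_cases hline : ∃ τ : ℝ, x + τ • a ∈ interior B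
  · obtain ⟨τ, hτ⟩ := hline
    rcases lt_or_ge τ 0 with h1 | h1
    · have hcont : ContinuousAt (fun y : E => y + τ • a) x := by fun_prop
      have e1 : ∀ᶠ y in 𝓝 x, y + τ • a ∈ interior B :=
        hcont.eventually (isOpen_interior.mem_nhds hτ)
      rw [Metric.eventually_nhds_iff] at e1
      obtain ⟨r, hr, hh⟩ := e1
      refine ⟨r, hr, fun z hz hzx hrim hin w _ => ?_⟩
      obtain ⟨t, ht, hint⟩ := hin
      exact (sg_not_between H hrim h1.le ht (hh (by rw [dist_eq_norm]; exact hzx)) hint).elim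
    · have hin : IN B x a := by
        rcases eq_or_lt_of_le h1 with h2 | h2
        · rw [← h2, zero_smul, add_zero] at hτ
          exact H.in_of_int hτ a
        · exact ⟨τ, h2, hτ⟩
      obtain ⟨r, hr, hh⟩ := sg_in H hin
      exact ⟨r, hr, fun z hz hzx hrim _ w hw => hh z hz hzx hrim w hw⟩
  · by_cases h1 : ∀ z ∈ B, l x ≤ l z
    · exact sg_tangent H hd hx h1 hfx
    by_cases h2 : ∀ z ∈ B, l z ≤ l x
    · have hd2 : Dual (-l) k (-u) a := by
        refine ⟨by simp [hd.lu], by simp [hd.lv], by simp [hd.ku], hd.kv, fun z => ?_⟩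
        have := hd.dec z
        simpa using this
      exact sg_tangent H hd2 hx (fun z hz => by simpa using h2 z hz) hfx
    exfalso
    push Not at h1 h2
    obtain ⟨P, hP, hP'⟩ := h1
    obtain ⟨y, hy, hy'⟩ := h2
    obtain ⟨τ, _, h3⟩ := line_int H.toPF hd hy hP hP' hy'
    exact hline ⟨τ, h3⟩

/-- Scheme G. -/
theorem schemeG {y P u v : E} {l k : E →ₗ[ℝ] ℝ} (H : PP B f f) (O : Opp B y P l k u v)
    (hy : Rim f f y) {a₁ a₂ b : E}
    (h1 : ∃ t : ℝ, 0 < t ∧ P + t • a₁ ∈ interior B ∧ f P ≤ f (P + t • a₁))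
    (h2 : ∃ t : ℝ, 0 < t ∧ P + t • a₂ ∈ interior B ∧ f P ≤ f (P + t • a₂))
    (hrim : ∀ z ∈ B, Rim f f z → IN B z a₁ ∨ IN B z a₂ ∨ IN B z b) :
    ∃ D : List (E × ℝ), D.length ≤ 7 ∧ ∀ x ∈ B, Cov B f f D x := by
  -- the slope
  obtain ⟨w, hw, hW⟩ : ∃ w : ℝ, 0 < w ∧ ∀ z ∈ B, Rim f f z → Full B f f z a₁ (-w) ∨
      Full B f f z a₂ w ∨ Full B f f z b 0 := by
    refine unif_of_loc H.toPF (fun ε z => Rim f f z → Full B f f z a₁ (-ε) ∨
      Full B f f z a₂ ε ∨ Full B f f z b 0) ?_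
    intro x hx
    by_cases hr : Rim f f x
    · rcases hrim x hx hr with h3 | h3 | h3
      · obtain ⟨r, hr', hh⟩ := sg_in H h3
        exact ⟨r, hr', fun z hz hzx ε hε hεr hrz => Or.inl (hh z hz hzx hrz _ (by
          rw [abs_neg, abs_of_pos hε]; exact hεr))⟩
      · obtain ⟨r, hr', hh⟩ := sg_in H h3
        exact ⟨r, hr', fun z hz hzx ε hε hεr hrz => Or.inr (Or.inl (hh z hz hzx hrz _ (by
          rw [abs_of_pos hε]; exact hεr)))⟩
      · obtain ⟨r, hr', hh⟩ := sg_in H h3
        exact ⟨r, hr', fun z hz hzx ε hε hεr hrz => Or.inr (Or.inr (hh z hz hzx hrz _ (by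
          rw [abs_zero]; exact hr')))⟩
    · obtain ⟨r, hr1, hh1⟩ := sg_local H (a := a₁) hx hr
      obtain ⟨r', hr2, hh2⟩ := sg_local H (a := a₂) hx hr
      refine ⟨min r r', lt_min hr1 hr2, fun z hz hzx ε hε hεr hrz => ?_⟩
      rcases hrim z hz hrz with h3 | h3 | h3
      · exact Or.inl (hh1 z hz (hzx.trans_le (min_le_left _ _)) hrz h3 _ (by
          rw [abs_neg, abs_of_pos hε]; exact hεr.trans_le (min_le_left _ _)))
      · exact Or.inr (Or.inl (hh2 z hz (hzx.trans_le (min_le_right _ _)) hrz h3 _ (by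
          rw [abs_of_pos hε]; exact hεr.trans_le (min_le_right _ _))))
      · exact Or.inr (Or.inr (full_rim' H hrz h3))
  set D : ℝ → List (E × ℝ) := fun ε => steep u v ε ++ [(a₁, -w), (a₂, w), (b, 0)] with hDdef
  have hfull : ∀ ε, ∀ z ∈ B, Rim f f z → ∃ d ∈ D ε, Full B f f z d.1 d.2 := by
    intro ε z hz hr
    rcases hW z hz hr with h3 | h3 | h3
    · exact ⟨(a₁, -w), by simp [hDdef], h3⟩
    · exact ⟨(a₂, w), by simp [hDdef], h3⟩
    · exact ⟨(b, 0), by simp [hDdef], h3⟩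
  have hP1 : IN B P a₁ ∧ UP B f P a₁ (-w) := by
    obtain ⟨t, ht, i1, i2⟩ := h1
    exact ⟨⟨t, ht, i1⟩, ⟨t, ht, interior_subset i1, by have := mul_pos ht hw; linarith⟩⟩
  have hP2 : IN B P a₂ ∧ UP B f P a₂ (-w) := by
    obtain ⟨t, ht, i1, i2⟩ := h2
    exact ⟨⟨t, ht, i1⟩, ⟨t, ht, interior_subset i1, by have := mul_pos ht hw; linarith⟩⟩
  obtain ⟨ε, _, hfin⟩ := unif_of_loc H.toPF (fun ε z => Cov B f f (D ε) z) (by
    intro x hx
    by_cases e1 : x = y
    · subst e1
      obtain ⟨d, hd, hF⟩ : ∃ d : E × ℝ, (∀ ε, d ∈ D ε) ∧ Full B f f x d.1 d.2 := by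
        rcases hW x hx hy with h3 | h3 | h3
        · exact ⟨(a₁, -w), fun ε => by simp [hDdef], h3⟩
        · exact ⟨(a₂, w), fun ε => by simp [hDdef], h3⟩
        · exact ⟨(b, 0), fun ε => by simp [hDdef], h3⟩
      obtain ⟨r, hr, hh⟩ := loc1 H.toPF hx hF
      exact ⟨r, hr, fun z hz hzx ε _ _ => cov_of_full (hd ε) (hh z hz hzx _ (by
        rw [sub_self, abs_zero]; exact hr))⟩
    by_cases e2 : x = P
    · subst e2
      obtain ⟨r, hr, hh⟩ := loc0 H.toPF hx hP1.1 hP1.2
      obtain ⟨r', hr', hh'⟩ := loc0 H.toPF hx hP2.1 hP2.2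
      refine ⟨min r r', lt_min hr hr', fun z hz hzx ε _ _ => ?_⟩
      apply cov_of H.toPF hz (hfull ε z hz)
      intro _
      exact ⟨⟨(a₁, -w), by simp [hDdef], hh z hz (hzx.trans_le (min_le_left _ _)) _ (by
          rw [sub_self, abs_zero]; exact hr)⟩,
        ⟨(a₂, w), by simp [hDdef], hh' z hz (hzx.trans_le (min_le_right _ _)) _ (by
          rw [sub_self, abs_zero]; exact hr')⟩⟩
    obtain ⟨r, hr, hh⟩ := steep_cov H.toPF O hx e1 e2
    refine ⟨r, hr, fun z hz hzx ε hε hεr => ?_⟩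
    apply cov_of H.toPF hz (hfull ε z hz)
    intro _
    obtain ⟨⟨d, hd, i1⟩, ⟨d', hd', i2⟩⟩ := hh z hz hzx ε hε hεr
    exact ⟨⟨d, List.mem_append_left _ hd, i1⟩, ⟨d', List.mem_append_left _ hd', i2⟩⟩)
  exact ⟨D ε, by simp [hDdef, steep], hfin⟩

/-- Scheme H: one horizontal direction illuminates all rim points. -/
theorem schemeH {y P u v : E} {l k : E →ₗ[ℝ] ℝ} (H : PP B f f) (O : Opp B y P l k u v)
    (hy : Rim f f y) {b : E} (hrim : ∀ z ∈ B, Rim f f z → IN B z b) :
    ∃ D : List (E × ℝ), D.length ≤ 7 ∧ ∀ x ∈ B, Cov B f f D x := by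
  obtain ⟨c, hc⟩ := H.int
  set D : ℝ → List (E × ℝ) := fun ε => steep u v ε ++ [(b, 0), (c - P, 1 / ε),
    (c - P, -(1 / ε))] with hDdef
  have hfull : ∀ ε, ∀ z ∈ B, Rim f f z → ∃ d ∈ D ε, Full B f f z d.1 d.2 := by
    intro ε z hz hr
    exact ⟨(b, 0), by simp [hDdef], full_rim' H hr (hrim z hz hr)⟩
  obtain ⟨ε, _, hfin⟩ := unif_of_loc H.toPF (fun ε z => Cov B f f (D ε) z) (by
    intro x hx
    by_cases h1 : x = y
    · subst h1
      exact loc_cov H hx hy (hrim x hx hy) _ (fun ε => by simp [hDdef])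
    by_cases h2 : x = P
    · subst h2
      obtain ⟨r, hr, hh⟩ := steep_fixed H.toPF hx (in_center H.toPF hc (x := x))
      refine ⟨r, hr, fun z hz hzx ε hε hεr => ?_⟩
      apply cov_of H.toPF hz (hfull ε z hz)
      intro _
      obtain ⟨b1, b2, b3⟩ := hh z hz hzx ε hε hεr
      exact ⟨⟨(c - x, -(1 / ε)), by simp [hDdef], b1, b2⟩,
        ⟨(c - x, 1 / ε), by simp [hDdef], b1, b3⟩⟩
    obtain ⟨r, hr, hh⟩ := steep_cov H.toPF O hx h1 h2
    refine ⟨r, hr, fun z hz hzx ε hε hεr => ?_⟩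
    apply cov_of H.toPF hz (hfull ε z hz)
    intro _
    obtain ⟨⟨d, hd, a⟩, ⟨d', hd', a'⟩⟩ := hh z hz hzx ε hε hεr
    exact ⟨⟨d, List.mem_append_left _ hd, a⟩, ⟨d', List.mem_append_left _ hd', a'⟩⟩)
  exact ⟨D ε, by simp [hDdef, steep], hfin⟩

end Pool.Agent.Lib.MP_5e7226_co.CM
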