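import Pool.Agent.Lib.MP_5e7226_co.CM.SqN3

/-! The square with two opposite corners on the rim, no evenness. -/

set_option autoImplicit false

open Set Filter Topology

namespace Pool.Agent.Lib.MP_5e7226_co.CM

open PS

/-- two opposite sides are tents of full height -/
theorem n_opp {f : E → ℝ} (H : PP SQ f f) (hv : ∀ i, f (NV i) = 0) {m : ℝ}
    (hm : ∀ x ∈ SQ, f x ≤ m) (hm0 : 0 < m)
    (hR : ∀ t : ℝ, |t| < 1 → f (1, t) = m * (1 - |t|))
    (hL : ∀ t : ℝ, |t| < 1 → f (-1, t) = m * (1 - |t|)) :
    Good7 SQ f ∨ ∀ x ∈ SQ, f x = f 0 * (1 - |x.2|) := by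
  have v0 : f (1, 1) = 0 := hv 0
  have v1 : f (-1, 1) = 0 := hv 1
  have v2 : f (-1, -1) = 0 := hv 2
  have v3 : f (1, -1) = 0 := hv 3
  have r0 : f (1, 0) = m := by rw [hR 0 (by simp)]; simp
  have l0 : f (-1, 0) = m := by rw [hL 0 (by simp)]; simp
  have hlow : ∀ x ∈ SQ, m * (1 - |x.2|) ≤ f x := fun x hx => n_low2 H r0 l0 hx
  have z0 : ((0 : E)) ∈ SQ := interior_subset (n_zero H)
  have e0 : f 0 = m := le_antisymm (hm _ z0) (by simpa using hlow 0 z0)
  by_cases hall : ∀ x ∈ SQ, f x = f 0 * (1 - |x.2|)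
  · exact Or.inr hall
  left
  -- the reflected data
  have Hr := PPr H
  have hvr : ∀ i, (fun x : E => f (x.1, -x.2)) (NV i) = 0 := by
    intro i
    fin_cases i
    · exact v3
    · exact v2
    · show f (-1, - -1) = 0
      rw [neg_neg]; exact v1
    · show f (1, - -1) = 0
      rw [neg_neg]; exact v0
  have hmr : ∀ x ∈ SQ, (fun x : E => f (x.1, -x.2)) x ≤ m := fun x hx =>
    hm _ ⟨hx.1, by simpa using hx.2⟩
  have hRr : ∀ t : ℝ, |t| < 1 → (fun x : E => f (x.1, -x.2)) (1, t) = m * (1 - |t|) := by
    intro t ht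
    show f (1, -t) = _
    rw [hR (-t) (by rwa [abs_neg]), abs_neg]
  have hLr : ∀ t : ℝ, |t| < 1 → (fun x : E => f (x.1, -x.2)) (-1, t) = m * (1 - |t|) := by
    intro t ht
    show f (-1, -t) = _
    rw [hL (-t) (by rwa [abs_neg]), abs_neg]
  by_cases hB : ∀ s : ℝ, |s| < 1 → f (s, -1) = m * (1 - |s|)
  · by_cases hT : ∀ s : ℝ, |s| < 1 → f (s, 1) = m * (1 - |s|)
    · exact n_B3 H hv hm0 hR hL hT hB
    · push Not at hT
      have b0 : f (0, -1) = m := by rw [hB 0 (by simp)]; simp
      have h5 : m ≤ f (0, -(1 / 2)) := by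
        have := n_conc H.fconc (a := 0) (b := 0) (c := 0) (d := -1) (l := 1 / 2) (s := 0)
          (t := -(1 / 2)) (n_mem (by simp) (by simp)) (n_mem (by simp) (by simp)) (by norm_num)
          (by norm_num) (by norm_num) (by norm_num)
        have e1 : f ((0 : ℝ), (0 : ℝ)) = f 0 := rfl
        rw [b0, e1, e0] at this
        linarith
      refine Good7r (n_B1 Hr hvr hmr hm0 hRr hLr ?_ (u := 0) (y := 1 / 2) (by simp)
        (by norm_num) (by norm_num) ?_)
      · obtain ⟨s, hs, hne⟩ := hT
        refine ⟨s, hs, ?_⟩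
        show f (s, - -1) ≠ _
        rw [neg_neg]; exact hne
      · show m * (1 - 1 / 2) < f (0, -(1 / 2))
        linarith
  push Not at hB
  by_cases hT : ∀ s : ℝ, |s| < 1 → f (s, 1) = m * (1 - |s|)
  · have b0 : f (0, 1) = m := by rw [hT 0 (by simp)]; simp
    have h5 : m ≤ f (0, 1 / 2) := by
      have := n_conc H.fconc (a := 0) (b := 0) (c := 0) (d := 1) (l := 1 / 2) (s := 0)
        (t := 1 / 2) (n_mem (by simp) (by simp)) (n_mem (by simp) (by simp)) (by norm_num)
        (by norm_num) (by norm_num) (by norm_num)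
      have e1 : f ((0 : ℝ), (0 : ℝ)) = f 0 := rfl
      rw [b0, e1, e0] at this
      linarith
    exact n_B1 H hv hm hm0 hR hL hB (u := 0) (y := 1 / 2) (by simp)
      (by norm_num) (by norm_num) (by linarith)
  push Not at hT
  -- a point above the tent
  push Not at hall
  obtain ⟨⟨u, y⟩, hx, hne⟩ := hall
  rw [e0] at hne
  simp only at hne
  have hx' := hx
  obtain ⟨hu, hy⟩ := hx'
  simp only at hu hy
  have hlt : m * (1 - |y|) < f (u, y) := lt_of_le_of_ne (by simpa using hlow _ hx) (Ne.symm hne)
  have full : ∀ t : ℝ, |t| ≤ 1 → f (1, t) = m * (1 - |t|) ∧ f (-1, t) = m * (1 - |t|) := by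
    intro t ht
    rcases lt_or_eq_of_le ht with h | h
    · exact ⟨hR t h, hL t h⟩
    · rw [h]
      rcases (abs_eq zero_le_one).1 h with rfl | rfl
      · rw [v0, v1]; constructor <;> ring
      · rw [v2, v3]; constructor <;> ring
  have hu1 : |u| < 1 := by
    rcases lt_or_eq_of_le hu with h | h
    · exact h
    · exfalso
      rcases (abs_eq zero_le_one).1 h with rfl | rfl
      · rw [(full y hy).1] at hlt; exact lt_irrefl _ hlt
      · rw [(full y hy).2] at hlt; exact lt_irrefl _ hlt
  have hy0 : y ≠ 0 := by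
    rintro rfl
    have := hm _ hx
    rw [abs_zero, sub_zero, mul_one] at hlt
    linarith
  -- halve it, to get `|y| < 1`
  have hu0 : m ≤ f (u, 0) := by simpa using hlow (u, 0) (n_mem hu (by simp))
  obtain ⟨q1, q2⟩ := abs_le.1 hy
  have hhalf : m * (1 - |y| / 2) < f (u, y / 2) := by
    have := n_conc H.fconc (a := u) (b := 0) (c := u) (d := y) (l := 1 / 2) (s := u)
      (t := y / 2) (n_mem hu (by simp)) (n_mem hu hy) (by norm_num)
      (by norm_num) (by ring) (by ring)
    linarith
  rcases lt_or_gt_of_ne hy0 with hneg | hpos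
  · refine Good7r (n_B1 Hr hvr hmr hm0 hRr hLr ?_ (u := u) (y := -y / 2) hu1
      (by linarith) (by linarith) ?_)
    · obtain ⟨s, hs, hne⟩ := hT
      refine ⟨s, hs, ?_⟩
      show f (s, - -1) ≠ _
      rw [neg_neg]; exact hne
    · show m * (1 - -y / 2) < f (u, -(-y / 2))
      rw [abs_of_neg hneg] at hhalf
      rw [show -(-y / 2) = y / 2 by ring]
      exact hhalf
  · rw [abs_of_pos hpos] at hhalf
    exact n_B1 H hv hm hm0 hR hL hB hu1 (by linarith) (by linarith) hhalf

/-- all four corners on the rim -/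
theorem n_all {f : E → ℝ} (H : PP SQ f f) (hv : ∀ i, f (NV i) = 0) :
    Good7 SQ f ∨ (∀ x ∈ SQ, f x = f 0 * (1 - |x.2|)) ∨ ∀ x ∈ SQ, f x = f 0 * (1 - |x.1|) := by
  have v0 : f (1, 1) = 0 := hv 0
  have v1 : f (-1, 1) = 0 := hv 1
  have v2 : f (-1, -1) = 0 := hv 2
  have v3 : f (1, -1) = 0 := hv 3
  have z0 : ((0 : E)) ∈ SQ := interior_subset (n_zero H)
  obtain ⟨p, hp, hmax⟩ := UpperSemicontinuousOn.exists_isMaxOn ⟨0, z0⟩ H.cpt H.fusc
  obtain ⟨m, hmdef⟩ : ∃ m : ℝ, m = f p := ⟨_, rfl⟩
  have hm : ∀ x ∈ SQ, f x ≤ m := fun x hx => by rw [hmdef]; exact hmax hx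
  have hf0 : 0 < f 0 := H.fpos _ (n_zero H)
  have hm0 : 0 < m := lt_of_lt_of_le hf0 (hm _ z0)
  have hsup : ∀ F < m, ∃ c ∈ interior SQ, F < f c := by
    intro F hF
    obtain ⟨d, hd0, hd1, hd⟩ : ∃ d : ℝ, 0 < d ∧ d ≤ 1 ∧ d * m < m - F := by
      refine ⟨min 1 ((m - F) / (2 * m)), lt_min one_pos (div_pos (by linarith) (by linarith)),
        min_le_left _ _, ?_⟩
      have h1 : min 1 ((m - F) / (2 * m)) * m ≤ (m - F) / (2 * m) * m :=
        mul_le_mul_of_nonneg_right (min_le_right _ _) hm0.le
      have h2 : (m - F) / (2 * m) * m = (m - F) / 2 := by field_simp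
      linarith
    refine ⟨(1 - d) • p + d • 0, H.toPF.seg_int (n_zero H) hp hd0 hd1, ?_⟩
    have h1 := H.fconc.2 hp z0 (show 0 ≤ 1 - d by linarith) hd0.le (by ring)
    simp only [smul_eq_mul] at h1
    rw [← hmdef] at h1
    have h3 := mul_pos hd0 hf0
    linarith
  -- the four predicates
  by_cases hR : ∀ t : ℝ, |t| < 1 → f (1, t) = m * (1 - |t|)
  · by_cases hL : ∀ t : ℝ, |t| < 1 → f (-1, t) = m * (1 - |t|)
    · rcases n_opp H hv hm hm0 hR hL with h | h
      · exact Or.inl h
      · exact Or.inr (Or.inl h)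
    · -- left side
      by_cases hB : ∀ s : ℝ, |s| < 1 → f (s, -1) = m * (1 - |s|)
      · by_cases hT : ∀ s : ℝ, |s| < 1 → f (s, 1) = m * (1 - |s|)
        · have Hs := PPs H
          rcases n_opp Hs (m := m) (by
              intro i
              fin_cases i
              · exact v0
              · exact v3
              · exact v2
              · exact v1) (fun x hx => hm _ ⟨hx.2, hx.1⟩) hm0 hT hB with h | h
          · exact Or.inl (Good7s h)
          · exact Or.inr (Or.inr fun x hx => h (x.2, x.1) ⟨hx.2, hx.1⟩)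
        · -- left, top
          left
          push Not at hT hL
          -- rotate by a half-turn: `x ↦ -x`
          have Hs : PP SQ (fun x => f (-x.1, -x.2)) (fun x => f (-x.1, -x.2)) :=
            PPs (PPr (PPs (PPr H)))
          have hg : Good7 SQ (fun x : E => f (-x.1, -x.2)) := by
            refine n_adj Hs (m := m) ?_ (fun x hx => hm _ ⟨by simpa using hx.1,
              by simpa using hx.2⟩) hm0 ?_ ?_ ?_
            · intro i
              fin_cases i
              · exact v2
              · show f (- -1, -1) = 0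
                rw [neg_neg]; exact v3
              · show f (- -1, - -1) = 0
                rw [neg_neg]; exact v0
              · show f (-1, - -1) = 0
                rw [neg_neg]; exact v1
            · intro F hF
              obtain ⟨c, hc, hFc⟩ := hsup F hF
              refine ⟨-c, ?_, ?_⟩
              · have h3 : IsOpen (-(interior SQ)) := isOpen_interior.neg
                have h4 : -(interior SQ) ⊆ SQ := fun x hx => by
                  have := interior_subset (s := SQ) hx
                  exact ⟨by simpa using this.1, by simpa using this.2⟩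
                refine interior_maximal h4 h3 ?_
                simpa using hc
              · show F < f (-(-c).1, -(-c).2)
                simpa using hFc
            · obtain ⟨t, ht, hne⟩ := hL
              exact ⟨-t, by rwa [abs_neg], by
                show f (-1, - -t) ≠ _
                rw [neg_neg, abs_neg]; exact hne⟩
            · obtain ⟨t, ht, hne⟩ := hT
              exact ⟨-t, by rwa [abs_neg], by
                show f (- -t, - -1) ≠ _
                rw [neg_neg, neg_neg, abs_neg]; exact hne⟩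
          have g1 : Good7 SQ (fun x : E => f (x.1, -x.2)) := by
            refine Good7s (f := fun x : E => f (x.1, -x.2)) ?_
            show Good7 SQ (fun x : E => f (x.2, -x.1))
            refine Good7r (f := fun x : E => f (x.2, -x.1)) ?_
            show Good7 SQ (fun x : E => f (-x.2, -x.1))
            exact Good7s (f := fun x : E => f (-x.2, -x.1)) hg
          exact Good7r g1
      · -- left, bottom
        left
        push Not at hB hL
        have Hs : PP SQ (fun x => f (-x.1, x.2)) (fun x => f (-x.1, x.2)) := PPs (PPr (PPs H))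
        have hg : Good7 SQ (fun x : E => f (-x.1, x.2)) := by
          refine n_adj Hs (m := m) ?_ (fun x hx => hm _ ⟨by simpa using hx.1, hx.2⟩) hm0 ?_ ?_ ?_
          · intro i
            fin_cases i
            · exact v1
            · show f (- -1, 1) = 0
              rw [neg_neg]; exact v0
            · show f (- -1, -1) = 0
              rw [neg_neg]; exact v3
            · exact v2
          · intro F hF
            obtain ⟨c, hc, hFc⟩ := hsup F hF
            refine ⟨(-c.1, c.2), ?_, ?_⟩
            · have hcont : Continuous fun x : E => ((-x.1, x.2) : E) := by fun_prop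
              have h3 : IsOpen ((fun x : E => ((-x.1, x.2) : E)) ⁻¹' (interior SQ)) :=
                isOpen_interior.preimage hcont
              have h4 : (fun x : E => ((-x.1, x.2) : E)) ⁻¹' (interior SQ) ⊆ SQ := fun x hx => by
                have := interior_subset (s := SQ) hx
                exact ⟨by simpa using this.1, this.2⟩
              refine interior_maximal h4 h3 ?_
              simpa using hc
            · show F < f (- -c.1, c.2)
              rw [neg_neg]; exact hFc
          · obtain ⟨t, ht, hne⟩ := hL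
            exact ⟨t, ht, hne⟩
          · obtain ⟨t, ht, hne⟩ := hB
            exact ⟨-t, by rwa [abs_neg], by
              show f (- -t, -1) ≠ _
              rw [neg_neg, abs_neg]; exact hne⟩
        have g1 : Good7 SQ (fun x : E => f (x.2, x.1)) := by
          refine Good7r (f := fun x : E => f (x.2, x.1)) ?_
          show Good7 SQ (fun x : E => f (-x.2, x.1))
          exact Good7s (f := fun x : E => f (-x.2, x.1)) hg
        exact Good7s g1
  · by_cases hB : ∀ s : ℝ, |s| < 1 → f (s, -1) = m * (1 - |s|)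
    · by_cases hT : ∀ s : ℝ, |s| < 1 → f (s, 1) = m * (1 - |s|)
      · have Hs := PPs H
        rcases n_opp Hs (m := m) (by
            intro i
            fin_cases i
            · exact v0
            · exact v3
            · exact v2
            · exact v1) (fun x hx => hm _ ⟨hx.2, hx.1⟩) hm0 hT hB with h | h
        · exact Or.inl (Good7s h)
        · exact Or.inr (Or.inr fun x hx => h (x.2, x.1) ⟨hx.2, hx.1⟩)
      · -- right, top
        left
        push Not at hR hT
        refine Good7r (n_adj (PPr H) (m := m) ?_ (fun x hx => hm _ ⟨hx.1, by simpa using hx.2⟩)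
          hm0 ?_ ?_ ?_)
        · intro i
          fin_cases i
          · exact v3
          · exact v2
          · show f (-1, - -1) = 0
            rw [neg_neg]; exact v1
          · show f (1, - -1) = 0
            rw [neg_neg]; exact v0
        · intro F hF
          obtain ⟨c, hc, hFc⟩ := hsup F hF
          refine ⟨(c.1, -c.2), ?_, ?_⟩
          · have hcont : Continuous fun x : E => ((x.1, -x.2) : E) := by fun_prop
            have h3 : IsOpen ((fun x : E => ((x.1, -x.2) : E)) ⁻¹' (interior SQ)) :=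
              isOpen_interior.preimage hcont
            have h4 : (fun x : E => ((x.1, -x.2) : E)) ⁻¹' (interior SQ) ⊆ SQ := fun x hx => by
              have := interior_subset (s := SQ) hx
              exact ⟨this.1, by simpa using this.2⟩
            refine interior_maximal h4 h3 ?_
            simpa using hc
          · show F < f (c.1, - -c.2)
            rw [neg_neg]; exact hFc
        · obtain ⟨t, ht, hne⟩ := hR
          exact ⟨-t, by rwa [abs_neg], by
            show f (1, - -t) ≠ _
            rw [neg_neg, abs_neg]; exact hne⟩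
        · obtain ⟨t, ht, hne⟩ := hT
          refine ⟨t, ht, ?_⟩
          show f (t, - -1) ≠ _
          rw [neg_neg]; exact hne
    · push Not at hR hB
      exact Or.inl (n_adj H hv hm hm0 hsup hR hB)

/-- two opposite corners on the rim, the others not both -/
theorem n_two {f : E → ℝ} (H : PP SQ f f) (h1 : f (1, 1) = 0) (h3 : f (-1, -1) = 0)
    (hne : ¬ (f (-1, 1) = 0 ∧ f (1, -1) = 0)) : Good7 SQ f := by
  obtain ⟨b, hb1, hb2⟩ : ∃ b : E, (f (-1, 1) = 0 → IN SQ (-1, 1) b) ∧
      (f (1, -1) = 0 → IN SQ (1, -1) b) := by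
    by_cases h : f (1, -1) = 0
    · exact ⟨(-1, 1), fun h' => absurd ⟨h', h⟩ hne, fun _ => n_IN (n_mem (by simp) (by simp))
        (Or.inr rfl) (Or.inl rfl) (by simp) (by simp)⟩
    · exact ⟨(1, -1), fun _ => n_IN (n_mem (by simp) (by simp)) (Or.inl rfl) (Or.inr rfl)
        (by simp) (by simp), fun h' => absurd h' h⟩
  set D : ℝ → List (E × ℝ) := fun ε => [((1, -1), 1 / ε), ((1, -1), -(1 / ε)),
    ((-1, 1), 1 / ε), ((-1, 1), -(1 / ε)), ((-1, -1), 0), ((1, 1), 0), (b, 0)] with hD
  have hrim : ∀ ε, ∀ z ∈ SQ, Rim f f z → ∃ d ∈ D ε, Full SQ f f z d.1 d.2 := by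
    rintro ε ⟨s, t⟩ hz hr
    have hz' := hz
    obtain ⟨b1, b2⟩ := hz'
    simp only [abs_le] at b1 b2
    by_cases c1 : -1 < s ∧ -1 < t
    · exact ⟨((-1, -1), 0), by simp [hD], full_rim' H hr (n_IN hz (Or.inr rfl) (Or.inr rfl)
        (by simp only; linarith [c1.1]) (by simp only; linarith [c1.2]))⟩
    by_cases c2 : s < 1 ∧ t < 1
    · exact ⟨((1, 1), 0), by simp [hD], full_rim' H hr (n_IN hz (Or.inl rfl) (Or.inl rfl)
        (by simp only; linarith [c2.1]) (by simp only; linarith [c2.2]))⟩
    have key : (s = -1 ∨ t = -1) ∧ (s = 1 ∨ t = 1) := by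
      constructor
      · by_contra h
        push Not at h
        exact c1 ⟨lt_of_le_of_ne b1.1 (Ne.symm h.1), lt_of_le_of_ne b2.1 (Ne.symm h.2)⟩
      · by_contra h
        push Not at h
        exact c2 ⟨lt_of_le_of_ne b1.2 h.1, lt_of_le_of_ne b2.2 h.2⟩
    refine ⟨(b, 0), by simp [hD], full_rim' H hr ?_⟩
    rcases key with ⟨rfl | rfl, h | h⟩
    · norm_num at h
    · subst h; exact hb1 hr.1
    · subst h; exact hb2 hr.1
    · norm_num at h
  refine good7_of_loc' H D (fun ε => by simp [hD]) ?_
  intro x hx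
  by_cases e1 : x = (1, 1)
  · subst e1
    exact loc_cov H hx ⟨h1, h1⟩ (n_IN hx (Or.inr rfl) (Or.inr rfl) (by norm_num) (by norm_num)) D
      (fun ε => by simp [hD])
  by_cases e3 : x = (-1, -1)
  · subst e3
    exact loc_cov H hx ⟨h3, h3⟩ (n_IN hx (Or.inl rfl) (Or.inl rfl) (by norm_num) (by norm_num)) D
      (fun ε => by simp [hD])
  obtain ⟨s, t⟩ := x
  have hz' := hx
  obtain ⟨b1, b2⟩ := hz'
  simp only [abs_le] at b1 b2
  by_cases c1 : s < 1 ∧ -1 < t
  · obtain ⟨r, hr, hh⟩ := steep_fixed H.toPF hx (n_IN hx (p := 1) (q := -1) (Or.inl rfl)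
      (Or.inr rfl) (by simp only; linarith [c1.1]) (by simp only; linarith [c1.2]))
    refine ⟨r, hr, fun z hz hzx ε hε hεr => cov_of H.toPF hz (hrim ε z hz) fun _ => ?_⟩
    obtain ⟨d1, d2, d3⟩ := hh z hz hzx ε hε hεr
    exact ⟨⟨((1, -1), -(1 / ε)), by simp [hD], d1, d2⟩, ⟨((1, -1), 1 / ε), by simp [hD], d1, d3⟩⟩
  · have c2 : -1 < s ∧ t < 1 := by
      constructor
      · refine lt_of_le_of_ne b1.1 ?_
        rintro rfl
        apply c1
        refine ⟨by norm_num, lt_of_le_of_ne b2.1 ?_⟩
        rintro rfl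
        exact e3 rfl
      · refine lt_of_le_of_ne b2.2 ?_
        rintro rfl
        apply c1
        refine ⟨lt_of_le_of_ne b1.2 ?_, by norm_num⟩
        rintro rfl
        exact e1 rfl
    obtain ⟨r, hr, hh⟩ := steep_fixed H.toPF hx (n_IN hx (p := -1) (q := 1) (Or.inr rfl)
      (Or.inl rfl) (by simp only; linarith [c2.1]) (by simp only; linarith [c2.2]))
    refine ⟨r, hr, fun z hz hzx ε hε hεr => cov_of H.toPF hz (hrim ε z hz) fun _ => ?_⟩
    obtain ⟨d1, d2, d3⟩ := hh z hz hzx ε hε hεr
    exact ⟨⟨((-1, 1), -(1 / ε)), by simp [hD], d1, d2⟩, ⟨((-1, 1), 1 / ε), by simp [hD], d1, d3⟩⟩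

/-- The square with two opposite corners on the rim. -/
theorem sqN {f : E → ℝ} (H : PP SQ f f) (h1 : f (1, 1) = 0) (h3 : f (-1, -1) = 0) :
    Good7 SQ f ∨ (∀ x ∈ SQ, f x = f 0 * (1 - |x.2|)) ∨ ∀ x ∈ SQ, f x = f 0 * (1 - |x.1|) := by
  by_cases hne : f (-1, 1) = 0 ∧ f (1, -1) = 0
  · refine n_all H fun i => ?_
    fin_cases i
    · exact h1
    · exact hne.1
    · exact h3
    · exact hne.2
  · exact Or.inl (n_two H h1 h3 hne)

end Pool.Agent.Lib.MP_5e7226_co.CM
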