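import Pool.Agent.Lib.MP_5e7226_co.CM.LinA

/-! The square, mirror only (no evenness): the side lemma and changes of coordinates. -/

set_option autoImplicit false

open Set Filter Topology

namespace Pool.Agent.Lib.MP_5e7226_co.CM

open PS

theorem n_mem {s t : ℝ} (hs : |s| ≤ 1) (ht : |t| ≤ 1) : ((s, t) : E) ∈ SQ := ⟨hs, ht⟩

theorem good7_of_loc' {B : Set E} {f : E → ℝ} (H : PP B f f) (D : ℝ → List (E × ℝ))
    (hD : ∀ ε, (D ε).length ≤ 7)
    (hl : ∀ x ∈ B, ∃ r : ℝ, 0 < r ∧ ∀ y ∈ B, ‖y - x‖ < r → ∀ ε : ℝ, 0 < ε → ε < r →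
      Cov B f f (D ε) y) : Good7 B f := by
  obtain ⟨ε, _, h1⟩ := unif_of_loc H.toPF (fun ε y => Cov B f f (D ε) y) hl
  exact ⟨D ε, hD ε, h1⟩

theorem PPmap {B : Set E} {f : E → ℝ} (H : PP B f f) (e : E ≃ₗ[ℝ] E) :
    PP (e '' B) (fun x => f (e.symm x)) (fun x => f (e.symm x)) := by
  have hconv : Convex ℝ (e '' B) := H.conv.linear_image e.toLinearMap
  have hconc : ConcaveOn ℝ (e '' B) (fun x => f (e.symm x)) := by
    refine ⟨hconv, fun x hx y hy a b ha hb hab => ?_⟩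
    have := H.fconc.2 (r3a_mem e hx) (r3a_mem e hy) ha hb hab
    simpa only [map_add, map_smul] using this
  have husc : UpperSemicontinuousOn (fun x => f (e.symm x)) (e '' B) := by
    intro x hx c hc
    have h1 : ∀ᶠ y in 𝓝[B] (e.symm x), f y < c := H.fusc (e.symm x) (r3a_mem e hx) c hc
    have h2 : Tendsto (fun z => e.symm z) (𝓝[e '' B] x) (𝓝[B] (e.symm x)) :=
      ((r3a_cont e.symm).continuousWithinAt).tendsto_nhdsWithin fun z hz => r3a_mem e hz
    exact h2.eventually h1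
  have hpos : ∀ x ∈ interior (e '' B), 0 < f (e.symm x) := fun x hx =>
    H.fpos _ (r3a_mem_int e hx)
  have h0 : ∀ x ∈ e '' B, 0 ≤ f (e.symm x) := fun x hx => H.f0 _ (r3a_mem e hx)
  exact
    { conv := hconv
      cpt := H.cpt.image (r3a_cont e)
      int := by
        rw [r3a_int]
        exact H.int.image e
      fconc := hconc
      hconc := hconc
      fusc := husc
      husc := husc
      f0 := h0
      h0 := h0
      fpos := hpos
      hpos := hpos }

/-- the reflection `(s, t) ↦ (s, -t)` -/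
noncomputable def nr : E ≃ₗ[ℝ] E :=
  LinearEquiv.prodCongr (LinearEquiv.refl ℝ ℝ) (LinearEquiv.neg ℝ)

theorem nr_apply (x : E) : nr x = (x.1, -x.2) := rfl

theorem nr_symm (x : E) : nr.symm x = (x.1, -x.2) := by
  rw [LinearEquiv.symm_apply_eq, nr_apply]
  simp

theorem nr_SQ : nr '' SQ = SQ := by
  ext x
  constructor
  · rintro ⟨y, ⟨h1, h2⟩, rfl⟩
    rw [nr_apply]
    exact ⟨by simpa using h1, by simpa using h2⟩
  · rintro ⟨h1, h2⟩
    refine ⟨(x.1, -x.2), ⟨by simpa using h1, by simpa using h2⟩, ?_⟩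
    rw [nr_apply]
    simp

/-- the swap `(s, t) ↦ (t, s)` -/
noncomputable def ns : E ≃ₗ[ℝ] E := LinearEquiv.prodComm ℝ ℝ ℝ

theorem ns_apply (x : E) : ns x = (x.2, x.1) := rfl

theorem ns_symm (x : E) : ns.symm x = (x.2, x.1) := rfl

theorem ns_SQ : ns '' SQ = SQ := by
  ext x
  constructor
  · rintro ⟨y, ⟨h1, h2⟩, rfl⟩
    rw [ns_apply]
    exact ⟨h2, h1⟩
  · rintro ⟨h1, h2⟩
    exact ⟨(x.2, x.1), ⟨h2, h1⟩, rfl⟩

theorem PPr {f : E → ℝ} (H : PP SQ f f) :
    PP SQ (fun x => f (x.1, -x.2)) (fun x => f (x.1, -x.2)) := by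
  have h := PPmap H nr
  rw [nr_SQ] at h
  simpa only [nr_symm] using h

theorem PPs {f : E → ℝ} (H : PP SQ f f) :
    PP SQ (fun x => f (x.2, x.1)) (fun x => f (x.2, x.1)) := by
  have h := PPmap H ns
  rw [ns_SQ] at h
  simpa only [ns_symm] using h

theorem Good7r {f : E → ℝ} (h : Good7 SQ (fun x => f (x.1, -x.2))) : Good7 SQ f := by
  refine Good7.of_map (B := SQ) (f := f) nr ?_
  rw [nr_SQ]
  simpa only [nr_symm] using h

theorem Good7s {f : E → ℝ} (h : Good7 SQ (fun x => f (x.2, x.1))) : Good7 SQ f := by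
  refine Good7.of_map (B := SQ) (f := f) ns ?_
  rw [ns_SQ]
  simpa only [ns_symm] using h

/-- concavity in coordinates -/
theorem n_conc {f : E → ℝ} (H : ConcaveOn ℝ SQ f) {a b c d l : ℝ} (h1 : ((a, b) : E) ∈ SQ)
    (h2 : ((c, d) : E) ∈ SQ) (hl0 : 0 ≤ l) (hl1 : l ≤ 1) {s t : ℝ} (hs : (1 - l) * a + l * c = s)
    (ht : (1 - l) * b + l * d = t) :
    (1 - l) * f (a, b) + l * f (c, d) ≤ f (s, t) := by
  have := H.2 h1 h2 (show 0 ≤ 1 - l by linarith) hl0 (by ring)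
  have e : (1 - l) • ((a, b) : E) + l • ((c, d) : E) = (s, t) := by
    rw [← hs, ← ht]; ext <;> simp
  rw [e] at this
  simpa only [smul_eq_mul] using this

/-- a jump landing on the segment from `y` to `c` -/
theorem n_jump {f : E → ℝ} (H : ConcaveOn ℝ SQ f) {x y c v : E} {l τ : ℝ} (hy : y ∈ SQ)
    (hc : c ∈ SQ) (hl0 : 0 < l) (hl1 : l ≤ 1) (hx : x = (1 - l) • y + l • v)
    (hh : f x - l * τ < (1 - l) * f y + l * f c) : UP SQ f x (c - v) (-τ) := by
  have e : x + l • (c - v) = (1 - l) • y + l • c := by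
    rw [hx, smul_sub]; abel
  refine ⟨l, hl0, ?_, ?_⟩
  · rw [e]
    exact H.1 hy hc (by linarith) hl0.le (by ring)
  · rw [e]
    have := H.2 hy hc (show 0 ≤ 1 - l by linarith) hl0.le (by ring)
    simp only [smul_eq_mul] at this
    linarith

end Pool.Agent.Lib.MP_5e7226_co.CM
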