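import Pool.Agent.Lib.MP_5e7226_co.CM.SqN0

/-! The side lemma without evenness. -/

set_option autoImplicit false

open Set Filter Topology

namespace Pool.Agent.Lib.MP_5e7226_co.CM

open PS

/-- the long jump, first direction -/
theorem n_key1 {f : E → ℝ} (hc : ConcaveOn ℝ SQ f) (h2 : f (1, -1) = 0) {c : E} (hcS : c ∈ SQ)
    {τ t : ℝ} (ht1 : -1 < t) (ht2 : t < 1)
    (hh : f (1, t) < (1 + t) * (f c + τ) / 2) : UP SQ f (1, t) (c - (1, 1)) (-τ) := by
  refine n_jump hc (y := (1, -1)) (l := (1 + t) / 2) (n_mem (by simp) (by simp)) hcS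
    (by linarith) (by linarith) ?_ ?_
  · ext <;> simp
    ring
  · rw [h2]; linarith

/-- the long jump, second direction -/
theorem n_key2 {f : E → ℝ} (hc : ConcaveOn ℝ SQ f) (h1 : f (1, 1) = 0) {c : E} (hcS : c ∈ SQ)
    {τ t : ℝ} (ht1 : -1 < t) (ht2 : t < 1)
    (hh : f (1, t) < (1 - t) * (f c + τ) / 2) : UP SQ f (1, t) (c - (1, -1)) (-τ) := by
  refine n_jump hc (y := (1, 1)) (l := (1 - t) / 2) (n_mem (by simp) (by simp)) hcS
    (by linarith) (by linarith) ?_ ?_
  · ext <;> simp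
    ring
  · rw [h1]; linarith

theorem n_up1 {f : E → ℝ} (hconc : ConcaveOn ℝ SQ f) (h2 : f (1, -1) = 0) {t : ℝ} (h0 : 0 ≤ t)
    (h1' : t ≤ 1) : f (1, t) ≤ (1 + t) * f (1, 0) := by
  have h1t : 0 < 1 + t := by linarith
  have hc := n_conc hconc (a := 1) (b := -1) (c := 1) (d := t) (l := 1 / (1 + t)) (s := 1) (t := 0)
    (n_mem (by simp) (by simp)) (n_mem (by simp) (by rw [abs_le]; constructor <;> linarith))
    (by positivity) ((div_le_one h1t).2 (by linarith)) (by ring) (by field_simp; ring)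
  rw [h2] at hc
  have h5 : 1 / (1 + t) * f (1, t) ≤ f (1, 0) := by linarith
  rw [one_div, inv_mul_le_iff₀ h1t] at h5
  exact h5

theorem n_up2 {f : E → ℝ} (hconc : ConcaveOn ℝ SQ f) (h1 : f (1, 1) = 0) {t : ℝ} (h0 : -1 ≤ t)
    (h1' : t ≤ 0) : f (1, t) ≤ (1 - t) * f (1, 0) := by
  have h1t : 0 < 1 - t := by linarith
  have hc := n_conc hconc (a := 1) (b := 1) (c := 1) (d := t) (l := 1 / (1 - t)) (s := 1) (t := 0)
    (n_mem (by simp) (by simp)) (n_mem (by simp) (by rw [abs_le]; constructor <;> linarith))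
    (by positivity) ((div_le_one h1t).2 (by linarith)) (by ring) (by field_simp; ring)
  rw [h1] at hc
  have h5 : 1 / (1 - t) * f (1, t) ≤ f (1, 0) := by linarith
  rw [one_div, inv_mul_le_iff₀ h1t] at h5
  exact h5

/-- lower bound of the side function if the maximum is attained on the side -/
theorem n_low {f : E → ℝ} (hconc : ConcaveOn ℝ SQ f) (h1 : f (1, 1) = 0) (h2 : f (1, -1) = 0)
    {m : ℝ} (heq : f (1, 0) = m) {t : ℝ} (ht : |t| ≤ 1) : m * (1 - |t|) ≤ f (1, t) := by
  rcases le_total 0 t with h0 | h0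
  · rw [abs_of_nonneg h0] at ht ⊢
    have hc := n_conc hconc (a := 1) (b := 0) (c := 1) (d := 1) (l := t) (s := 1) (t := t)
      (n_mem (by simp) (by simp)) (n_mem (by simp) (by simp)) h0 ht (by ring) (by ring)
    rw [heq, h1] at hc
    linarith
  · rw [abs_of_nonpos h0] at ht ⊢
    have hc := n_conc hconc (a := 1) (b := 0) (c := 1) (d := -1) (l := -t) (s := 1) (t := t)
      (n_mem (by simp) (by simp)) (n_mem (by simp) (by simp)) (by linarith) ht (by ring) (by ring)
    rw [heq, h2] at hc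
    linarith

/-- the jump next to the middle of the side, towards `(1, a)`, `a > 0` -/
theorem n_near1 {f : E → ℝ} (hconc : ConcaveOn ℝ SQ f) {c : E} (hcS : c ∈ SQ) {a t τ m : ℝ}
    (ha0 : 0 < a) (ha1 : a < 1) (ht : -1 < t) (hta : t < a) (hft : f (1, t) ≤ m)
    (hkey : (1 + t) * (m - f (1, a)) < (a - t) * (τ - (m - f c))) :
    UP SQ f (1, t) (c - (1, -1)) (-τ) := by
  have h1a : 0 < 1 + a := by linarith
  have hl0 : 0 < (a - t) / (1 + a) := div_pos (by linarith) h1a
  have hl1 : (a - t) / (1 + a) < 1 := (div_lt_one h1a).2 (by linarith)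
  have h5 : (1 - (a - t) / (1 + a)) = (1 + t) / (1 + a) := by field_simp; ring
  refine n_jump hconc (y := (1, a)) (l := (a - t) / (1 + a)) (n_mem (by simp)
    (by rw [abs_le]; constructor <;> linarith)) hcS hl0 hl1.le ?_ ?_
  · ext
    · simp
    · simp only [Prod.smul_mk, Prod.mk_add_mk, smul_eq_mul]
      field_simp
      ring
  · have key : (1 - (a - t) / (1 + a)) * (m - f (1, a)) <
        (a - t) / (1 + a) * (τ - (m - f c)) := by
      rw [h5, div_mul_eq_mul_div, div_mul_eq_mul_div]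
      exact div_lt_div_of_pos_right hkey h1a
    nlinarith

/-- the jump next to the middle of the side, towards `(1, -a)`, `a > 0` -/
theorem n_near2 {f : E → ℝ} (hconc : ConcaveOn ℝ SQ f) {c : E} (hcS : c ∈ SQ) {a t τ m : ℝ}
    (ha0 : 0 < a) (ha1 : a < 1) (ht : t < 1) (hta : -a < t) (hft : f (1, t) ≤ m)
    (hkey : (1 - t) * (m - f (1, -a)) < (a + t) * (τ - (m - f c))) :
    UP SQ f (1, t) (c - (1, 1)) (-τ) := by
  have h1a : 0 < 1 + a := by linarith
  have hl0 : 0 < (a + t) / (1 + a) := div_pos (by linarith) h1a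
  have hl1 : (a + t) / (1 + a) < 1 := (div_lt_one h1a).2 (by linarith)
  have h5 : (1 - (a + t) / (1 + a)) = (1 - t) / (1 + a) := by field_simp; ring
  refine n_jump hconc (y := (1, -a)) (l := (a + t) / (1 + a)) (n_mem (by simp)
    (by rw [abs_le]; constructor <;> linarith)) hcS hl0 hl1.le ?_ ?_
  · ext
    · simp
    · simp only [Prod.smul_mk, Prod.mk_add_mk, smul_eq_mul]
      field_simp
      ring
  · have key : (1 - (a + t) / (1 + a)) * (m - f (1, -a)) <
        (a + t) / (1 + a) * (τ - (m - f c)) := by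
      rw [h5, div_mul_eq_mul_div, div_mul_eq_mul_div]
      exact div_lt_div_of_pos_right hkey h1a
    nlinarith

/-- the arithmetic behind the jump next to the middle -/
theorem n_arith {a t τ m F ε δ : ℝ} (_ha0 : 0 < a) (ha1 : a < 1) (hm : 0 < m)
    (hδ : δ = F - m * (1 - a)) (hF : F ≤ m) (hε0 : 0 < ε) (hε1 : ε ≤ a / 2)
    (hε2 : ε * m ≤ δ / 8) (_ht1 : -ε < t) (ht2 : t < ε) (hτ : m - ε * m ≤ τ) :
    (1 + t) * (m - F) < (a - t) * τ := by
  have h1 : (1 + t) * (m - F) ≤ (1 + ε) * (m - F) :=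
    mul_le_mul_of_nonneg_right (by linarith) (by linarith)
  have h2 : (a - ε) * (m - ε * m) ≤ (a - t) * τ := by
    have h3 : 0 ≤ m - ε * m := by nlinarith
    exact mul_le_mul (by linarith) hτ h3 (by linarith)
  have h4 : ε * F ≥ 0 := by
    have : 0 ≤ m * (1 - a) := mul_nonneg hm.le (by linarith)
    have : 0 ≤ F := by
      have h5 : 0 < δ := by nlinarith
      linarith
    exact mul_nonneg hε0.le this
  have h6 : a * (ε * m) ≤ ε * m := by
    have : 0 ≤ ε * m := by positivity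
    nlinarith
  have h7 : 0 < ε * m := by positivity
  have h8 : 0 ≤ ε * (ε * m) := by positivity
  have e1 : (1 + ε) * (m - F) = (m - F) + ε * m - ε * F := by ring
  have e2 : (a - ε) * (m - ε * m) = m * a - a * (ε * m) - ε * m + ε * (ε * m) := by ring
  have e3 : m * (1 - a) = m - m * a := by ring
  rw [e3] at hδ
  linarith

/-- Lemma G': a side which is not the symmetric tent of height `m = max f` -/
theorem gN {f : E → ℝ} (H : PP SQ f f) {m : ℝ} (hm : ∀ x ∈ SQ, f x ≤ m) (hm0 : 0 < m)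
    (h1 : f (1, 1) = 0) (h2 : f (1, -1) = 0)
    (hb : ∃ t : ℝ, |t| < 1 ∧ f (1, t) ≠ m * (1 - |t|)) :
    ∃ F : ℝ, 0 < F ∧ F < m ∧ ∀ c ∈ SQ, F ≤ f c → ∀ τ : ℝ, F ≤ τ → ∀ t : ℝ, |t| < 1 →
      UP SQ f (1, t) (c - (1, 1)) (-τ) ∨ UP SQ f (1, t) (c - (1, -1)) (-τ) := by
  have hconc := H.fconc
  have hmem : ∀ t : ℝ, |t| < 1 → ((1, t) : E) ∈ SQ := fun t ht => n_mem (by simp) ht.le
  have h00 : ((1, 0) : E) ∈ SQ := hmem 0 (by simp)
  have h10 : f (1, 0) ≤ m := hm _ h00
  rcases h10.lt_or_eq with hlt | heq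
  · have hn : 0 ≤ f (1, 0) := H.f0 _ h00
    refine ⟨(f (1, 0) + m) / 2, by linarith, by linarith, ?_⟩
    intro c hc hFc τ hτ t ht
    obtain ⟨ht1, ht2⟩ := abs_lt.1 ht
    rcases le_total 0 t with h0 | h0
    · left
      apply n_key1 hconc h2 hc ht1 ht2
      have h3 := n_up1 hconc h2 h0 ht2.le
      have h4 : (1 + t) * (2 * f (1, 0)) < (1 + t) * (f c + τ) :=
        mul_lt_mul_of_pos_left (by linarith) (by linarith)
      linarith
    · right
      apply n_key2 hconc h1 hc ht1 ht2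
      have h3 := n_up2 hconc h1 ht1.le h0
      have h4 : (1 - t) * (2 * f (1, 0)) < (1 - t) * (f c + τ) :=
        mul_lt_mul_of_pos_left (by linarith) (by linarith)
      linarith
  · obtain ⟨b, hb1, hb2⟩ := hb
    have hlow := n_low hconc h1 h2 heq hb1.le
    have hb3 : m * (1 - |b|) < f (1, b) := lt_of_le_of_ne hlow (Ne.symm hb2)
    have hb5 : b ≠ 0 := by
      rintro rfl
      rw [heq] at hb2
      simp at hb2
    have hfb : f (1, b) ≤ m := hm _ (hmem b hb1)
    have habs : 0 < |b| := abs_pos.2 hb5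
    obtain ⟨δ, hδ⟩ : ∃ δ : ℝ, δ = f (1, b) - m * (1 - |b|) := ⟨_, rfl⟩
    have hδ0 : 0 < δ := by rw [hδ]; linarith
    obtain ⟨ε, hε⟩ : ∃ ε : ℝ, ε = min (|b| / 2) (δ / (8 * m)) := ⟨_, rfl⟩
    have hε0 : 0 < ε := by rw [hε]; positivity
    have hε1 : ε ≤ |b| / 2 := by rw [hε]; exact min_le_left _ _
    have hε2 : ε * m ≤ δ / 8 := by
      have h3 : ε ≤ δ / (8 * m) := by rw [hε]; exact min_le_right _ _
      rw [le_div_iff₀ (by positivity)] at h3
      linarith
    have hε3 : ε < 1 := by linarith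
    have hεm : ε * m < 1 * m := mul_lt_mul_of_pos_right hε3 hm0
    have hεp : 0 < ε * m := by positivity
    refine ⟨m - ε * m / 2, by linarith, by linarith, ?_⟩
    intro c hc hFc τ hτ t ht
    obtain ⟨ht1, ht2⟩ := abs_lt.1 ht
    have hfm : f (1, t) ≤ m := hm _ (hmem t ht)
    have hlong : m < (1 + ε) * (f c + τ) / 2 := by
      have h4 : (1 + ε) * ((m - ε * m / 2) + (m - ε * m / 2)) ≤ (1 + ε) * (f c + τ) :=
        mul_le_mul_of_nonneg_left (by linarith) (by linarith)
      have h5 : (1 + ε) * ((m - ε * m / 2) + (m - ε * m / 2)) = 2 * m + ε * m * (1 - ε) := by ring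
      have h6 : 0 < ε * m * (1 - ε) := mul_pos hεp (by linarith)
      linarith
    have hsum : 0 ≤ f c + τ := by linarith
    rcases le_or_gt ε t with h3 | h3
    · left
      apply n_key1 hconc h2 hc ht1 ht2
      have h4 : (1 + ε) * (f c + τ) ≤ (1 + t) * (f c + τ) :=
        mul_le_mul_of_nonneg_right (by linarith) hsum
      linarith
    rcases le_or_gt t (-ε) with h4 | h4
    · right
      apply n_key2 hconc h1 hc ht1 ht2
      have h4 : (1 + ε) * (f c + τ) ≤ (1 - t) * (f c + τ) :=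
        mul_le_mul_of_nonneg_right (by linarith) hsum
      linarith
    rcases lt_or_gt_of_ne hb5 with hneg | hpos
    · left
      have e1 : |b| = -b := abs_of_neg hneg
      rw [e1] at hδ hε1 hb1
      have e2 : ((1 : ℝ), b) = (1, - -b) := by rw [neg_neg]
      apply n_near2 hconc hc (a := -b) (m := m) (by linarith) (by linarith) ht2 (by linarith) hfm
      rw [neg_neg]
      have := n_arith (a := -b) (t := -t) (τ := τ - (m - f c)) (m := m) (F := f (1, b))
        (by linarith) (by linarith) hm0 hδ hfb hε0 hε1 hε2 (by linarith) (by linarith)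
        (by linarith)
      have e4 : (1 - t) * (m - f (1, b)) = (1 + -t) * (m - f (1, b)) := by ring
      have e5 : (-b + t) * (τ - (m - f c)) = (-b - -t) * (τ - (m - f c)) := by ring
      rw [e4, e5]
      exact this
    · right
      have e1 : |b| = b := abs_of_pos hpos
      rw [e1] at hδ hε1 hb1
      apply n_near1 hconc hc hpos hb1 ht1 (by linarith) hfm
      exact n_arith hpos hb1 hm0 hδ hfb hε0 hε1 hε2 h4 h3 (by linarith)

end Pool.Agent.Lib.MP_5e7226_co.CM
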