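import Pool.Agent.Lib.MP_5e7226_co.CM.SqN1

/-! The assembly on the square without evenness. The list is four corner directions and
`((-1,-1), -1/ε)`, `((1,1), -1/ε)`, `((-1,1)...)`: tops by the steep directions `(-1,-1)` and
`(1,1)`, bottoms by the steep direction `(1,-1)`, hence the bottoms over the sides `s = 1` and
`t = -1` are left. The corners are `(1,1)`, `(-1,1)`, `(-1,-1)`, `(1,-1)`. -/

set_option autoImplicit false

open Set Filter Topology

namespace Pool.Agent.Lib.MP_5e7226_co.CM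

open PS

/-- from a point off the sides `s = p`, `t = q` the direction `(p, q)` leads inside -/
theorem n_IN {x : E} (hx : x ∈ SQ) {p q : ℝ} (hp : p = 1 ∨ p = -1) (hq : q = 1 ∨ q = -1)
    (h1 : p * x.1 < 1) (h2 : q * x.2 < 1) : IN SQ x (p, q) := by
  obtain ⟨a1, a2⟩ := hx
  rw [abs_le] at a1 a2
  obtain ⟨t, ht, h3, h4, h5⟩ : ∃ t : ℝ, 0 < t ∧ t ≤ 1 ∧ t < 1 - p * x.1 ∧ t < 1 - q * x.2 := by
    refine ⟨min 1 (min ((1 - p * x.1) / 2) ((1 - q * x.2) / 2)), ?_, min_le_left _ _, ?_, ?_⟩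
    · apply lt_min one_pos (lt_min _ _) <;> linarith
    · refine ((min_le_right _ _).trans (min_le_left _ _)).trans_lt ?_
      linarith
    · refine ((min_le_right _ _).trans (min_le_right _ _)).trans_lt ?_
      linarith
  refine IN_SQ ht ?_ ?_
  · rw [abs_lt]
    rcases hp with rfl | rfl <;> constructor <;> simp only <;> linarith
  · rw [abs_lt]
    rcases hq with rfl | rfl <;> constructor <;> simp only <;> linarith

/-- a rim point on the segment from `y` to `v`, not `y`, is lit by the direction `c - v` -/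
theorem n_full {f : E → ℝ} (H : PP SQ f f) {x y v c : E} {l τ : ℝ} (hf : f x = 0) (hy : y ∈ SQ)
    (hc : c ∈ interior SQ) (hl0 : 0 < l) (hl1 : l ≤ 1) (hx : x = (1 - l) • y + l • v)
    (hτ0 : 0 ≤ τ) (hτ : τ < f c) : Full SQ f f x (c - v) τ := by
  have e : x + l • (c - v) = (1 - l) • y + l • c := by
    rw [hx, smul_sub]; abel
  have hint : x + l • (c - v) ∈ interior SQ := by
    rw [e]; exact H.toPF.seg_int hc hy hl0 hl1
  have hlow : l * f c ≤ f (x + l • (c - v)) := by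
    rw [e]
    have h1 := H.fconc.2 hy (interior_subset hc) (show 0 ≤ 1 - l by linarith) hl0.le (by ring)
    simp only [smul_eq_mul] at h1
    have h3 : 0 ≤ (1 - l) * f y := mul_nonneg (by linarith) (H.f0 y hy)
    linarith
  have h4 : l * τ < l * f c := mul_lt_mul_of_pos_left hτ hl0
  have h5 : 0 ≤ l * τ := mul_nonneg hl0.le hτ0
  refine ⟨⟨l, hl0, hint⟩, ⟨l, hl0, interior_subset hint, ?_⟩, ⟨l, hl0, interior_subset hint, ?_⟩⟩
  · rw [hf]; linarith
  · rw [hf]; linarith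

theorem n_side {f : E → ℝ} (H : PP SQ f f) {x y v c : E} {l : ℝ} (hy : y ∈ SQ)
    (hc : c ∈ interior SQ) (hl0 : 0 < l) (hl1 : l ≤ 1) (hx : x = (1 - l) • y + l • v) :
    IN SQ x (c - v) := by
  refine ⟨l, hl0, ?_⟩
  have e : x + l • (c - v) = (1 - l) • y + l • c := by
    rw [hx, smul_sub]; abel
  rw [e]; exact H.toPF.seg_int hc hy hl0 hl1

/-- the corners -/
def NV : Fin 4 → E := ![(1, 1), (-1, 1), (-1, -1), (1, -1)]

/-- rim points are lit by the corner directions -/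
theorem n_rim {f : E → ℝ} (H : PP SQ f f) {c : Fin 4 → E} {τ : Fin 4 → ℝ}
    (hc : ∀ i, c i ∈ interior SQ) (hτ0 : ∀ i, 0 ≤ τ i) (hτ : ∀ i, τ i < f (c i)) {x : E}
    (hx : x ∈ SQ) (hf : f x = 0) : ∃ i, Full SQ f f x (c i - NV i) (τ i) := by
  obtain ⟨s, t⟩ := x
  have hx' := hx
  obtain ⟨h1, h2⟩ := hx'
  simp only [abs_le] at h1 h2
  have hbd : ¬ (|s| < 1 ∧ |t| < 1) := fun h => by
    have := H.fpos (s, t) (int_SQ h.1 h.2)
    linarith
  have hcase : s = 1 ∨ s = -1 ∨ t = 1 ∨ t = -1 := by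
    by_contra hcon
    push Not at hcon
    exact hbd ⟨abs_lt.2 ⟨lt_of_le_of_ne h1.1 (Ne.symm hcon.2.1), lt_of_le_of_ne h1.2 hcon.1⟩,
      abs_lt.2 ⟨lt_of_le_of_ne h2.1 (Ne.symm hcon.2.2.2), lt_of_le_of_ne h2.2 hcon.2.2.1⟩⟩
  have m0 : ((1, 1) : E) ∈ SQ := n_mem (by simp) (by simp)
  have m1 : ((-1, 1) : E) ∈ SQ := n_mem (by simp) (by simp)
  have m2 : ((-1, -1) : E) ∈ SQ := n_mem (by simp) (by simp)
  have m3 : ((1, -1) : E) ∈ SQ := n_mem (by simp) (by simp)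
  rcases hcase with rfl | rfl | rfl | rfl
  · -- right side
    rcases le_total 0 t with h | h
    · exact ⟨0, n_full H hf m3 (hc 0) (l := (1 + t) / 2) (by linarith) (by linarith)
        (by simp [NV]; ring) (hτ0 0) (hτ 0)⟩
    · exact ⟨3, n_full H hf m0 (hc 3) (l := (1 - t) / 2) (by linarith) (by linarith)
        (by simp [NV]; ring) (hτ0 3) (hτ 3)⟩
  · rcases le_total 0 t with h | h
    · exact ⟨1, n_full H hf m2 (hc 1) (l := (1 + t) / 2) (by linarith) (by linarith)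
        (by simp [NV]; constructor <;> ring) (hτ0 1) (hτ 1)⟩
    · exact ⟨2, n_full H hf m1 (hc 2) (l := (1 - t) / 2) (by linarith) (by linarith)
        (by simp [NV]; constructor <;> ring) (hτ0 2) (hτ 2)⟩
  · rcases le_total 0 s with h | h
    · exact ⟨0, n_full H hf m1 (hc 0) (l := (1 + s) / 2) (by linarith) (by linarith)
        (by simp [NV]; ring) (hτ0 0) (hτ 0)⟩
    · exact ⟨1, n_full H hf m0 (hc 1) (l := (1 - s) / 2) (by linarith) (by linarith)
        (by simp [NV]; ring) (hτ0 1) (hτ 1)⟩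
  · rcases le_total 0 s with h | h
    · exact ⟨3, n_full H hf m2 (hc 3) (l := (1 + s) / 2) (by linarith) (by linarith)
        (by simp [NV]; constructor <;> ring) (hτ0 3) (hτ 3)⟩
    · exact ⟨2, n_full H hf m3 (hc 2) (l := (1 - s) / 2) (by linarith) (by linarith)
        (by simp [NV]; constructor <;> ring) (hτ0 2) (hτ 2)⟩

/-- the assembly, arbitrary directions -/
theorem n_asm {f : E → ℝ} (H : PP SQ f f) (hv : ∀ i, f (NV i) = 0)
    (a : Fin 4 → E × ℝ)
    (hrim : ∀ x ∈ SQ, f x = 0 → ∃ i, Full SQ f f x (a i).1 (a i).2)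
    (h1 : ∀ t : ℝ, |t| < 1 → 0 < f (1, t) →
      ∃ i, IN SQ (1, t) (a i).1 ∧ UP SQ f (1, t) (a i).1 (-(a i).2))
    (h4 : ∀ s : ℝ, |s| < 1 → 0 < f (s, -1) →
      ∃ i, IN SQ (s, -1) (a i).1 ∧ UP SQ f (s, -1) (a i).1 (-(a i).2)) : Good7 SQ f := by
  have hv1 : f (1, 1) = 0 := hv 0
  have hv4 : f (-1, 1) = 0 := hv 1
  have hv3 : f (-1, -1) = 0 := hv 2
  have hv2 : f (1, -1) = 0 := hv 3
  set D : ℝ → List (E × ℝ) := fun ε => [a 0, a 1, a 2, a 3, ((-1, -1), -(1 / ε)),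
    ((1, 1), -(1 / ε)), ((1, -1), 1 / ε)] with hD
  have hmem : ∀ ε, ∀ i : Fin 4, a i ∈ D ε := by
    intro ε i
    fin_cases i <;> simp [hD]
  refine good7_of_loc' H D (fun ε => by simp [hD]) ?_
  intro x hx
  by_cases h0 : f x = 0
  · obtain ⟨i, hi⟩ := hrim x hx h0
    obtain ⟨r, hr, hh⟩ := loc1 H.toPF hx hi
    refine ⟨r, hr, fun y hy hyx ε _ _ => ?_⟩
    exact Or.inl ⟨a i, hmem ε i, hh y hy hyx _ (by rw [sub_self, abs_zero]; exact hr)⟩
  have hpos : 0 < f x := lt_of_le_of_ne (H.f0 x hx) (Ne.symm h0)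
  obtain ⟨x1, x2⟩ := x
  have hx' := hx
  obtain ⟨b1, b2⟩ := hx'
  simp only [abs_le] at b1 b2
  -- the tops
  obtain ⟨r1, hr1, ht⟩ : ∃ r : ℝ, 0 < r ∧ ∀ z ∈ SQ, ‖z - (x1, x2)‖ < r → ∀ ε : ℝ, 0 < ε → ε < r →
      ∃ d ∈ D ε, IN SQ z d.1 ∧ UP SQ f z d.1 d.2 := by
    by_cases hc : -1 < x1 ∧ -1 < x2
    · have hin : IN SQ (x1, x2) (-1, -1) := n_IN hx (Or.inr rfl) (Or.inr rfl)
        (by simp only; linarith [hc.1]) (by simp only; linarith [hc.2])
      obtain ⟨r, hr, hh⟩ := steep_fixed H.toPF hx hin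
      refine ⟨r, hr, fun z hz hzx ε hε hεr => ?_⟩
      obtain ⟨c1, c2, c3⟩ := hh z hz hzx ε hε hεr
      exact ⟨((-1, -1), -(1 / ε)), by simp [hD], c1, c2⟩
    · have hc' : x1 < 1 ∧ x2 < 1 := by
        by_contra hcon
        have key : (x1 = -1 ∨ x2 = -1) ∧ (x1 = 1 ∨ x2 = 1) := by
          constructor
          · by_contra h
            push Not at h
            exact hc ⟨lt_of_le_of_ne b1.1 (Ne.symm h.1), lt_of_le_of_ne b2.1 (Ne.symm h.2)⟩
          · by_contra h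
            push Not at h
            exact hcon ⟨lt_of_le_of_ne b1.2 h.1, lt_of_le_of_ne b2.2 h.2⟩
        rcases key with ⟨rfl | rfl, h | h⟩
        · norm_num at h
        · subst h; exact h0 hv4
        · subst h; exact h0 hv2
        · norm_num at h
      have hin : IN SQ (x1, x2) (1, 1) := n_IN hx (Or.inl rfl) (Or.inl rfl)
        (by simp only; linarith [hc'.1]) (by simp only; linarith [hc'.2])
      obtain ⟨r, hr, hh⟩ := steep_fixed H.toPF hx hin
      refine ⟨r, hr, fun z hz hzx ε hε hεr => ?_⟩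
      obtain ⟨c1, c2, c3⟩ := hh z hz hzx ε hε hεr
      exact ⟨((1, 1), -(1 / ε)), by simp [hD], c1, c2⟩
  -- the bottoms
  have key : ∀ i : Fin 4, IN SQ (x1, x2) (a i).1 → UP SQ f (x1, x2) (a i).1 (-(a i).2) →
      ∃ r : ℝ, 0 < r ∧ ∀ z ∈ SQ, ‖z - (x1, x2)‖ < r → ∀ ε : ℝ, 0 < ε → ε < r →
      ∃ d ∈ D ε, IN SQ z d.1 ∧ UP SQ f z d.1 (-d.2) := by
    intro i c1 c2
    obtain ⟨r, hr, hh⟩ := loc0 H.toPF hx c1 c2
    refine ⟨r, hr, fun z hz hzx ε _ _ => ?_⟩
    obtain ⟨c3, c4⟩ := hh z hz hzx _ (by rw [sub_self, abs_zero]; exact hr)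
    exact ⟨a i, hmem ε i, c3, c4⟩
  obtain ⟨r2, hr2, hb⟩ : ∃ r : ℝ, 0 < r ∧ ∀ z ∈ SQ, ‖z - (x1, x2)‖ < r → ∀ ε : ℝ, 0 < ε → ε < r →
      ∃ d ∈ D ε, IN SQ z d.1 ∧ UP SQ f z d.1 (-d.2) := by
    by_cases hc : x1 < 1 ∧ -1 < x2
    · have hin : IN SQ (x1, x2) (1, -1) := n_IN hx (Or.inl rfl) (Or.inr rfl)
        (by simp only; linarith [hc.1]) (by simp only; linarith [hc.2])
      obtain ⟨r, hr, hh⟩ := steep_fixed H.toPF hx hin
      refine ⟨r, hr, fun z hz hzx ε hε hεr => ?_⟩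
      obtain ⟨c1, c2, c3⟩ := hh z hz hzx ε hε hεr
      exact ⟨((1, -1), 1 / ε), by simp [hD], c1, c3⟩
    · by_cases hx1 : x1 = 1
      · subst hx1
        have ht2 : |x2| < 1 := by
          rw [abs_lt]
          constructor
          · refine lt_of_le_of_ne b2.1 ?_
            rintro rfl
            exact h0 hv2
          · refine lt_of_le_of_ne b2.2 ?_
            rintro rfl
            exact h0 hv1
        obtain ⟨i, c1, c2⟩ := h1 x2 ht2 hpos
        exact key i c1 c2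
      · have hx2 : x2 = -1 := by
          by_contra h
          exact hc ⟨lt_of_le_of_ne b1.2 hx1, lt_of_le_of_ne b2.1 (Ne.symm h)⟩
        subst hx2
        have ht1 : |x1| < 1 := by
          rw [abs_lt]
          constructor
          · refine lt_of_le_of_ne b1.1 ?_
            rintro rfl
            exact h0 hv3
          · exact lt_of_le_of_ne b1.2 hx1
        obtain ⟨i, c1, c2⟩ := h4 x1 ht1 hpos
        exact key i c1 c2
  refine ⟨min r1 r2, lt_min hr1 hr2, fun z hz hzx ε hε hεr => ?_⟩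
  apply cov_of H.toPF hz
  · intro hr
    obtain ⟨i, hi⟩ := hrim z hz hr.1
    exact ⟨a i, hmem ε i, hi⟩
  · intro _
    exact ⟨ht z hz (hzx.trans_le (min_le_left _ _)) ε hε (hεr.trans_le (min_le_left _ _)),
      hb z hz (hzx.trans_le (min_le_right _ _)) ε hε (hεr.trans_le (min_le_right _ _))⟩

/-- the assembly with the corner directions `c i - NV i` -/
theorem n_asmC {f : E → ℝ} (H : PP SQ f f) (hv : ∀ i, f (NV i) = 0)
    (c : Fin 4 → E) (τ : Fin 4 → ℝ)
    (hc : ∀ i, c i ∈ interior SQ) (hτ0 : ∀ i, 0 ≤ τ i) (hτ : ∀ i, τ i < f (c i))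
    (h1 : ∀ t : ℝ, |t| < 1 → UP SQ f (1, t) (c 0 - (1, 1)) (-τ 0) ∨
      UP SQ f (1, t) (c 3 - (1, -1)) (-τ 3))
    (h4 : ∀ s : ℝ, |s| < 1 → UP SQ f (s, -1) (c 2 - (-1, -1)) (-τ 2) ∨
      UP SQ f (s, -1) (c 3 - (1, -1)) (-τ 3)) : Good7 SQ f := by
  have m0 : ((1, 1) : E) ∈ SQ := n_mem (by simp) (by simp)
  have m2 : ((-1, -1) : E) ∈ SQ := n_mem (by simp) (by simp)
  have m3 : ((1, -1) : E) ∈ SQ := n_mem (by simp) (by simp)
  refine n_asm H hv (fun i => (c i - NV i, τ i)) (fun x hx hf => n_rim H hc hτ0 hτ hx hf) ?_ ?_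
  · intro t ht _
    obtain ⟨ht1, ht2⟩ := abs_lt.1 ht
    rcases h1 t ht with h | h
    · exact ⟨0, n_side H m3 (hc 0) (l := (1 + t) / 2) (by linarith) (by linarith)
        (by simp [NV]; ring), h⟩
    · exact ⟨3, n_side H m0 (hc 3) (l := (1 - t) / 2) (by linarith) (by linarith)
        (by simp [NV]; ring), h⟩
  · intro s hs _
    obtain ⟨ht1, ht2⟩ := abs_lt.1 hs
    rcases h4 s hs with h | h
    · exact ⟨2, n_side H m3 (hc 2) (l := (1 - s) / 2) (by linarith) (by linarith)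
        (by simp [NV]; constructor <;> ring), h⟩
    · exact ⟨3, n_side H m2 (hc 3) (l := (1 + s) / 2) (by linarith) (by linarith)
        (by simp [NV]; constructor <;> ring), h⟩

end Pool.Agent.Lib.MP_5e7226_co.CM
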