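import Pool.Agent.Lib.MP_5e7226_co.CM.SqN2

/-! All four corners on the rim: two adjacent sides which are no tents of full height; the tents. -/

set_option autoImplicit false

open Set Filter Topology

namespace Pool.Agent.Lib.MP_5e7226_co.CM

open PS

theorem n_zero {f : E → ℝ} (_H : PP SQ f f) : (0 : E) ∈ interior SQ :=
  int_SQ (by simp) (by simp)

theorem n_upL {f : E → ℝ} {x v : E} {w : ℝ}
    (h : UP SQ (fun x => f (x.2, -x.1)) x v w) : UP SQ f (x.2, -x.1) (v.2, -v.1) w := by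
  obtain ⟨t, ht, ⟨hm1, hm2⟩, hlt⟩ := h
  have e : ((x.2, -x.1) : E) + t • ((v.2, -v.1) : E) = ((x + t • v).2, -(x + t • v).1) := by
    ext
    · simp
    · simp; ring
  refine ⟨t, ht, ?_, ?_⟩
  · rw [e]
    refine ⟨hm2, ?_⟩
    show |-(x + t • v).1| ≤ 1
    rw [abs_neg]
    exact hm1
  · rw [e]
    exact hlt

/-- Lemma G' for the side `t = -1` -/
theorem gNB {f : E → ℝ} (H : PP SQ f f) {m : ℝ} (hm : ∀ x ∈ SQ, f x ≤ m) (hm0 : 0 < m)
    (h1 : f (1, -1) = 0) (h2 : f (-1, -1) = 0)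
    (hb : ∃ s : ℝ, |s| < 1 ∧ f (s, -1) ≠ m * (1 - |s|)) :
    ∃ F : ℝ, 0 < F ∧ F < m ∧ ∀ c ∈ SQ, F ≤ f c → ∀ τ : ℝ, F ≤ τ → ∀ s : ℝ, |s| < 1 →
      UP SQ f (s, -1) (c - (1, -1)) (-τ) ∨ UP SQ f (s, -1) (c - (-1, -1)) (-τ) := by
  have H' : PP SQ (fun x => f (x.2, -x.1)) (fun x => f (x.2, -x.1)) := PPs (PPr H)
  obtain ⟨F, hF0, hFm, hF⟩ := gN H' (m := m)
    (fun x hx => hm _ ⟨hx.2, by simpa using hx.1⟩) hm0 h1 h2 hb
  refine ⟨F, hF0, hFm, fun c hc hFc τ hτ s hs => ?_⟩
  have hc' : ((-c.2, c.1) : E) ∈ SQ := ⟨by simpa using hc.2, hc.1⟩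
  rcases hF (-c.2, c.1) hc' (by simpa using hFc) τ hτ s hs with h | h
  · left
    have h' := n_upL h
    have e : (((((-c.2, c.1) : E) - (1, 1)).2, -(((-c.2, c.1) : E) - (1, 1)).1) : E) =
        c - (1, -1) := by
      ext
      · simp
      · simp; ring
    rw [e] at h'
    exact h'
  · right
    have h' := n_upL h
    have e : (((((-c.2, c.1) : E) - (1, -1)).2, -(((-c.2, c.1) : E) - (1, -1)).1) : E) =
        c - (-1, -1) := by
      ext
      · simp
      · simp; ring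
    rw [e] at h'
    exact h'

/-- two adjacent sides which are no tents of full height -/
theorem n_adj {f : E → ℝ} (H : PP SQ f f) (hv : ∀ i, f (NV i) = 0) {m : ℝ}
    (hm : ∀ x ∈ SQ, f x ≤ m) (hm0 : 0 < m) (hsup : ∀ F < m, ∃ c ∈ interior SQ, F < f c)
    (hR : ∃ t : ℝ, |t| < 1 ∧ f (1, t) ≠ m * (1 - |t|))
    (hB : ∃ s : ℝ, |s| < 1 ∧ f (s, -1) ≠ m * (1 - |s|)) : Good7 SQ f := by
  obtain ⟨F1, a1, a2, a3⟩ := gN H hm hm0 (hv 0) (hv 3) hR
  obtain ⟨F2, b1, b2, b3⟩ := gNB H hm hm0 (hv 3) (hv 2) hB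
  obtain ⟨c, hc, hF⟩ := hsup (max F1 F2) (max_lt a2 b2)
  have h1 := le_max_left F1 F2
  have h2 := le_max_right F1 F2
  refine n_asmC H hv (fun _ => c) (fun _ => max F1 F2) (fun _ => hc)
    (fun _ => by linarith) (fun _ => hF) ?_ ?_
  · intro t ht
    exact a3 c (interior_subset hc) (by linarith) _ h1 t ht
  · intro s hs
    exact (b3 c (interior_subset hc) (by linarith) _ h2 s hs).symm

/-- lower bound from a full horizontal segment -/
theorem n_low2 {f : E → ℝ} (H : PP SQ f f) {m : ℝ} (hr : f (1, 0) = m)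
    (hl : f (-1, 0) = m) {x : E} (hx : x ∈ SQ) : m * (1 - |x.2|) ≤ f x := by
  obtain ⟨s, t⟩ := x
  obtain ⟨hs, ht⟩ := hx
  simp only at hs ht ⊢
  obtain ⟨q1, q2⟩ := abs_le.1 hs
  obtain ⟨q3, q4⟩ := abs_le.1 ht
  have h1 : m ≤ f (s, 0) := by
    have := n_conc H.fconc (a := -1) (b := 0) (c := 1) (d := 0) (l := (1 + s) / 2) (s := s) (t := 0)
      (n_mem (by simp) (by simp)) (n_mem (by simp) (by simp)) (by linarith) (by linarith)
      (by ring) (by ring)
    rw [hr, hl] at this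
    linarith
  rcases le_total 0 t with h | h
  · rw [abs_of_nonneg h] at ht ⊢
    have h2 := n_conc H.fconc (a := s) (b := 0) (c := s) (d := 1) (l := t) (s := s) (t := t)
      (n_mem hs (by simp)) (n_mem hs (by simp)) h ht (by ring) (by ring)
    have h4 := mul_nonneg h (H.f0 (s, 1) (n_mem hs (by simp)))
    have h5 : (1 - t) * m ≤ (1 - t) * f (s, 0) := mul_le_mul_of_nonneg_left h1 (by linarith)
    linarith
  · rw [abs_of_nonpos h] at ht ⊢
    have h2 := n_conc H.fconc (a := s) (b := 0) (c := s) (d := -1) (l := -t) (s := s) (t := t)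
      (n_mem hs (by simp)) (n_mem hs (by simp)) (by linarith) ht (by ring) (by ring)
    have h4 := mul_nonneg (show 0 ≤ -t by linarith) (H.f0 (s, -1) (n_mem hs (by simp)))
    have h5 : (1 - -t) * m ≤ (1 - -t) * f (s, 0) := mul_le_mul_of_nonneg_left h1 (by linarith)
    linarith

/-- lower bound from a full vertical segment -/
theorem n_low1 {f : E → ℝ} (H : PP SQ f f) {m : ℝ} (hr : f (0, 1) = m)
    (hl : f (0, -1) = m) {x : E} (hx : x ∈ SQ) : m * (1 - |x.1|) ≤ f x :=
  n_low2 (PPs H) hr hl (x := (x.2, x.1)) ⟨hx.2, hx.1⟩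

/-- Lemma B1: right and left side are tents of full height, the bottom side is not, and there is
a point above the axis with `f` larger than the tent. -/
theorem n_B1 {f : E → ℝ} (H : PP SQ f f) (hv : ∀ i, f (NV i) = 0) {m : ℝ}
    (hm : ∀ x ∈ SQ, f x ≤ m) (hm0 : 0 < m)
    (hR : ∀ t : ℝ, |t| < 1 → f (1, t) = m * (1 - |t|))
    (hL : ∀ t : ℝ, |t| < 1 → f (-1, t) = m * (1 - |t|))
    (hB : ∃ s : ℝ, |s| < 1 ∧ f (s, -1) ≠ m * (1 - |s|)) {u y : ℝ} (hu : |u| < 1) (hy0 : 0 < y)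
    (hy1 : y < 1) (hlt : m * (1 - y) < f (u, y)) : Good7 SQ f := by
  have r0 : f (1, 0) = m := by rw [hR 0 (by simp)]; simp
  have l0 : f (-1, 0) = m := by rw [hL 0 (by simp)]; simp
  have hlow : ∀ x ∈ SQ, m * (1 - |x.2|) ≤ f x := fun x hx => n_low2 H r0 l0 hx
  have z0 : ((0 : E)) ∈ SQ := interior_subset (n_zero H)
  have e0 : f 0 = m := le_antisymm (hm _ z0) (by simpa using hlow 0 z0)
  obtain ⟨F2, b1, b2, b3⟩ := gNB H hm hm0 (hv 3) (hv 2) hB
  obtain ⟨τ, hτ⟩ : ∃ τ : ℝ, τ = (m * (1 - y) + f (u, y)) / 2 := ⟨_, rfl⟩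
  have t1 : m * (1 - y) < τ := by rw [hτ]; linarith
  have t2 : τ < f (u, y) := by rw [hτ]; linarith
  have t3 : 0 < m * (1 - y) := mul_pos hm0 (by linarith)
  have hcu : ((u, y) : E) ∈ interior SQ := int_SQ hu (by simp only; rw [abs_of_pos hy0]; exact hy1)
  obtain ⟨u1, u2⟩ := abs_lt.1 hu
  refine n_asmC H hv ![(u, y), 0, 0, 0] ![τ, F2, F2, F2] ?_ ?_ ?_ ?_ ?_
  · intro i
    fin_cases i
    · exact hcu
    · exact n_zero H
    · exact n_zero H
    · exact n_zero H
  · intro i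
    fin_cases i
    · show 0 ≤ τ
      linarith
    · exact b1.le
    · exact b1.le
    · exact b1.le
  · intro i
    fin_cases i
    · exact t2
    · show F2 < f 0
      linarith
    · show F2 < f 0
      linarith
    · show F2 < f 0
      linarith
  · intro t ht
    left
    show UP SQ f (1, t) ((u, y) - (1, 1)) (-τ)
    obtain ⟨ht3, ht4⟩ := abs_lt.1 ht
    obtain ⟨l, hl⟩ : ∃ l : ℝ, l = (1 + t) / 2 := ⟨_, rfl⟩
    have hl0 : 0 < l := by linarith
    have hl1 : l < 1 := by linarith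
    have hy' : ((1, t) : E) + l • ((u, y) - (1, 1) : E) =
        (1 + l * (u - 1), t + l * (y - 1)) := by
      ext <;> simp
    have c1' : |1 + l * (u - 1)| ≤ 1 := by
      rw [abs_le]
      constructor <;> nlinarith
    have c2' : |t + l * (y - 1)| ≤ 1 := by
      rw [abs_le]
      constructor <;> nlinarith
    have hyS : ((1 + l * (u - 1), t + l * (y - 1)) : E) ∈ SQ := ⟨c1', c2'⟩
    refine ⟨l, hl0, ?_, ?_⟩
    · rw [hy']; exact hyS
    · rw [hy', hR t ht]
      have c1 := hlow _ hyS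
      simp only at c1
      have c2 : |t + l * (y - 1)| ≤ |t| + l * (1 - y) := by
        refine (abs_add_le _ _).trans ?_
        rw [abs_mul, abs_of_pos hl0, abs_of_nonpos (show y - 1 ≤ 0 by linarith)]
        linarith
      have c3 : m * (1 - |t| - l * (1 - y)) ≤ m * (1 - |t + l * (y - 1)|) :=
        mul_le_mul_of_nonneg_left (by linarith) hm0.le
      have c4 : l * (m * (1 - y)) < l * τ := mul_lt_mul_of_pos_left t1 hl0
      nlinarith
  · intro s hs
    have := b3 0 z0 (by rw [e0]; exact b2.le) F2 le_rfl s hs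
    exact this.symm

/-- all four sides are tents of full height -/
theorem n_B3 {f : E → ℝ} (H : PP SQ f f) (hv : ∀ i, f (NV i) = 0) {m : ℝ}
    (hm0 : 0 < m)
    (hR : ∀ t : ℝ, |t| < 1 → f (1, t) = m * (1 - |t|))
    (hL : ∀ t : ℝ, |t| < 1 → f (-1, t) = m * (1 - |t|))
    (hT : ∀ s : ℝ, |s| < 1 → f (s, 1) = m * (1 - |s|))
    (hB : ∀ s : ℝ, |s| < 1 → f (s, -1) = m * (1 - |s|)) : Good7 SQ f := by
  have r0 : f (1, 0) = m := by rw [hR 0 (by simp)]; simp
  have l0 : f (-1, 0) = m := by rw [hL 0 (by simp)]; simp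
  have t0 : f (0, 1) = m := by rw [hT 0 (by simp)]; simp
  have b0 : f (0, -1) = m := by rw [hB 0 (by simp)]; simp
  have hlow2 : ∀ x ∈ SQ, m * (1 - |x.2|) ≤ f x := fun x hx => n_low2 H r0 l0 hx
  have hlow1 : ∀ x ∈ SQ, m * (1 - |x.1|) ≤ f x := fun x hx => n_low1 H t0 b0 hx
  have z0 : ((0 : E)) ∈ SQ := interior_subset (n_zero H)
  have e0 : m ≤ f 0 := by simpa using hlow2 0 z0
  have h2 : f (1, -1) = 0 := hv 3
  have vert : ∀ v ∈ SQ, f v = 0 → Full SQ f f v (-v) (m / 2) := by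
    intro v hvS hf
    have := n_full H (x := v) (y := v) (v := v) (c := 0) (l := 1) (τ := m / 2) hf hvS (n_zero H)
      one_pos le_rfl (by simp) (by linarith) (by linarith)
    simpa using this
  refine n_asm H hv ![((-1, -1), m / 2), ((1, -1), m / 2), ((1, 1), m / 2),
    ((-1, 1 / 2), 5 / 4 * m)] ?_ ?_ ?_
  · rintro ⟨s, t⟩ hx hf
    have hs : |s| ≤ 1 := hx.1
    have ht : |t| ≤ 1 := hx.2
    have ls : m * (1 - |s|) ≤ 0 := by rw [← hf]; exact hlow1 _ hx
    have lt : m * (1 - |t|) ≤ 0 := by rw [← hf]; exact hlow2 _ hx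
    have hs1 : |s| = 1 := by
      apply le_antisymm hs
      nlinarith
    have ht1 : |t| = 1 := by
      apply le_antisymm ht
      nlinarith
    rcases abs_eq (zero_le_one' ℝ) |>.1 hs1 with rfl | rfl <;>
    rcases abs_eq (zero_le_one' ℝ) |>.1 ht1 with rfl | rfl
    · refine ⟨0, ?_⟩
      have := vert _ hx hf
      simpa using this
    · refine ⟨3, ?_⟩
      show Full SQ f f (1, -1) (-1, 1 / 2) (5 / 4 * m)
      have h5 : m * (3 / 4) ≤ f (1 / 2, -3 / 4) := by
        have h6 := n_conc H.fconc (a := 1) (b := -1) (c := 1) (d := 0) (l := 1 / 2) (s := 1)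
          (t := -1 / 2) (n_mem (by simp) (by simp)) (n_mem (by simp) (by simp)) (by norm_num)
          (by norm_num) (by norm_num) (by norm_num)
        have h7 := n_conc H.fconc (a := 1) (b := -1 / 2) (c := 0) (d := -1) (l := 1 / 2)
          (s := 1 / 2)
          (t := -3 / 4) (n_mem (by simp) (by rw [abs_le]; norm_num))
          (n_mem (by simp) (by simp)) (by norm_num) (by norm_num) (by norm_num) (by norm_num)
        rw [h2, r0] at h6
        rw [b0] at h7
        linarith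
      have e3 : ((1, -1) : E) + (1 / 2 : ℝ) • ((-1, 1 / 2) : E) = (1 / 2, -3 / 4) := by
        ext <;> simp <;> norm_num
      refine ⟨IN_SQ (t := 1 / 2) (by norm_num) (by rw [abs_lt]; norm_num)
        (by rw [abs_lt]; norm_num), ⟨1 / 2, by norm_num, ?_, ?_⟩, ⟨1 / 2, by norm_num, ?_, ?_⟩⟩
      · rw [e3]; exact n_mem (by rw [abs_le]; norm_num) (by rw [abs_le]; norm_num)
      · rw [e3, h2]; linarith
      · rw [e3]; exact n_mem (by rw [abs_le]; norm_num) (by rw [abs_le]; norm_num)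
      · rw [e3, h2]; linarith
    · refine ⟨1, ?_⟩
      have := vert _ hx hf
      simpa using this
    · refine ⟨2, ?_⟩
      have := vert _ hx hf
      simpa using this
  · intro t ht _
    refine ⟨3, ?_, ?_⟩
    · show IN SQ (1, t) (-1, 1 / 2)
      rw [abs_lt] at ht
      refine IN_SQ (t := (1 - t) / 2) (by linarith) ?_ ?_
      · show |1 + (1 - t) / 2 * -1| < 1
        rw [abs_lt]; constructor <;> linarith
      · show |t + (1 - t) / 2 * (1 / 2)| < 1
        rw [abs_lt]; constructor <;> linarith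
    · show UP SQ f (1, t) (-1, 1 / 2) (-(5 / 4 * m))
      have ht' := ht
      rw [abs_lt] at ht'
      have e3 : ((1, t) : E) + ((1 - t) / 2) • ((-1, 1 / 2) : E) =
          (1 - (1 - t) / 2, t + (1 - t) / 4) := by
        ext <;> simp <;> ring
      have hA : |1 - (1 - t) / 2| ≤ 1 := by rw [abs_le]; constructor <;> linarith
      have hB' : |t + (1 - t) / 4| ≤ 1 := by rw [abs_le]; constructor <;> linarith
      refine ⟨(1 - t) / 2, by linarith, by rw [e3]; exact n_mem hA hB', ?_⟩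
      rw [e3, hR t ht]
      have h5 := hlow2 _ (n_mem hA hB')
      simp only at h5
      have h6 : |t + (1 - t) / 4| ≤ |t| + (1 - t) / 4 := by
        have := abs_add_le t ((1 - t) / 4)
        rwa [abs_of_nonneg (show 0 ≤ (1 - t) / 4 by linarith)] at this
      have h7 : m * |t + (1 - t) / 4| ≤ m * (|t| + (1 - t) / 4) :=
        mul_le_mul_of_nonneg_left h6 hm0.le
      have h8 : 0 < m * (1 - t) := mul_pos hm0 (by linarith)
      nlinarith
  · intro s hs _
    refine ⟨3, ?_, ?_⟩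
    · show IN SQ (s, -1) (-1, 1 / 2)
      rw [abs_lt] at hs
      refine IN_SQ (t := (1 + s) / 2) (by linarith) ?_ ?_
      · show |s + (1 + s) / 2 * -1| < 1
        rw [abs_lt]; constructor <;> linarith
      · show |-1 + (1 + s) / 2 * (1 / 2)| < 1
        rw [abs_lt]; constructor <;> linarith
    · show UP SQ f (s, -1) (-1, 1 / 2) (-(5 / 4 * m))
      have hs' := hs
      rw [abs_lt] at hs'
      have e3 : ((s, -1) : E) + ((1 + s) / 2) • ((-1, 1 / 2) : E) =
          (s - (1 + s) / 2, -1 + (1 + s) / 4) := by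
        ext <;> simp <;> ring
      have hA : |s - (1 + s) / 2| ≤ 1 := by rw [abs_le]; constructor <;> linarith
      have hB' : |-1 + (1 + s) / 4| ≤ 1 := by rw [abs_le]; constructor <;> linarith
      refine ⟨(1 + s) / 2, by linarith, by rw [e3]; exact n_mem hA hB', ?_⟩
      rw [e3, hB s hs]
      have h5 := hlow1 _ (n_mem hA hB')
      simp only at h5
      have h6 : |s - (1 + s) / 2| ≤ |s| + (1 + s) / 2 := by
        have := abs_sub s ((1 + s) / 2)
        rwa [abs_of_nonneg (show 0 ≤ (1 + s) / 2 by linarith)] at this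
      have h7 : m * |s - (1 + s) / 2| ≤ m * (|s| + (1 + s) / 2) :=
        mul_le_mul_of_nonneg_left h6 hm0.le
      have h8 : 0 < m * (1 + s) := mul_pos hm0 (by linarith)
      nlinarith

end Pool.Agent.Lib.MP_5e7226_co.CM
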