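import Pool.Agent.Lib.MP_5e7226_co.CM.SqB

/-! The square, no rim point, no evenness (helper25). -/

set_option autoImplicit false

open Set Filter Topology

namespace Pool.Agent.Lib.MP_5e7226_co.CM

open PS

/-- compactness: local uniformity in `ε` suffices -/
theorem g7_of_loc {B : Set E} {f : E → ℝ} (H : PF B f f) (D : ℝ → List (E × ℝ))
    (hD : ∀ ε, (D ε).length ≤ 7)
    (hl : ∀ x ∈ B, ∃ r : ℝ, 0 < r ∧ ∀ y ∈ B, ‖y - x‖ < r → ∀ ε : ℝ, 0 < ε → ε < r →
      Cov B f f (D ε) y) : Good7 B f := by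
  obtain ⟨ε, _, h1⟩ := unif_of_loc H (fun ε y => Cov B f f (D ε) y) hl
  exact ⟨D ε, hD ε, h1⟩

/-- steep directions light the fibres near a point with positive `f` -/
theorem g7_steep {B : Set E} {f : E → ℝ} (H : PF B f f) {x a : E} (hx : x ∈ B) (ha : IN B x a)
    (D : ℝ → List (E × ℝ)) (h1 : ∀ ε, (a, 1 / ε) ∈ D ε) (h2 : ∀ ε, (a, -(1 / ε)) ∈ D ε)
    {r₀ : ℝ} (hr₀ : 0 < r₀) (hpos : ∀ z ∈ B, ‖z - x‖ < r₀ → 0 < f z) :
    ∃ r : ℝ, 0 < r ∧ ∀ z ∈ B, ‖z - x‖ < r → ∀ ε : ℝ, 0 < ε → ε < r → Cov B f f (D ε) z := by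
  obtain ⟨r, hr, hh⟩ := steep_fixed H hx ha
  refine ⟨min r r₀, lt_min hr hr₀, fun z hz hzx ε hε hεr => ?_⟩
  obtain ⟨b1, b2, b3⟩ := hh z hz (hzx.trans_le (min_le_left _ _)) ε hε
    (hεr.trans_le (min_le_left _ _))
  have hp := hpos z hz (hzx.trans_le (min_le_right _ _))
  exact Or.inr ⟨by linarith, ⟨(a, -(1 / ε)), h2 ε, b1, b2⟩, ⟨(a, 1 / ε), h1 ε, b1, b3⟩⟩

/-- a horizontal direction towards a higher interior point lights near `x` -/
theorem g7_flat {B : Set E} {f : E → ℝ} (H : PF B f f) {x c : E} (hx : x ∈ B)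
    (hc : c ∈ interior B) (hlt : f x < f c) (D : ℝ → List (E × ℝ))
    (hD : ∀ ε, (c - x, (0 : ℝ)) ∈ D ε) :
    ∃ r : ℝ, 0 < r ∧ ∀ z ∈ B, ‖z - x‖ < r → ∀ ε : ℝ, 0 < ε → ε < r → Cov B f f (D ε) z := by
  have hup : UP B f x (c - x) 0 := by
    refine ⟨1, one_pos, ?_, ?_⟩
    · rw [one_smul, add_sub_cancel]; exact interior_subset hc
    · rw [one_smul, add_sub_cancel]; simpa using hlt
  obtain ⟨r, hr', hh⟩ := loc1 H hx (v := c - x) (w := 0) ⟨in_center H hc, hup, by simpa using hup⟩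
  refine ⟨r, hr', fun z hz hzx ε _ _ => ?_⟩
  exact cov_of_full (hD ε) (hh z hz hzx 0 (by simpa using hr'))

/-- a value above a level is approached from the interior -/
theorem g7_int {B : Set E} {f : E → ℝ} (H : PP B f f) {x : E} (hx : x ∈ B) {a : ℝ}
    (ha : a < f x) : ∃ c ∈ interior B, a < f c := by
  obtain ⟨c₀, hc₀⟩ := H.int
  obtain ⟨t, ht0, ht1, hta⟩ : ∃ t : ℝ, 0 < t ∧ t ≤ 1 ∧ t * (f x + 1) < f x - a := by
    have hfx := H.f0 x hx
    refine ⟨min 1 ((f x - a) / (2 * (f x + 1))), ?_, min_le_left _ _, ?_⟩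
    · exact lt_min one_pos (div_pos (by linarith) (by linarith))
    · have h1 : min 1 ((f x - a) / (2 * (f x + 1))) ≤ (f x - a) / (2 * (f x + 1)) :=
        min_le_right _ _
      have h2 : (f x - a) / (2 * (f x + 1)) * (f x + 1) = (f x - a) / 2 := by
        field_simp
      have h3 := mul_le_mul_of_nonneg_right h1 (show 0 ≤ f x + 1 by linarith)
      linarith
  refine ⟨t • c₀ + (1 - t) • x, ?_, ?_⟩
  · exact H.conv.combo_interior_self_mem_interior hc₀ hx ht0 (by linarith) (by ring)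
  · have h1 := H.fconc.2 (interior_subset hc₀) hx ht0.le (show (0 : ℝ) ≤ 1 - t by linarith)
      (by ring)
    simp only [smul_eq_mul] at h1
    have h2 := H.f0 c₀ (interior_subset hc₀)
    have h3 : 0 ≤ t * f c₀ := mul_nonneg ht0.le h2
    nlinarith

theorem sq_norim {f : E → ℝ} (H : PP SQ f f) (hpos : ∀ x ∈ SQ, 0 < f x) :
    Good7 SQ f ∨ ∀ x ∈ SQ, f x = f 0 := by
  by_cases h : ∃ p q : ℝ, (p = 1 ∨ p = -1) ∧ (q = 1 ∨ q = -1) ∧ ∃ x ∈ SQ, f (p, q) < f x
  · left
    obtain ⟨p, q, hp, hq, x₀, hx₀, hlt⟩ := h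
    obtain ⟨c, hc, hfc⟩ := g7_int H hx₀ hlt
    have hpp : p * p = 1 := by rcases hp with rfl | rfl <;> norm_num
    have hqq : q * q = 1 := by rcases hq with rfl | rfl <;> norm_num
    have hp' : -p = 1 ∨ -p = -1 := by rcases hp with rfl | rfl <;> norm_num
    have hq' : -q = 1 ∨ -q = -1 := by rcases hq with rfl | rfl <;> norm_num
    set D : ℝ → List (E × ℝ) := fun ε => [(c - (p, q), 0), ((p, q), 1 / ε), ((p, q), -(1 / ε)),
      ((-p, q), 1 / ε), ((-p, q), -(1 / ε)), ((p, -q), 1 / ε), ((p, -q), -(1 / ε))] with hD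
    refine g7_of_loc H.toPF D (fun ε => by simp [hD]) ?_
    intro x hx
    by_cases h1 : x = (p, q)
    · subst h1
      exact g7_flat H.toPF hx hc hfc D (fun ε => by simp [hD])
    have hx1 : p * x.1 ≤ 1 := by
      have := abs_le.1 hx.1
      rcases hp with rfl | rfl <;> linarith
    have hx2 : q * x.2 ≤ 1 := by
      have := abs_le.1 hx.2
      rcases hq with rfl | rfl <;> linarith
    have hin : IN SQ x (p, q) ∨ IN SQ x (-p, q) ∨ IN SQ x (p, -q) := by
      rcases lt_or_eq_of_le hx1 with a | a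
      · rcases lt_or_eq_of_le hx2 with b | b
        · exact Or.inl (r4_in hx hp hq a b)
        · exact Or.inr (Or.inr (r4_in hx hp hq' a (by linarith)))
      · have b : q * x.2 < 1 := lt_of_le_of_ne hx2 fun b => h1 (Prod.ext
          (by simp only; linear_combination p * a - x.1 * hpp)
          (by simp only; linear_combination q * b - x.2 * hqq))
        exact Or.inr (Or.inl (r4_in hx hp' hq (by linarith) b))
    rcases hin with k | k | k
    · exact g7_steep H.toPF hx k D (fun ε => by simp [hD]) (fun ε => by simp [hD]) one_pos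
        (fun z hz _ => hpos z hz)
    · exact g7_steep H.toPF hx k D (fun ε => by simp [hD]) (fun ε => by simp [hD]) one_pos
        (fun z hz _ => hpos z hz)
    · exact g7_steep H.toPF hx k D (fun ε => by simp [hD]) (fun ε => by simp [hD]) one_pos
        (fun z hz _ => hpos z hz)
  · right
    push Not at h
    have M11 : ((1, 1) : E) ∈ SQ := r4_mem (by simp) (by simp)
    have M12 : ((1, -1) : E) ∈ SQ := r4_mem (by simp) (by simp)
    have M21 : ((-1, 1) : E) ∈ SQ := r4_mem (by simp) (by simp)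
    have M22 : ((-1, -1) : E) ∈ SQ := r4_mem (by simp) (by simp)
    have M0 : (0 : E) ∈ SQ := r4_mem (by simp) (by simp)
    have k1 := h 1 1 (by simp) (by simp)
    have k2 := h 1 (-1) (by simp) (by simp)
    have k3 := h (-1) 1 (by simp) (by simp)
    have k4 := h (-1) (-1) (by simp) (by simp)
    have key : ∀ x ∈ SQ, f x = f (1, 1) := by
      intro x hx
      apply le_antisymm (k1 x hx)
      have hx1 := abs_le.1 hx.1
      have hx2 := abs_le.1 hx.2
      have m3 : ((1, x.2) : E) ∈ SQ := r4_mem (by simp) hx.2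
      have m5 : ((-1, x.2) : E) ∈ SQ := r4_mem (by simp) hx.2
      have h1 := H.fconc.2 M11 M12 (show 0 ≤ (1 + x.2) / 2 by linarith)
        (show 0 ≤ (1 - x.2) / 2 by linarith) (by ring)
      have h2 := H.fconc.2 M21 M22 (show 0 ≤ (1 + x.2) / 2 by linarith)
        (show 0 ≤ (1 - x.2) / 2 by linarith) (by ring)
      have h3 := H.fconc.2 m3 m5 (show 0 ≤ (1 + x.1) / 2 by linarith)
        (show 0 ≤ (1 - x.1) / 2 by linarith) (by ring)
      have e1 : ((1 + x.2) / 2) • ((1, 1) : E) + ((1 - x.2) / 2) • ((1, -1) : E) = (1, x.2) := by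
        ext
        · simp; ring
        · simp; ring
      have e2 : ((1 + x.2) / 2) • ((-1, 1) : E) + ((1 - x.2) / 2) • ((-1, -1) : E)
          = (-1, x.2) := by
        ext
        · simp; ring
        · simp; ring
      have e3 : ((1 + x.1) / 2) • ((1, x.2) : E) + ((1 - x.1) / 2) • ((-1, x.2) : E) = x := by
        ext
        · simp; ring
        · simp; ring
      rw [e1] at h1
      rw [e2] at h2
      rw [e3] at h3
      simp only [smul_eq_mul] at h1 h2 h3
      have a2 : f (1, 1) ≤ f (1, -1) := k2 _ M11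
      have a3 : f (1, 1) ≤ f (-1, 1) := k3 _ M11
      have a4 : f (1, 1) ≤ f (-1, -1) := k4 _ M11
      have b1 : f (1, 1) ≤ f (1, x.2) := by
        have := mul_le_mul_of_nonneg_left a2 (show 0 ≤ (1 - x.2) / 2 by linarith)
        nlinarith
      have b2 : f (1, 1) ≤ f (-1, x.2) := by
        have c1 := mul_le_mul_of_nonneg_left a3 (show 0 ≤ (1 + x.2) / 2 by linarith)
        have c2 := mul_le_mul_of_nonneg_left a4 (show 0 ≤ (1 - x.2) / 2 by linarith)
        linarith
      have c1 := mul_le_mul_of_nonneg_left b1 (show 0 ≤ (1 + x.1) / 2 by linarith)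
      have c2 := mul_le_mul_of_nonneg_left b2 (show 0 ≤ (1 - x.1) / 2 by linarith)
      linarith
    intro x hx
    rw [key x hx, key 0 M0]

end Pool.Agent.Lib.MP_5e7226_co.CM
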